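import Pool.Agent.Run7.h817.Han.Cx

/-!
# Piece IND of the project MP_92f1cb_al: the abstract induction step

From a complex `P2 → P1 → P0` of bimodules with vanishing higher homology whose `h_0` is exact,
`H_1 ≅ Z'` and `0 → Z'' → H_0 → Z → 0`, to the homology of `Z`.
-/

set_option autoImplicit false
set_option linter.all false

open scoped TensorProduct

namespace Run7.h921.Han
open Run7.h817.Han

section

variable {k A : Type} [Field k] [Ring A] [Algebra k A]

/-- the sub-bimodule on a stable subspace -/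
noncomputable def subAct {X : Type} [AddCommGroup X] [Module k X] (β : BiAct k A X)
    (S : Submodule k X) (hl : ∀ a x, x ∈ S → β.l a x ∈ S) (hr : ∀ a x, x ∈ S → β.r a x ∈ S) :
    BiAct k A S where
  l :=
    { toFun := fun a => (β.l a).restrict (hl a)
      map_add' := fun a b => by ext x; simp [LinearMap.restrict_apply]
      map_smul' := fun c a => by ext x; simp [LinearMap.restrict_apply] }
  r :=
    { toFun := fun a => (β.r a).restrict (hr a)
      map_add' := fun a b => by ext x; simp [LinearMap.restrict_apply]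
      map_smul' := fun c a => by ext x; simp [LinearMap.restrict_apply] }
  l_mul a b x := by ext; simp [LinearMap.restrict_apply, β.l_mul]
  r_mul a b x := by ext; simp [LinearMap.restrict_apply, β.r_mul]
  comm a b x := by ext; simp [LinearMap.restrict_apply, β.comm]

@[simp] theorem subAct_l {X : Type} [AddCommGroup X] [Module k X] (β : BiAct k A X)
    (S : Submodule k X) (hl : ∀ a x, x ∈ S → β.l a x ∈ S) (hr : ∀ a x, x ∈ S → β.r a x ∈ S)
    (a : A) (x : S) : (((subAct β S hl hr).l a x : S) : X) = β.l a x := rfl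

@[simp] theorem subAct_r {X : Type} [AddCommGroup X] [Module k X] (β : BiAct k A X)
    (S : Submodule k X) (hl : ∀ a x, x ∈ S → β.l a x ∈ S) (hr : ∀ a x, x ∈ S → β.r a x ∈ S)
    (a : A) (x : S) : (((subAct β S hl hr).r a x : S) : X) = β.r a x := rfl

/-- a linear map which commutes with the actions maps `range d0` into `range d0` -/
theorem map_range {X Y : Type} [AddCommGroup X] [Module k X] [AddCommGroup Y] [Module k Y]
    {β : BiAct k A X} {γ : BiAct k A Y} {u : X →ₗ[k] Y}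
    (hl : ∀ a x, u (β.l a x) = γ.l a (u x)) (hr : ∀ a x, u (β.r a x) = γ.r a (u x))
    {x : X} (hx : x ∈ LinearMap.range (d0 β)) : u x ∈ LinearMap.range (d0 γ) := by
  obtain ⟨z, rfl⟩ := hx
  refine ⟨u.rTensor A z, ?_⟩
  induction z with
  | zero => simp
  | tmul x a => simp [hl, hr]
  | add x y hx hy => rw [map_add, map_add, map_add, map_add, hx, hy]

/-- the hypotheses on long exact sequences (proved in piece HOM) -/
structure LES (k A : Type) [Field k] [Ring A] [Algebra k A] : Prop where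
  L1 : ∀ {X' X X'' : Type} [AddCommGroup X'] [Module k X'] [AddCommGroup X] [Module k X]
    [AddCommGroup X''] [Module k X''] {β' : BiAct k A X'} {β : BiAct k A X} {β'' : BiAct k A X''}
    {i : X' →ₗ[k] X} {p : X →ₗ[k] X''}, SES β' β β'' i p → ∀ n, Hv n β' → Hv n β'' → Hv n β
  L2 : ∀ {X' X X'' : Type} [AddCommGroup X'] [Module k X'] [AddCommGroup X] [Module k X]
    [AddCommGroup X''] [Module k X''] {β' : BiAct k A X'} {β : BiAct k A X} {β'' : BiAct k A X''}
    {i : X' →ₗ[k] X} {p : X →ₗ[k] X''}, SES β' β β'' i p →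
      ∀ n, Hv (n + 1) β → Hv n β' → Hv (n + 1) β''
  L2z : ∀ {X' X X'' : Type} [AddCommGroup X'] [Module k X'] [AddCommGroup X] [Module k X]
    [AddCommGroup X''] [Module k X''] {β' : BiAct k A X'} {β : BiAct k A X} {β'' : BiAct k A X''}
    {i : X' →ₗ[k] X} {p : X →ₗ[k] X''}, SES β' β β'' i p → Hv 1 β →
      (∀ x', i x' ∈ LinearMap.range (d0 β) → x' ∈ LinearMap.range (d0 β')) → Hv 1 β''

variable {P2 P1 P0 Z Z' Z'' : Type} [AddCommGroup P2] [Module k P2] [AddCommGroup P1] [Module k P1]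
  [AddCommGroup P0] [Module k P0] [AddCommGroup Z] [Module k Z] [AddCommGroup Z'] [Module k Z']
  [AddCommGroup Z''] [Module k Z'']

/-- the data of the induction step: `P2 → P1 → P0 → Z`, `ker d1 / im d2 ≅ Z'`,
`ker ρ / im d1 ≅ Z''`, and `h_0 (P2) → h_0 (P1) → h_0 (P0)` is exact (with zeros at both ends). -/
structure Step (p2 : BiAct k A P2) (p1 : BiAct k A P1) (p0 : BiAct k A P0) (z : BiAct k A Z)
    (z' : BiAct k A Z') (z'' : BiAct k A Z'') (d2 : P2 →ₗ[k] P1) (d1 : P1 →ₗ[k] P0)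
    (ρ : P0 →ₗ[k] Z) (π : LinearMap.ker d1 →ₗ[k] Z') (σ : LinearMap.ker ρ →ₗ[k] Z'') : Prop where
  hv2 : ∀ n, Hv (n + 1) p2
  hv1 : ∀ n, Hv (n + 1) p1
  hv0 : ∀ n, Hv (n + 1) p0
  inj : Function.Injective d2
  d12 : ∀ x, d1 (d2 x) = 0
  ρd : ∀ x, ρ (d1 x) = 0
  ρsurj : Function.Surjective ρ
  πsurj : Function.Surjective π
  σsurj : Function.Surjective σ
  πker : ∀ x : LinearMap.ker d1, π x = 0 ↔ ∃ y, d2 y = (x : P1)
  σker : ∀ x : LinearMap.ker ρ, σ x = 0 ↔ ∃ y, d1 y = (x : P0)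
  d2l : ∀ a x, d2 (p2.l a x) = p1.l a (d2 x)
  d2r : ∀ a x, d2 (p2.r a x) = p1.r a (d2 x)
  d1l : ∀ a x, d1 (p1.l a x) = p0.l a (d1 x)
  d1r : ∀ a x, d1 (p1.r a x) = p0.r a (d1 x)
  ρl : ∀ a x, ρ (p0.l a x) = z.l a (ρ x)
  ρr : ∀ a x, ρ (p0.r a x) = z.r a (ρ x)
  πl : ∀ a (x y : LinearMap.ker d1), (y : P1) = p1.l a x → π y = z'.l a (π x)
  πr : ∀ a (x y : LinearMap.ker d1), (y : P1) = p1.r a x → π y = z'.r a (π x)
  σl : ∀ a (x y : LinearMap.ker ρ), (y : P0) = p0.l a x → σ y = z''.l a (σ x)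
  σr : ∀ a (x y : LinearMap.ker ρ), (y : P0) = p0.r a x → σ y = z''.r a (σ x)
  E2 : ∀ y, d2 y ∈ LinearMap.range (d0 p1) → y ∈ LinearMap.range (d0 p2)
  E1 : ∀ y, d1 y ∈ LinearMap.range (d0 p0) → ∃ x, y - d2 x ∈ LinearMap.range (d0 p1)
  E0 : ∀ x, ∃ y, x - d1 y ∈ LinearMap.range (d0 p0)

variable {p2 : BiAct k A P2} {p1 : BiAct k A P1} {p0 : BiAct k A P0} {z : BiAct k A Z}
    {z' : BiAct k A Z'} {z'' : BiAct k A Z''} {d2 : P2 →ₗ[k] P1} {d1 : P1 →ₗ[k] P0}
    {ρ : P0 →ₗ[k] Z} {π : LinearMap.ker d1 →ₗ[k] Z'} {σ : LinearMap.ker ρ →ₗ[k] Z''}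

/-- the base of the induction -/
theorem Step.zero (S : Step p2 p1 p0 z z' z'' d2 d1 ρ π σ) : Hv 0 z := by
  intro x
  obtain ⟨y, rfl⟩ := S.ρsurj x
  obtain ⟨w, hw⟩ := S.E0 y
  have h1 := map_range (u := ρ) S.ρl S.ρr hw
  rw [map_sub, S.ρd, sub_zero] at h1
  exact h1

/-- the induction step -/
theorem Step.succ (L : LES k A) (S : Step p2 p1 p0 z z' z'' d2 d1 ρ π σ) (n : ℕ)
    (h' : ∀ j ≤ n, Hv j z') (h'' : ∀ j ≤ n, Hv j z'') : ∀ j ≤ n + 1, Hv j z := by
  -- the sub-bimodules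
  have hKl : ∀ a x, x ∈ LinearMap.ker d1 → p1.l a x ∈ LinearMap.ker d1 := by
    intro a x hx
    rw [LinearMap.mem_ker] at hx ⊢
    rw [S.d1l, hx, map_zero]
  have hKr : ∀ a x, x ∈ LinearMap.ker d1 → p1.r a x ∈ LinearMap.ker d1 := by
    intro a x hx
    rw [LinearMap.mem_ker] at hx ⊢
    rw [S.d1r, hx, map_zero]
  have hJl : ∀ a x, x ∈ LinearMap.ker ρ → p0.l a x ∈ LinearMap.ker ρ := by
    intro a x hx
    rw [LinearMap.mem_ker] at hx ⊢
    rw [S.ρl, hx, map_zero]
  have hJr : ∀ a x, x ∈ LinearMap.ker ρ → p0.r a x ∈ LinearMap.ker ρ := by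
    intro a x hx
    rw [LinearMap.mem_ker] at hx ⊢
    rw [S.ρr, hx, map_zero]
  have hIl : ∀ a x, x ∈ LinearMap.range d1 → p0.l a x ∈ LinearMap.range d1 := by
    rintro a _ ⟨y, rfl⟩
    exact ⟨p1.l a y, S.d1l a y⟩
  have hIr : ∀ a x, x ∈ LinearMap.range d1 → p0.r a x ∈ LinearMap.range d1 := by
    rintro a _ ⟨y, rfl⟩
    exact ⟨p1.r a y, S.d1r a y⟩
  set K := subAct p1 (LinearMap.ker d1) hKl hKr with hK
  set J := subAct p0 (LinearMap.ker ρ) hJl hJr with hJ
  set I := subAct p0 (LinearMap.range d1) hIl hIr with hI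
  -- 0 → P2 → K → Z' → 0
  have s1 : SES p2 K z' (d2.codRestrict (LinearMap.ker d1) fun x => S.d12 x) π :=
    { inj := fun x y h => S.inj (congrArg Subtype.val h)
      surj := S.πsurj
      exact := fun x => by
        rw [S.πker]
        constructor
        · rintro ⟨y, hy⟩
          exact ⟨y, Subtype.ext hy⟩
        · rintro ⟨y, hy⟩
          exact ⟨y, congrArg Subtype.val hy⟩
      i_l := fun a x => Subtype.ext (S.d2l a x)
      i_r := fun a x => Subtype.ext (S.d2r a x)
      p_l := fun a x => S.πl a x _ rfl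
      p_r := fun a x => S.πr a x _ rfl }
  -- 0 → K → P1 → I → 0
  have s2 : SES K p1 I (LinearMap.ker d1).subtype d1.rangeRestrict :=
    { inj := Subtype.val_injective
      surj := d1.surjective_rangeRestrict
      exact := fun x => by
        constructor
        · intro h
          exact ⟨⟨x, congrArg Subtype.val h⟩, rfl⟩
        · rintro ⟨y, rfl⟩
          exact Subtype.ext y.2
      i_l := fun a x => rfl
      i_r := fun a x => rfl
      p_l := fun a x => Subtype.ext (S.d1l a x)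
      p_r := fun a x => Subtype.ext (S.d1r a x) }
  -- 0 → I → J → Z'' → 0
  have hIJ : LinearMap.range d1 ≤ LinearMap.ker ρ := by
    rintro _ ⟨y, rfl⟩
    exact S.ρd y
  have s3 : SES I J z'' (Submodule.inclusion hIJ) σ :=
    { inj := Submodule.inclusion_injective hIJ
      surj := S.σsurj
      exact := fun x => by
        rw [S.σker]
        constructor
        · rintro ⟨y, hy⟩
          exact ⟨⟨d1 y, y, rfl⟩, Subtype.ext hy⟩
        · rintro ⟨⟨w, y, hy⟩, hw⟩
          exact ⟨y, hy.trans (congrArg Subtype.val hw)⟩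
      i_l := fun a x => Subtype.ext rfl
      i_r := fun a x => Subtype.ext rfl
      p_l := fun a x => S.σl a x _ rfl
      p_r := fun a x => S.σr a x _ rfl }
  -- 0 → J → P0 → Z → 0
  have s4 : SES J p0 z (LinearMap.ker ρ).subtype ρ :=
    { inj := Subtype.val_injective
      surj := S.ρsurj
      exact := fun x => by
        constructor
        · intro h
          exact ⟨⟨x, h⟩, rfl⟩
        · rintro ⟨y, rfl⟩
          exact y.2
      i_l := fun a x => rfl
      i_r := fun a x => rfl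
      p_l := S.ρl
      p_r := S.ρr }
  -- `h_0 K → h_0 P1` is injective
  have e1 : ∀ x' : LinearMap.ker d1, (LinearMap.ker d1).subtype x' ∈ LinearMap.range (d0 p1) →
      x' ∈ LinearMap.range (d0 K) := by
    intro x' hx'
    obtain ⟨t, ht⟩ := h' 0 (Nat.zero_le _) (π x')
    -- lift `t` to `K ⊗ A`
    obtain ⟨t', rfl⟩ := LinearMap.rTensor_surjective A S.πsurj t
    have h1 : π (x' - d0 K t') = 0 := by
      rw [map_sub, sub_eq_zero, ← ht]
      symm
      clear ht
      induction t' with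
      | zero => simp
      | tmul x a =>
        simp only [LinearMap.rTensor_tmul, d0_tmul, map_sub]
        rw [s1.p_l, s1.p_r]
      | add x y hx hy => rw [map_add, map_add, map_add, map_add, hx, hy]
    obtain ⟨y, hy⟩ := (S.πker _).1 h1
    have h2 : d2 y ∈ LinearMap.range (d0 p1) := by
      rw [hy]
      have h3 : ((d0 K t' : LinearMap.ker d1) : P1) ∈ LinearMap.range (d0 p1) :=
        map_range (u := (LinearMap.ker d1).subtype) s2.i_l s2.i_r ⟨t', rfl⟩
      exact Submodule.sub_mem _ hx' h3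
    have h4 := map_range s1.i_l s1.i_r (S.E2 y h2)
    have h5 : x' = (d2.codRestrict (LinearMap.ker d1) fun x => S.d12 x) y + d0 K t' := by
      apply Subtype.ext
      have : ((d2.codRestrict (LinearMap.ker d1) fun x => S.d12 x) y : P1) = d2 y := rfl
      rw [Submodule.coe_add, this, hy]
      simp
    rw [h5]
    exact Submodule.add_mem _ h4 ⟨t', rfl⟩
  -- `h_0 I → h_0 P0` is injective
  have e2 : ∀ x' : LinearMap.range d1, (x' : P0) ∈ LinearMap.range (d0 p0) →
      x' ∈ LinearMap.range (d0 I) := by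
    rintro ⟨_, y, rfl⟩ hx'
    obtain ⟨x, hx⟩ := S.E1 y hx'
    have h1 := map_range s2.p_l s2.p_r hx
    have h2 : d1.rangeRestrict (y - d2 x) = ⟨d1 y, y, rfl⟩ := by
      apply Subtype.ext
      show d1 (y - d2 x) = d1 y
      rw [map_sub, S.d12, sub_zero]
    rwa [h2] at h1
  -- `h_0 J → h_0 P0` is injective
  have e3 : ∀ x' : LinearMap.ker ρ, (LinearMap.ker ρ).subtype x' ∈ LinearMap.range (d0 p0) →
      x' ∈ LinearMap.range (d0 J) := by
    intro x' hx'
    obtain ⟨t, ht⟩ := h'' 0 (Nat.zero_le _) (σ x')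
    obtain ⟨t', rfl⟩ := LinearMap.rTensor_surjective A S.σsurj t
    have h1 : σ (x' - d0 J t') = 0 := by
      rw [map_sub, sub_eq_zero, ← ht]
      symm
      clear ht
      induction t' with
      | zero => simp
      | tmul x a =>
        simp only [LinearMap.rTensor_tmul, d0_tmul, map_sub]
        rw [s3.p_l, s3.p_r]
      | add x y hx hy => rw [map_add, map_add, map_add, map_add, hx, hy]
    obtain ⟨y, hy⟩ := (S.σker _).1 h1
    have h2 : d1 y ∈ LinearMap.range (d0 p0) := by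
      rw [hy]
      have h3 : ((d0 J t' : LinearMap.ker ρ) : P0) ∈ LinearMap.range (d0 p0) :=
        map_range (u := (LinearMap.ker ρ).subtype) s4.i_l s4.i_r ⟨t', rfl⟩
      exact Submodule.sub_mem _ hx' h3
    have h4 := map_range s3.i_l s3.i_r (e2 ⟨d1 y, y, rfl⟩ h2)
    have h5 : x' = Submodule.inclusion hIJ ⟨d1 y, y, rfl⟩ + d0 J t' := by
      apply Subtype.ext
      have : (Submodule.inclusion hIJ ⟨d1 y, y, rfl⟩ : P0) = d1 y := rfl
      rw [Submodule.coe_add, this, hy]
      simp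
    rw [h5]
    exact Submodule.add_mem _ h4 ⟨t', rfl⟩
  -- the homology of `K`, `I`, `J`
  have hK1 : ∀ j, 1 ≤ j → j ≤ n → Hv j K := by
    intro j hj hjn
    obtain ⟨j, rfl⟩ : ∃ j', j = j' + 1 := ⟨j - 1, by omega⟩
    exact L.L1 s1 (j + 1) (S.hv2 j) (h' (j + 1) hjn)
  have hI1 : ∀ j, 1 ≤ j → j ≤ n + 1 → Hv j I := by
    intro j hj hjn
    by_cases h1 : j = 1
    · rw [h1]
      exact L.L2z s2 (S.hv1 0) e1
    · obtain ⟨j, rfl⟩ : ∃ j', j = j' + 1 := ⟨j - 1, by omega⟩
      exact L.L2 s2 j (S.hv1 j) (hK1 j (by omega) (by omega))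
  have hJ1 : ∀ j, 1 ≤ j → j ≤ n → Hv j J := by
    intro j hj hjn
    exact L.L1 s3 j (hI1 j hj (by omega)) (h'' j hjn)
  intro j hj
  by_cases h0 : j = 0
  · rw [h0]; exact S.zero
  · by_cases h1 : j = 1
    · rw [h1]
      exact L.L2z s4 (S.hv0 0) e3
    · obtain ⟨j, rfl⟩ : ∃ j', j = j' + 1 := ⟨j - 1, by omega⟩
      exact L.L2 s4 j (S.hv0 j) (hJ1 j (by omega) (by omega))

end

end Run7.h921.Han
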