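import Pool.Agent.Run7.h921.Han.F1c

/-!
# Piece F1b of the project MP_92f1cb_al: the point at infinity
-/

set_option autoImplicit false
set_option linter.all false

namespace Run7.h921.Han.F1

open Polynomial Run7.h258.Han

variable {k : Type} [Field k] [CharZero k]

theorem le_m1 : le k ![1, 0, 0] (vx' k) = 1 := by
  simp only [le, vx', Algebra.smul_def]
  simp

theorem le_m2 : le k ![0, 1, 0] (vx' k) = ox' k := le_l1

theorem lc_ox'_ne : lc k 2 (ox' k) ≠ 0 := by rw [lc_ox']; norm_num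

/-- `L m 6 = L m 4 + x' L m 4` -/
theorem span6 {m : ℕ} {f : O k} (hf : f ∈ L k m 6) :
    ∃ a ∈ L k m 4, ∃ b ∈ L k m 4, f = 1 * a + ox' k * b := by
  obtain ⟨b1, hb1, h1⟩ := red_step (m' := m) (n := 4) ox'_mem_Lp lc_ox'_ne
    (fun g hg => L_mono (by omega) (by omega) (L_mul ox'_mem_L hg)) (by omega) (by omega)
    (r := 5) (by omega) hf
  obtain ⟨b2, hb2, h2⟩ := red_step (m' := m) (n := 3) ox'_mem_Lp lc_ox'_ne
    (fun g hg => L_mono (by omega) (by omega) (L_mul ox'_mem_L hg)) (by omega) (by omega)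
    (r := 4) (by omega) h1
  exact ⟨_, h2, b1 + b2, add_mem hb1 (L_mono le_rfl (by omega) hb2), by ring⟩

theorem Z1b_iff (i : Fin 3) (f : O k) :
    f ∈ Z1 k ![1, 0, 0] ![0, 1, 0] i 1 ↔ f ∈ L k (3 * (2 - (i : ℕ)) + 1) 2 := by
  rw [mem_Z1_iff, le_m1, le_m2]
  constructor
  · rintro ⟨ha, b, hb, hab⟩
    have ha' : f ∈ L k (3 * (2 - (i : ℕ)) + 1) 4 := ha
    have hb' : b ∈ L k (3 * (2 - (i : ℕ)) + 1) 4 := hb
    rw [one_mul] at hab
    refine ⟨ha'.1, mem_Lp_of_mul (f1 := ox' k) (a := 2) ox'_mem_Lp lc_ox'_ne ?_⟩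
    rw [← hab]
    exact hb'.2
  · intro hf
    have h1 : f ∈ L k (3 * (2 - (i : ℕ)) + 1) 4 := L_mono le_rfl (by omega) hf
    have h2 : ox' k * f ∈ L k (3 * (2 - (i : ℕ)) + 1) 4 :=
      L_mono (by omega) (by omega) (L_mul ox'_mem_L hf)
    exact ⟨h1, ox' k * f, h2, one_mul _⟩

/-- the functional on `M_i2` -/
noncomputable def thb (k : Type) [Field k] [CharZero k] (i : Fin 3) : Ms k i 2 →ₗ[k] k where
  toFun f := lc k 7 (f : O k)
  map_add' f g := by
    have h := lc_add (n := 7) f.2.2 g.2.2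
    rw [Submodule.coe_add, h]
  map_smul' c f := by
    have h := lc_smul (n := 7) c f.2.2
    rw [Submodule.coe_smul, h, RingHom.id_apply, smul_eq_mul]

theorem thb_apply (i : Fin 3) (f : Ms k i 2) : thb k i f = lc k 7 (f : O k) := rfl

/-- the functional on `Z1` -/
noncomputable def zeb (k : Type) [Field k] [CharZero k] (i : Fin 3) :
    Z1 k ![1, 0, 0] ![0, 1, 0] i 1 →ₗ[k] k where
  toFun f := lc k 2 (f : O k)
  map_add' f g := by
    have h := lc_add (n := 2) ((Z1b_iff i _).1 f.2).2 ((Z1b_iff i _).1 g.2).2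
    rw [Submodule.coe_add, h]
  map_smul' c f := by
    have h := lc_smul (n := 2) c ((Z1b_iff i _).1 f.2).2
    rw [Submodule.coe_smul, h, RingHom.id_apply, smul_eq_mul]

theorem zeb_apply (i : Fin 3) (f : Z1 k ![1, 0, 0] ![0, 1, 0] i 1) :
    zeb k i f = lc k 2 (f : O k) := rfl

/-- piece F1b -/
theorem F1b : Nonempty (F1D k ![0, 0, 1] ![1, 0, -1]) := by
  refine ⟨{
    l1 := ![1, 0, 0]
    l2 := ![0, 1, 0]
    l1_p := by simp [le]
    l2_p := by simp [le]
    indep := ?_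
    th := fun i => thb k i
    th_surj := ?_
    th_ker := ?_
    th_act := ?_
    ze := fun i => zeb k i
    ze_surj := ?_
    ze_ker := ?_
    ze_act := ?_ }⟩
  · intro a b hab
    have h3 := congrFun hab 0
    have h4 := congrFun hab 1
    simp at h3 h4
    exact ⟨h3, h4⟩
  · intro i c
    obtain ⟨f, hf, hlc⟩ := exists_lc (k := k) (m := 3 * (2 - (i : ℕ)) + 1) (n := 7) (by omega)
      (by omega) c
    exact ⟨⟨f, hf⟩, hlc⟩
  · intro i f
    rw [thb_apply, le_m1, le_m2]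
    have hf : (f : O k) ∈ L k (3 * (2 - (i : ℕ)) + 1) 7 := f.2
    constructor
    · intro h
      obtain ⟨a, ha, b, hb, hab⟩ := span6 (L_sub_one' hf h)
      exact ⟨a, ha, b, hb, hab⟩
    · rintro ⟨a, ha, b, hb, hab⟩
      have ha' : a ∈ L k (3 * (2 - (i : ℕ)) + 1) 4 := ha
      have hb' : b ∈ L k (3 * (2 - (i : ℕ)) + 1) 4 := hb
      have h3 : (f : O k) ∈ L k (3 * (2 - (i : ℕ)) + 1) 6 := by
        rw [hab, one_mul]
        exact add_mem (L_mono le_rfl (by omega) ha')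
          (L_mono (by omega) (by omega) (L_mul ox'_mem_L hb'))
      exact lc_eq_zero (m := 6) (by omega) h3.2
  · intro i i' hi s f hf h
    rw [thb_apply, thb_apply]
    have hf' : f ∈ L k (3 * (2 - (i' : ℕ)) + 1) 7 := hf
    have h1 := lc_mul (le_vx_mem_L s).2 hf'.2
    rw [lc_le_vx] at h1
    have e3 : le k s ![1, 0, -1] = s 0 - s 2 := by simp [le]; ring
    rw [e3]
    exact h1
  · intro i c
    obtain ⟨f, hf, hlc⟩ := exists_lc (k := k) (m := 3 * (2 - (i : ℕ)) + 1) (n := 2) (by omega)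
      (by omega) c
    exact ⟨⟨f, (Z1b_iff i f).2 hf⟩, hlc⟩
  · intro i f
    rw [zeb_apply, le_m1]
    have hf : (f : O k) ∈ L k (3 * (2 - (i : ℕ)) + 1) 2 := (Z1b_iff i _).1 f.2
    constructor
    · intro h
      exact ⟨_, L_sub_one' hf h, (one_mul _).symm⟩
    · rintro ⟨a, ha, hfa⟩
      have ha' : a ∈ L k (3 * (2 - (i : ℕ)) + 1) 1 := ha
      rw [hfa, one_mul]
      exact lc_eq_zero (m := 1) (by omega) ha'.2
  · intro i i' hi s f hf h
    rw [zeb_apply, zeb_apply]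
    have hf' : f ∈ L k (3 * (2 - (i' : ℕ)) + 1) 2 := (Z1b_iff i' _).1 hf
    have h1 := lc_mul (le_vx_mem_L s).2 hf'.2
    rw [lc_le_vx] at h1
    have e3 : le k s ![1, 0, -1] = s 0 - s 2 := by simp [le]; ring
    rw [e3]
    exact h1

/-- piece F1b for the curve -/
theorem F1b_point [DecidableEq k] :
    Nonempty (F1D k (Run7.h258.Han.vec k 0) (Run7.h258.Han.vec k (0 - Pz k))) := by
  have e1 : Run7.h258.Han.vec k 0 = ![0, 0, 1] := rfl
  have e2 : Run7.h258.Han.vec k (0 - Pz k) = ![1, 0, -1] := by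
    have h1 : (0 : (E k).Point) - Pz k = (pt 0 (-1) (by norm_num) : (E0 k).Point) := by
      rw [zero_sub]
      exact neg_P0
    rw [h1]; rfl
  rw [e1, e2]
  exact F1b

/-- all points of the curve -/
theorem F1_point [DecidableEq k] (p : (E k).Point) :
    Nonempty (F1D k (Run7.h258.Han.vec k p) (Run7.h258.Han.vec k (p - Pz k))) := by
  by_cases h0 : p = 0
  · rw [h0]; exact F1b_point
  · by_cases h1 : p = Pz k
    · rw [h1]; exact F1c_point
    · exact F1a_point p h0 h1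

end Run7.h921.Han.F1
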