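import Pool.Agent.Run7.h921.Han.ORD

/-!
# Piece GRP of the project MP_92f1cb_al: translations by `P0` in coordinates
-/

set_option autoImplicit false
set_option linter.all false

namespace Run7.h921.Han

open WeierstrassCurve WeierstrassCurve.Affine

section
variable {F : Type*} [Field F] [CharZero F] [DecidableEq F]

/-- (a) `p - P0` for an affine point `p ≠ P0` -/
theorem sub_P0' {p1 p2 : F} {h : p2 ^ 2 = p1 ^ 3 + p1 + 1} (t : F) (h1 : t * p1 = -(p2 + 1))
    (h2 : t * (p2 - 1) = -(p1 ^ 2 + 1)) :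
    ∃ h', pt p1 p2 h - P0 = pt (t ^ 2 - p1) (1 + t * (t ^ 2 - p1)) h' := by
  by_cases hp : p1 = 0
  · -- then `p = -P0`, `t = 1 / 2`
    subst hp
    have hp2 : p2 = -1 := by linear_combination h1
    subst hp2
    have ht : t = 1 / 2 := by
      have : (2 : F) ≠ 0 := two_ne_zero
      field_simp
      linear_combination -h2
    subst ht
    have e : pt (0 : F) (-1) h - P0 = -(P0 + P0) := by
      have : pt (0 : F) (-1) h = -P0 := by rw [neg_P0]
      rw [this]
      abel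
    obtain ⟨h', he⟩ := two_pt (F := F) (x := 0) (y := 1) (h := by norm_num) one_ne_zero
    have he' : (P0 : (E0 F).Point) + P0 = _ := he
    rw [e, he', neg_pt]
    refine ⟨by norm_num, ?_⟩
    rw [pt_inj]
    constructor
    · norm_num
    · norm_num
  · have ht : (p2 + 1) / p1 = -t := by
      rw [div_eq_iff hp]
      linear_combination h1
    obtain ⟨h', he⟩ := sub_P0 (h := h) hp
    have e1 : ((p2 + 1) / p1) ^ 2 - p1 = t ^ 2 - p1 := by rw [ht]; ring
    have e2 : 1 - (p2 + 1) / p1 * (((p2 + 1) / p1) ^ 2 - p1) = 1 + t * (t ^ 2 - p1) := by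
      rw [ht]; ring
    refine ⟨by rw [← e2, ← e1]; exact h', ?_⟩
    rw [he, pt_inj]
    exact ⟨e1, e2⟩

/-- (a) the parameter `t` exists for an affine point `p ≠ P0` -/
theorem exists_t {p1 p2 : F} {h : p2 ^ 2 = p1 ^ 3 + p1 + 1} (hp : pt p1 p2 h ≠ P0) :
    ∃ t : F, t * p1 = -(p2 + 1) ∧ t * (p2 - 1) = -(p1 ^ 2 + 1) := by
  by_cases hp1 : p1 = 0
  · rcases x_eq_zero (h := h) hp1 with h1 | h1
    · exact absurd h1 hp
    · rw [neg_P0, pt_inj] at h1
      obtain ⟨rfl, rfl⟩ := h1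
      exact ⟨1 / 2, by norm_num, by norm_num⟩
  · refine ⟨-(p2 + 1) / p1, ?_, ?_⟩
    · field_simp
    · field_simp
      linear_combination -h

/-- (b) -/
theorem zero_sub_P0 : (0 : (E0 F).Point) - P0 = pt 0 (-1) (by norm_num) := by
  rw [zero_sub, neg_P0]

theorem P0_sub_P0 : (P0 : (E0 F).Point) - P0 = 0 := sub_self _

/-- (c) the curve `x0 ^ 2 = t ^ 2 * x0 - 1 + 2 * t` -/
theorem eqn0 {t x0 : F} (h : x0 ^ 2 = t ^ 2 * x0 - 1 + 2 * t) :
    (1 + t * x0) ^ 2 = x0 ^ 3 + x0 + 1 := by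
  linear_combination -x0 * h

theorem eqn1 {t x0 : F} (h : x0 ^ 2 = t ^ 2 * x0 - 1 + 2 * t) :
    (-1 - t * (t ^ 2 - x0)) ^ 2 = (t ^ 2 - x0) ^ 3 + (t ^ 2 - x0) + 1 := by
  linear_combination (x0 - t ^ 2) * h

theorem add_P0' {t x0 : F} (h : x0 ^ 2 = t ^ 2 * x0 - 1 + 2 * t) :
    pt (t ^ 2 - x0) (-1 - t * (t ^ 2 - x0)) (eqn1 h) = pt x0 (1 + t * x0) (eqn0 h) + P0 := by
  by_cases hx : x0 = 0
  · subst hx
    have ht : t = 1 / 2 := by
      have : (2 : F) ≠ 0 := two_ne_zero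
      field_simp
      linear_combination -h
    subst ht
    obtain ⟨h', he⟩ := two_pt (F := F) (x := 0) (y := 1) (h := by norm_num) one_ne_zero
    have he' : (P0 : (E0 F).Point) + P0 = _ := he
    have e0 : pt (0 : F) (1 + 1 / 2 * 0) (eqn0 h) = P0 := by
      unfold P0
      rw [pt_inj]
      exact ⟨rfl, by norm_num⟩
    rw [e0, he', pt_inj]
    constructor
    · norm_num
    · norm_num
  · obtain ⟨h', he⟩ := add_P0 (h := eqn0 h) hx
    have ht : (1 + t * x0 - 1) / x0 = t := by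
      field_simp
      ring
    rw [he, pt_inj, ht]
    exact ⟨rfl, rfl⟩

/-- the homogeneous coordinates -/
def vec : (E0 F).Point → Fin 3 → F
  | .zero => ![0, 0, 1]
  | .some x y _ => ![1, x, y]

@[simp] theorem vec_zero : vec (0 : (E0 F).Point) = ![0, 0, 1] := rfl

@[simp] theorem vec_pt {x y : F} (h : y ^ 2 = x ^ 3 + x + 1) : vec (pt x y h) = ![1, x, y] := rfl

/-- (d) -/
theorem vec_inj {p q : (E0 F).Point} (c : F) (h : ∀ i, vec p i = c * vec q i) : p = q := by
  have h0 := h 0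
  have h1 := h 1
  have h2 := h 2
  rcases cases_pt p with rfl | ⟨x, y, hp, rfl⟩
  · rcases cases_pt q with rfl | ⟨x', y', hq, rfl⟩
    · rfl
    · simp at h0 h1 h2
      rw [← h0] at h2
      simp at h2
  · rcases cases_pt q with rfl | ⟨x', y', hq, rfl⟩
    · simp at h0
    · simp at h0 h1 h2
      rw [← h0] at h1 h2
      rw [pt_inj]
      exact ⟨by rw [h1, one_mul], by rw [h2, one_mul]⟩

theorem vec_ne {p q : (E0 F).Point} (hpq : p ≠ q) (c : F) : ∃ i, vec p i ≠ c * vec q i := by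
  by_contra h
  push Not at h
  exact hpq (vec_inj c h)

/-- (e) -/
theorem add_ne (q : (E0 F).Point) (j : ℤ) (hj : j ≠ 0) : q + j • P0 ≠ q := by
  intro h
  exact ORDz j hj (by simpa using h)

end

end Run7.h921.Han
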