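import Pool.Agent.Run7.h921.Han.IND

/-!
# Piece BRES of the project MP_92f1cb_al, abstract form

`A` with orthogonal idempotents `e 0, e 1, e 2` of sum `1` and a multiplicative map `π : A → A` such
that `e i * π b * e j = 0` for `j < i` and `e j * π b * e j = χ j b • e j`. Then the bimodule `U = A`
with left multiplication and `x * b := x * π b` has vanishing homology in positive degrees.
If `A = π A ⊕ M`, where `M = ker π`, `M * M = 0`, and `Hv n M` for all `n`, then `Hv (n + 1) A`.
-/

set_option autoImplicit false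
set_option linter.all false

open scoped TensorProduct

namespace Run7.h921.Han
open Run7.h817.Han

section

variable {k A : Type} [Field k] [Ring A] [Algebra k A]

/-- vanishing for products with a principal left module (piece HOM) -/
def TEN (k A : Type) [Field k] [Ring A] [Algebra k A] : Prop :=
  ∀ {X Y : Type} [AddCommGroup X] [Module k X] [AddCommGroup Y] [Module k Y]
    (lX : LAct k A X) (rY : RAct k A Y), Principal lX → ∀ n, Hv (n + 1) (ten lX rY)

theorem hv_subsingleton (n : ℕ) : ∀ {X : Type} [AddCommGroup X] [Module k X] [Subsingleton X]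
    (β : BiAct k A X), Hv n β := by
  induction n using Nat.strong_induction_on with
  | _ n ih =>
    intro X _ _ _ β
    match n, ih with
    | 0, _ => exact fun x => ⟨0, Subsingleton.elim _ _⟩
    | 1, _ =>
      intro z _
      have : Subsingleton (X ⊗[k] A) := by
        refine ⟨fun a b => ?_⟩
        have : ∀ z : X ⊗[k] A, z = 0 := by
          intro z
          induction z with
          | zero => rfl
          | tmul x a => rw [Subsingleton.elim x 0, TensorProduct.zero_tmul]
          | add x y hx hy => rw [hx, hy, add_zero]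
        rw [this a, this b]
      exact ⟨0, Subsingleton.elim _ _⟩
    | n + 2, ih =>
      have : Subsingleton (X ⊗[k] A) := by
        refine ⟨fun a b => ?_⟩
        have : ∀ z : X ⊗[k] A, z = 0 := by
          intro z
          induction z with
          | zero => rfl
          | tmul x a => rw [Subsingleton.elim x 0, TensorProduct.zero_tmul]
          | add x y hx hy => rw [hx, hy, add_zero]
        rw [this a, this b]
      exact ih (n + 1) (by omega) (tw β)

/-- the zero bimodule -/
noncomputable def zeroAct (k A : Type) [Field k] [Ring A] [Algebra k A] : BiAct k A PUnit.{1} where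
  l := 0
  r := 0
  l_mul a b x := rfl
  r_mul a b x := rfl
  comm a b x := rfl

/-- isomorphic bimodules -/
theorem hv_of_equiv (L : LES k A) {X Y : Type} [AddCommGroup X] [Module k X] [AddCommGroup Y]
    [Module k Y] {β : BiAct k A X} {γ : BiAct k A Y} (u : X ≃ₗ[k] Y)
    (hl : ∀ a x, u (β.l a x) = γ.l a (u x)) (hr : ∀ a x, u (β.r a x) = γ.r a (u x)) (n : ℕ)
    (h : Hv n β) : Hv n γ := by
  have s : SES β γ (zeroAct k A) u.toLinearMap (0 : Y →ₗ[k] PUnit.{1}) :=
    { inj := u.injective
      surj := fun y => ⟨0, rfl⟩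
      exact := fun x => ⟨fun _ => u.surjective x, fun _ => rfl⟩
      i_l := hl
      i_r := hr
      p_l := fun a x => rfl
      p_r := fun a x => rfl }
  exact L.L1 s n h (hv_subsingleton n _)

/-- the space `A e` -/
def Xe (k : Type) {A : Type} [Field k] [Ring A] [Algebra k A] (e : A) : Submodule k A where
  carrier := {x | x * e = x}
  add_mem' := by
    intro x y hx hy
    show (x + y) * e = x + y
    rw [add_mul, show x * e = x from hx, show y * e = y from hy]
  zero_mem' := zero_mul e
  smul_mem' := by
    intro c x hx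
    show (c • x) * e = c • x
    rw [smul_mul_assoc, show x * e = x from hx]

theorem mem_Xe {e x : A} : x ∈ Xe k e ↔ x * e = x := Iff.rfl

/-- `A e` with the right action through a character -/
noncomputable def chiAct (e : A) (χ : A →ₗ[k] k) (hχ : ∀ a b, χ (a * b) = χ a * χ b) :
    BiAct k A (Xe k e) where
  l :=
    { toFun := fun a => (LinearMap.mulLeft k a).restrict (p := Xe k e) (q := Xe k e)
        (fun x hx => by
          rw [mem_Xe] at hx ⊢
          rw [LinearMap.mulLeft_apply, mul_assoc, hx])
      map_add' := fun a b => by ext x; simp [LinearMap.restrict_apply, add_mul]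
      map_smul' := fun c a => by ext x; simp [LinearMap.restrict_apply] }
  r := (LinearMap.lsmul k (Xe k e)) ∘ₗ χ
  l_mul a b x := by ext; simp [LinearMap.restrict_apply, mul_assoc]
  r_mul a b x := by
    simp only [LinearMap.comp_apply, hχ]
    show (χ a * χ b) • x = χ b • (χ a • x)
    rw [smul_smul, mul_comm]
  comm a b x := by
    ext
    simp [LinearMap.restrict_apply]

@[simp] theorem chiAct_l (e : A) (χ : A →ₗ[k] k) (hχ : ∀ a b, χ (a * b) = χ a * χ b) (a : A)
    (x : Xe k e) : (((chiAct e χ hχ).l a x : Xe k e) : A) = a * x := rfl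

@[simp] theorem chiAct_r (e : A) (χ : A →ₗ[k] k) (hχ : ∀ a b, χ (a * b) = χ a * χ b) (a : A)
    (x : Xe k e) : (chiAct e χ hχ).r a x = χ a • x := rfl

theorem hv_chi (L : LES k A) (T : TEN k A) (e : A) (he : e * e = e) (χ : A →ₗ[k] k)
    (hχ : ∀ a b, χ (a * b) = χ a * χ b) (n : ℕ) : Hv (n + 1) (chiAct e χ hχ) := by
  let lX : LAct k A (Xe k e) := ⟨(chiAct e χ hχ).l, (chiAct e χ hχ).l_mul⟩
  let rY : RAct k A k := ⟨(LinearMap.lsmul k k) ∘ₗ χ, fun a b x => by
    simp only [LinearMap.comp_apply, hχ]
    show (χ a * χ b) • x = χ b • (χ a • x)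
    rw [smul_smul, mul_comm]⟩
  have hP : Principal lX := by
    refine ⟨⟨e, he⟩, (Xe k e).subtype, fun a x => rfl, fun x => ?_⟩
    apply Subtype.ext
    exact x.2
  have h := T lX rY hP n
  refine hv_of_equiv L (TensorProduct.rid k (Xe k e)) ?_ ?_ (n + 1) h
  · intro a x
    induction x with
    | zero => simp
    | tmul x c =>
      have : (ten lX rY).l a (x ⊗ₜ c) = (lX.l a x) ⊗ₜ c := by simp [ten]
      rw [this, TensorProduct.rid_tmul, TensorProduct.rid_tmul, map_smul]
    | add x y hx hy => rw [map_add, map_add, map_add, map_add, hx, hy]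
  · intro a x
    induction x with
    | zero => simp
    | tmul x c =>
      have : (ten lX rY).r a (x ⊗ₜ c) = x ⊗ₜ (rY.r a c) := by simp [ten]
      rw [this, TensorProduct.rid_tmul, TensorProduct.rid_tmul, chiAct_r]
      show (χ a • c) • x = χ a • c • x
      rw [smul_assoc]
    | add x y hx hy => rw [map_add, map_add, map_add, map_add, hx, hy]

/-- the data of `A → B`: idempotents and a triangular multiplicative map -/
structure Tri (e : Fin 3 → A) (π : A →ₗ[k] A) (χ : Fin 3 → A →ₗ[k] k) : Prop where
  mul : ∀ a b, π (a * b) = π a * π b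
  χmul : ∀ j a b, χ j (a * b) = χ j a * χ j b
  idem : ∀ i, e i * e i = e i
  orth : ∀ i j, i ≠ j → e i * e j = 0
  one : e 0 + e 1 + e 2 = 1
  tri : ∀ i j b, j < i → e i * π b * e j = 0
  diag : ∀ j b, e j * π b * e j = χ j b • e j

/-- the bimodule `A` with the right action through `π` -/
noncomputable def Uact (π : A →ₗ[k] A) (hπ : ∀ a b, π (a * b) = π a * π b) : BiAct k A A where
  l := LinearMap.mul k A
  r := (LinearMap.mul k A).flip ∘ₗ π
  l_mul a b x := by simp [mul_assoc]
  r_mul a b x := by simp [mul_assoc, hπ]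
  comm a b x := by simp [mul_assoc]

@[simp] theorem Uact_l (π : A →ₗ[k] A) (hπ : ∀ a b, π (a * b) = π a * π b) (a x : A) :
    (Uact π hπ).l a x = a * x := rfl

@[simp] theorem Uact_r (π : A →ₗ[k] A) (hπ : ∀ a b, π (a * b) = π a * π b) (a x : A) :
    (Uact π hπ).r a x = x * π a := rfl

variable {e : Fin 3 → A} {π : A →ₗ[k] A} {χ : Fin 3 → A →ₗ[k] k}

theorem Tri.r0 (H : Tri e π χ) (x b : A) : x * π b * e 0 = χ 0 b • (x * e 0) := by
  have h1 : x * π b * e 0 = x * e 0 * π b * e 0 + x * (e 1 * π b * e 0) + x * (e 2 * π b * e 0) := by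
    have : x = x * e 0 + x * e 1 + x * e 2 := by rw [← mul_add, ← mul_add, H.one, mul_one]
    calc x * π b * e 0 = (x * e 0 + x * e 1 + x * e 2) * π b * e 0 := by rw [← this]
      _ = _ := by noncomm_ring
  rw [h1, H.tri 1 0 b (by decide), H.tri 2 0 b (by decide), mul_zero, add_zero, add_zero,
    mul_assoc, mul_assoc, ← mul_assoc (e 0), H.diag, mul_smul_comm]

theorem Tri.r1 (H : Tri e π χ) (x b : A) (hx : x * e 0 = 0) :
    x * π b * e 1 = χ 1 b • (x * e 1) := by
  have h1 : x * π b * e 1 = x * e 0 * π b * e 1 + x * (e 1 * π b * e 1) + x * (e 2 * π b * e 1) := by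
    have : x = x * e 0 + x * e 1 + x * e 2 := by rw [← mul_add, ← mul_add, H.one, mul_one]
    calc x * π b * e 1 = (x * e 0 + x * e 1 + x * e 2) * π b * e 1 := by rw [← this]
      _ = _ := by noncomm_ring
  rw [h1, hx, H.tri 2 1 b (by decide), H.diag, mul_zero, add_zero, zero_mul, zero_mul, zero_add,
    mul_smul_comm]

theorem Tri.r2 (H : Tri e π χ) (x b : A) (hx0 : x * e 0 = 0) (hx1 : x * e 1 = 0) :
    x * π b = χ 2 b • x := by
  have hx : x * e 2 = x := by
    have : x = x * e 0 + x * e 1 + x * e 2 := by rw [← mul_add, ← mul_add, H.one, mul_one]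
    rw [hx0, hx1, zero_add, zero_add] at this
    exact this.symm
  have h1 : x * π b = x * π b * e 0 + x * π b * e 1 + x * π b * e 2 := by
    rw [← mul_add, ← mul_add, H.one, mul_one]
  have h3 : x * π b * e 2 = χ 2 b • x := by
    calc x * π b * e 2 = x * e 2 * π b * e 2 := by rw [hx]
      _ = x * (e 2 * π b * e 2) := by noncomm_ring
      _ = χ 2 b • x := by rw [H.diag, mul_smul_comm, hx]
  rw [h1, H.r0, H.r1 x b hx0, hx0, hx1, smul_zero, smul_zero, zero_add, zero_add, h3]

/-- BRES, first part: the homology of `U` -/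
theorem hv_U (L : LES k A) (T : TEN k A) (H : Tri e π χ) (n : ℕ) : Hv (n + 1) (Uact π H.mul) := by
  -- the filtration
  let F1 : Submodule k A := LinearMap.ker (LinearMap.mulRight k (e 0))
  have mF1 : ∀ x, x ∈ F1 ↔ x * e 0 = 0 := fun x => Iff.rfl
  have hl1 : ∀ a x, x ∈ F1 → (Uact π H.mul).l a x ∈ F1 := by
    intro a x hx
    rw [mF1] at hx ⊢
    rw [Uact_l, mul_assoc, hx, mul_zero]
  have hr1 : ∀ a x, x ∈ F1 → (Uact π H.mul).r a x ∈ F1 := by
    intro a x hx
    rw [mF1] at hx ⊢
    rw [Uact_r, H.r0, hx, smul_zero]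
  let β1 := subAct (Uact π H.mul) F1 hl1 hr1
  have o10 : e 1 * e 0 = 0 := H.orth 1 0 (by decide)
  have o20 : e 2 * e 0 = 0 := H.orth 2 0 (by decide)
  have o21 : e 2 * e 1 = 0 := H.orth 2 1 (by decide)
  -- 0 → F1 → U → A e0 → 0
  have s1 : SES β1 (Uact π H.mul) (chiAct (e 0) (χ 0) (H.χmul 0)) F1.subtype
      ((LinearMap.mulRight k (e 0)).codRestrict (Xe k (e 0)) fun x => by
        rw [mem_Xe, LinearMap.mulRight_apply, mul_assoc, H.idem]) :=
    { inj := Subtype.val_injective
      surj := fun y => ⟨y, Subtype.ext y.2⟩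
      exact := fun x => by
        constructor
        · intro h
          exact ⟨⟨x, congrArg Subtype.val h⟩, rfl⟩
        · rintro ⟨y, rfl⟩
          exact Subtype.ext y.2
      i_l := fun a x => rfl
      i_r := fun a x => rfl
      p_l := fun a x => Subtype.ext (mul_assoc _ _ _)
      p_r := fun a x => Subtype.ext (H.r0 x a) }
  -- 0 → A e2 → F1 → A e1 → 0
  have hX2 : ∀ x, x * e 0 = 0 → x * e 1 = 0 → x * e 2 = x := by
    intro x hx0 hx1
    have : x = x * e 0 + x * e 1 + x * e 2 := by rw [← mul_add, ← mul_add, H.one, mul_one]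
    rw [hx0, hx1, zero_add, zero_add] at this
    exact this.symm
  have hX20 : ∀ x, x * e 2 = x → x * e 0 = 0 := by
    intro x hx
    rw [← hx, mul_assoc, o20, mul_zero]
  have hX21 : ∀ x, x * e 2 = x → x * e 1 = 0 := by
    intro x hx
    rw [← hx, mul_assoc, o21, mul_zero]
  have s2 : SES (chiAct (e 2) (χ 2) (H.χmul 2)) β1 (chiAct (e 1) (χ 1) (H.χmul 1))
      (Submodule.inclusion (show Xe k (e 2) ≤ F1 from fun x hx => hX20 x hx))
      (((LinearMap.mulRight k (e 1)).codRestrict (Xe k (e 1)) fun x => by
        rw [mem_Xe, LinearMap.mulRight_apply, mul_assoc, H.idem]) ∘ₗ F1.subtype) :=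
    { inj := Submodule.inclusion_injective _
      surj := fun y => by
        refine ⟨⟨y, ?_⟩, Subtype.ext y.2⟩
        have hy : (y : A) * e 1 = y := y.2
        rw [mF1, ← hy, mul_assoc, o10, mul_zero]
      exact := fun x => by
        constructor
        · intro h
          have h' : (x : A) * e 1 = 0 := congrArg Subtype.val h
          exact ⟨⟨x, hX2 x x.2 h'⟩, Subtype.ext rfl⟩
        · rintro ⟨y, rfl⟩
          exact Subtype.ext (hX21 y y.2)
      i_l := fun a x => Subtype.ext rfl
      i_r := fun a x => Subtype.ext (H.r2 x a (hX20 x x.2) (hX21 x x.2)).symm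
      p_l := fun a x => Subtype.ext (mul_assoc _ _ _)
      p_r := fun a x => Subtype.ext (H.r1 x a x.2) }
  have h2 := L.L1 s2 (n + 1) (hv_chi L T (e 2) (H.idem 2) (χ 2) (H.χmul 2) n)
    (hv_chi L T (e 1) (H.idem 1) (χ 1) (H.χmul 1) n)
  exact L.L1 s1 (n + 1) h2 (hv_chi L T (e 0) (H.idem 0) (χ 0) (H.χmul 0) n)

/-- BRES, second part: `Hv (n + 1) A` from `Hv n M`; `M = ker π`, `M * M = 0`, `π ∘ π = π`;
`μ` is `M` with multiplication in `A` on both sides. -/
theorem hv_self (L : LES k A) (T : TEN k A) (H : Tri e π χ) (hππ : ∀ a, π (π a) = π a)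
    (hM : ∀ x y, π x = 0 → π y = 0 → x * y = 0)
    (hl : ∀ a x, x ∈ LinearMap.ker π → (self k A).l a x ∈ LinearMap.ker π)
    (hr : ∀ a x, x ∈ LinearMap.ker π → (self k A).r a x ∈ LinearMap.ker π)
    (hv : ∀ n, Hv n (subAct (self k A) (LinearMap.ker π) hl hr)) (n : ℕ) :
    Hv (n + 1) (self k A) := by
  -- `B = range π` with both actions through `π`
  let B : Submodule k A := LinearMap.range π
  have hB : ∀ x, x ∈ B ↔ π x = x := fun x => ⟨by rintro ⟨y, rfl⟩; exact hππ y, fun h => ⟨x, h⟩⟩
  let β : BiAct k A B :=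
    { l :=
        { toFun := fun a => (LinearMap.mulLeft k (π a)).restrict (p := B) (q := B)
            (fun x hx => by
              rw [hB] at hx ⊢
              rw [LinearMap.mulLeft_apply, H.mul, hππ, hx])
          map_add' := fun a b => by ext x; simp [LinearMap.restrict_apply, add_mul]
          map_smul' := fun c a => by ext x; simp [LinearMap.restrict_apply] }
      r :=
        { toFun := fun a => (LinearMap.mulRight k (π a)).restrict (p := B) (q := B)
            (fun x hx => by
              rw [hB] at hx ⊢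
              rw [LinearMap.mulRight_apply, H.mul, hππ, hx])
          map_add' := fun a b => by ext x; simp [LinearMap.restrict_apply, mul_add]
          map_smul' := fun c a => by ext x; simp [LinearMap.restrict_apply] }
      l_mul := fun a b x => by ext; simp [LinearMap.restrict_apply, H.mul, mul_assoc]
      r_mul := fun a b x => by ext; simp [LinearMap.restrict_apply, H.mul, mul_assoc]
      comm := fun a b x => by ext; simp [LinearMap.restrict_apply, mul_assoc] }
  let μ := subAct (self k A) (LinearMap.ker π) hl hr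
  have sl : ∀ a x, (self k A).l a x = a * x := fun a x => rfl
  have sr : ∀ a x, (self k A).r a x = x * a := fun a x => rfl
  -- 0 → M → A → B → 0
  have s1 : SES μ (self k A) β (LinearMap.ker π).subtype π.rangeRestrict :=
    { inj := Subtype.val_injective
      surj := π.surjective_rangeRestrict
      exact := fun x => by
        constructor
        · intro h
          exact ⟨⟨x, congrArg Subtype.val h⟩, rfl⟩
        · rintro ⟨y, rfl⟩
          exact Subtype.ext y.2
      i_l := fun a x => rfl
      i_r := fun a x => rfl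
      p_l := fun a x => Subtype.ext (H.mul a x)
      p_r := fun a x => Subtype.ext (H.mul x a) }
  -- 0 → M → U → B → 0
  have s2 : SES μ (Uact π H.mul) β (LinearMap.ker π).subtype π.rangeRestrict :=
    { inj := Subtype.val_injective
      surj := π.surjective_rangeRestrict
      exact := s1.exact
      i_l := fun a x => rfl
      i_r := fun a x => by
        show (x : A) * a = x * π a
        have h1 : (x : A) * (a - π a) = 0 :=
          hM _ _ x.2 (by rw [map_sub, hππ, sub_self])
        rw [mul_sub, sub_eq_zero] at h1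
        exact h1
      p_l := fun a x => Subtype.ext (H.mul a x)
      p_r := fun a x => Subtype.ext (by
        show π (x * π a) = π x * π a
        rw [H.mul, hππ]) }
  have h2 : Hv (n + 1) β := L.L2 s2 n (hv_U L T H n) (hv n)
  exact L.L1 s1 (n + 1) (hv (n + 1)) h2

end

end Run7.h921.Han
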