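import Pool.Agent.Run7.h258.Han.Iface
import Pool.Agent.Run7.h921.Han.BRES
import Pool.Agent.Run7.h975.Han.Hom3

/-!
# Piece BRESc of the project MP_92f1cb_al: from the homology of `M` to the homology of `A`
-/

set_option autoImplicit false
set_option linter.all false

open scoped TensorProduct

namespace Run7.h921.Han
open Run7.h817.Han Run7.h975.Han

section

variable {k : Type} [Field k]

open Run7.h258.Han (A B ee mnAct MN mnAct_l mnAct_r)

/-- the projection `A → B` as a map `A → A` -/
noncomputable def piA (k : Type) [Field k] : A k →ₗ[k] A k where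
  toFun a := A.ofB (A.bb a)
  map_add' a b := by
    apply A.ext
    · simp [A.ofB]
    · simp [A.ofB]
  map_smul' c a := by
    apply A.ext
    · simp [A.ofB]
    · simp [A.ofB]

@[simp] theorem bb_piA (a : A k) : A.bb (piA k a) = A.bb a := rfl
@[simp] theorem mm_piA (a : A k) : A.mm (piA k a) = 0 := rfl

/-- the diagonal characters -/
noncomputable def chA (k : Type) [Field k] (j : Fin 3) : A k →ₗ[k] k :=
  (LinearMap.proj j) ∘ₗ B.a ∘ₗ A.bb

theorem chA_apply (j : Fin 3) (a : A k) : chA k j a = B.a (A.bb a) j := rfl

@[simp] theorem bb_ee (j : Fin 3) : A.bb (ee k j) = B.mk (Pi.single j 1) 0 0 0 := rfl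
@[simp] theorem mm_ee (j : Fin 3) : A.mm (ee k j) = 0 := rfl

theorem piA_mul (a b : A k) : piA k (a * b) = piA k a * piA k b := by
  apply A.ext
  · simp
  · simp

theorem triA : Tri (ee k) (piA k) (chA k) where
  mul := piA_mul
  χmul := fun j a b => rfl
  idem := fun i => by
    apply A.ext
    · apply B.ext
      · funext x
        fin_cases i <;> fin_cases x <;> simp
      · funext x
        fin_cases i <;> simp
      · funext x
        fin_cases i <;> simp
      · simp [B.sm_zero_left]
    · simp
  orth := fun i j hij => by
    apply A.ext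
    · apply B.ext
      · funext x
        fin_cases i <;> fin_cases j <;> fin_cases x <;> simp at hij ⊢
      · funext x
        fin_cases i <;> simp
      · funext x
        fin_cases i <;> simp
      · simp [B.sm_zero_left]
    · simp
  one := by
    apply A.ext
    · apply B.ext
      · funext x
        fin_cases x <;> simp
      · simp
      · simp
      · simp
    · simp
  tri := fun i j b hij => by
    apply A.ext
    · apply B.ext
      · funext x
        fin_cases i <;> fin_cases j <;> fin_cases x <;> simp at hij ⊢
      · funext x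
        fin_cases i <;> fin_cases j <;> simp at hij ⊢
      · funext x
        fin_cases i <;> fin_cases j <;> simp at hij ⊢
      · fin_cases i <;> fin_cases j <;> simp [B.sm_zero_left, B.sm_zero_right] at hij ⊢
    · simp
  diag := fun j b => by
    apply A.ext
    · apply B.ext
      · funext x
        fin_cases j <;> fin_cases x <;> simp [chA_apply]
      · funext x
        fin_cases j <;> simp
      · funext x
        fin_cases j <;> simp
      · fin_cases j <;> simp [B.sm_zero_left, B.sm_zero_right]
    · simp

theorem mem_ker_piA {a : A k} : a ∈ LinearMap.ker (piA k) ↔ A.bb a = 0 := by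
  rw [LinearMap.mem_ker]
  constructor
  · intro h
    have := congrArg A.bb h
    simpa using this
  · intro h
    apply A.ext
    · simpa using h
    · simp

/-- `M` as the kernel of the projection -/
noncomputable def kerEquiv (k : Type) [Field k] : MN k 0 ≃ₗ[k] LinearMap.ker (piA k) where
  toFun m := ⟨A.mk 0 m.1 m.2, mem_ker_piA.2 rfl⟩
  map_add' m n := by
    apply Subtype.ext
    apply A.ext
    · simp
    · simp
  map_smul' c m := by
    apply Subtype.ext
    apply A.ext
    · simp
    · simp
  invFun a := ⟨A.mm a.1, A.mm_mem a.1⟩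
  left_inv m := rfl
  right_inv a := by
    apply Subtype.ext
    apply A.ext
    · exact (mem_ker_piA.1 a.2).symm
    · simp

/-- piece BRESc -/
theorem BRESc (hM : ∀ n, Hv n (mnAct k 0)) (n : ℕ) : Hv (n + 1) (self k (A k)) := by
  have hl : ∀ a x, x ∈ LinearMap.ker (piA k) → (self k (A k)).l a x ∈ LinearMap.ker (piA k) := by
    intro a x hx
    rw [mem_ker_piA] at hx ⊢
    show A.bb (a * x) = 0
    rw [A.bb_mul, hx, mul_zero]
  have hr : ∀ a x, x ∈ LinearMap.ker (piA k) → (self k (A k)).r a x ∈ LinearMap.ker (piA k) := by
    intro a x hx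
    rw [mem_ker_piA] at hx ⊢
    show A.bb (x * a) = 0
    rw [A.bb_mul, hx, zero_mul]
  refine hv_self les ten_van triA (fun a => ?_) (fun x y hx hy => ?_) hl hr (fun n => ?_) n
  · apply A.ext <;> simp
  · have hx' : A.bb x = 0 := mem_ker_piA.1 hx
    have hy' : A.bb y = 0 := mem_ker_piA.1 hy
    apply A.ext
    · rw [A.bb_mul, hx', zero_mul, map_zero]
    · rw [A.mm_mul, hx', hy', map_zero, map_zero, zero_mul, mul_zero, add_zero, map_zero]
  · refine hv_of_equiv les (kerEquiv k) ?_ ?_ n (hM n)
    · intro a m
      apply Subtype.ext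
      apply A.ext
      · show (0 : B k) = A.bb (a * A.mk 0 m.1 m.2)
        simp
      · show ((mnAct k 0).l a m : Matrix (Fin 3) (Fin 3) _) = A.mm (a * A.mk 0 m.1 m.2)
        rw [mnAct_l]
        simp
    · intro a m
      apply Subtype.ext
      apply A.ext
      · show (0 : B k) = A.bb (A.mk 0 m.1 m.2 * a)
        simp
      · show ((mnAct k 0).r a m : Matrix (Fin 3) (Fin 3) _) = A.mm (A.mk 0 m.1 m.2 * a)
        rw [mnAct_r]
        simp

end

end Run7.h921.Han
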