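import Pool.Agent.Run7.h258.Han.OL
import Pool.Agent.Run7.h921.Han.GRP

/-!
# Piece F1a of the project MP_92f1cb_al: the Koszul complex of two lines through an affine point
`p ≠ P0` acting on `M`.
-/

set_option autoImplicit false
set_option linter.all false

namespace Run7.h921.Han.F1

open Polynomial Run7.h258.Han

variable {k : Type} [Field k] [CharZero k]

/-! ### Multiplication by a function with a triple pole at `-P` and a unit at infinity -/

theorem Lp_down {f1 g : O k} {a : ℕ} (h : f1 ∈ Lp k a) (h3 : lc k a f1 ≠ 0) {n : ℕ} (d : ℕ)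
    (hg : g ∈ Lp k (n + d)) (hfg : f1 * g ∈ Lp k (a + n)) : g ∈ Lp k n := by
  induction d with
  | zero => exact hg
  | succ d ih =>
    refine ih ?_
    have hg' : g ∈ Lp k (n + d + 1) := hg
    rw [← lc_eq_zero_iff hg']
    have h1 := lc_mul h hg'
    have h2 : f1 * g ∈ Lp k (a + (n + d)) := Lp_mono (by omega) hfg
    have h4 : lc k (a + (n + d) + 1) (f1 * g) = 0 :=
      (lc_eq_zero_iff (Lp_mono (by omega) h2)).2 h2
    have e : a + (n + d + 1) = a + (n + d) + 1 := by omega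
    rw [e, h4] at h1
    exact (mul_eq_zero.1 h1.symm).resolve_left h3

theorem exists_Lp (g : O k) : ∃ N, ∀ n, N ≤ n → g ∈ Lp k n := by
  obtain ⟨N, hN⟩ := exists_mem_L g
  exact ⟨N, fun n hn => (hN n n hn hn).2⟩

theorem mem_Lp_of_mul {f1 g : O k} {a : ℕ} (h : f1 ∈ Lp k a) (h3 : lc k a f1 ≠ 0) {n : ℕ}
    (hfg : f1 * g ∈ Lp k (a + n)) : g ∈ Lp k n := by
  obtain ⟨N, hN⟩ := exists_Lp g
  exact Lp_down h h3 N (hN _ (by omega)) hfg

theorem mem_L_of_mul {f1 g : O k} (h : f1 ∈ L k 0 3) (h0 : lcI 0 f1 ≠ 0) (h3 : lc k 3 f1 ≠ 0)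
    {m n : ℕ} (hfg : f1 * g ∈ L k m (n + 3)) : g ∈ L k m n := by
  rw [mem_L_iff] at hfg ⊢
  refine ⟨?_, ?_⟩
  · rw [map_mul] at hfg
    exact mem_Lp_of_mul (a := 0) h.1 h0 (by rw [zero_add]; exact hfg.1)
  · exact mem_Lp_of_mul (a := 3) h.2 h3 (by rw [add_comm 3 n]; exact hfg.2)

theorem mul_mem_L' {f1 g : O k} (h : f1 ∈ L k 0 3) {m n : ℕ} (hg : g ∈ L k m n) :
    f1 * g ∈ L k m (n + 3) := L_mono (by omega) (by omega) (L_mul h hg)

/-- reduce the pole at `-P` -/
theorem reduce_n {f1 : O k} (h : f1 ∈ L k 0 3) (h3 : lc k 3 f1 ≠ 0) {m n : ℕ} (hmn : 1 ≤ m + n)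
    (d : ℕ) : ∀ g ∈ L k m (n + 3 + d), ∃ c, g - f1 * c ∈ L k m (n + 3) := by
  induction d with
  | zero => exact fun g hg => ⟨0, by rw [mul_zero, sub_zero]; exact hg⟩
  | succ d ih =>
    intro g hg
    obtain ⟨f, hf, hlc⟩ := exists_lc (k := k) (m := m) (n := n + d + 1) (by omega) (by omega)
      (lc k (n + 3 + d + 1) g / lc k 3 f1)
    have h1 : f1 * f ∈ L k m (n + 3 + d + 1) :=
      L_mono le_rfl (by omega) (mul_mem_L' h hf)
    have hg' : g ∈ L k m (n + 3 + d + 1) := hg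
    have h2 : g - f1 * f ∈ L k m (n + 3 + d + 1) := sub_mem hg' h1
    have h4 : lc k (n + 3 + d + 1) (f1 * f) = lc k 3 f1 * lc k (n + d + 1) f := by
      have := lc_mul h.2 hf.2
      rw [← this]
      congr 1
      omega
    have h5 : lc k (n + 3 + d + 1) (g - f1 * f) = 0 := by
      rw [lc_sub hg'.2 h1.2, h4, hlc]
      field_simp
      ring
    have h6 : g - f1 * f ∈ L k m (n + 3 + d) := ⟨h2.1, (lc_eq_zero_iff h2.2).1 h5⟩
    obtain ⟨c, hc⟩ := ih _ h6
    refine ⟨f + c, ?_⟩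
    rw [mul_add, ← sub_sub]
    exact hc

/-- reduce the pole at infinity -/
theorem reduce_m {f1 : O k} (h : f1 ∈ L k 0 3) (h0 : lcI 0 f1 ≠ 0) {m n : ℕ} (hmn : 1 ≤ m + n)
    (d : ℕ) : ∀ g ∈ L k (m + d) (n + 3), ∃ c, g - f1 * c ∈ L k m (n + 3) := by
  induction d with
  | zero => exact fun g hg => ⟨0, by rw [mul_zero, sub_zero]; exact hg⟩
  | succ d ih =>
    intro g hg
    obtain ⟨f, hf, hlc⟩ := exists_lcI (k := k) (m := m + d + 1) (n := n) (by omega) (by omega)
      (lcI (m + d + 1) g / lcI 0 f1)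
    have h1 : f1 * f ∈ L k (m + d + 1) (n + 3) := mul_mem_L' h hf
    have hg' : g ∈ L k (m + d + 1) (n + 3) := hg
    have h2 : g - f1 * f ∈ L k (m + d + 1) (n + 3) := sub_mem hg' h1
    have h4 : lcI (m + d + 1) (f1 * f) = lcI 0 f1 * lcI (m + d + 1) f := by
      have := lcI_mul h.1 hf.1
      rw [zero_add] at this
      exact this
    have h5 : lcI (m + d + 1) (g - f1 * f) = 0 := by
      rw [lcI_sub hg'.1 h1.1, h4, hlc]
      field_simp
      ring
    have h6 : g - f1 * f ∈ L k (m + d) (n + 3) := ⟨(lcI_eq_zero_iff h2.1).1 h5, h2.2⟩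
    obtain ⟨c, hc⟩ := ih _ h6
    refine ⟨f + c, ?_⟩
    rw [mul_add, ← sub_sub]
    exact hc

theorem reduce {f1 : O k} (h : f1 ∈ L k 0 3) (h0 : lcI 0 f1 ≠ 0) (h3 : lc k 3 f1 ≠ 0) {m n : ℕ}
    (hmn : 1 ≤ m + n) (g : O k) : ∃ c, g - f1 * c ∈ L k m (n + 3) := by
  obtain ⟨N, hN⟩ := exists_mem_L g
  have h1 : g ∈ L k (m + N) (n + 3 + N) := hN _ _ (by omega) (by omega)
  obtain ⟨c, hc⟩ := reduce_n h h3 (m := m + N) (by omega) N g h1
  obtain ⟨c', hc'⟩ := reduce_m h h0 hmn N _ hc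
  refine ⟨c + c', ?_⟩
  rw [mul_add, ← sub_sub]
  exact hc'

/-! ### The ideal of a point -/

section point

variable (t p1 p2 : k)

theorem pt_eqn (h1 : t * p1 = -(p2 + 1)) (h2 : t * (p2 - 1) = -(p1 ^ 2 + 1)) :
    (t ^ 2 - p1) ^ 2 = t ^ 2 * (t ^ 2 - p1) - 1 + 2 * t := by
  linear_combination -t * h1 + h2

theorem mem_ideal (h1 : t * p1 = -(p2 + 1)) (h2 : t * (p2 - 1) = -(p1 ^ 2 + 1))
    (hne : p1 ≠ 0 ∨ p2 ≠ 1) (I : Ideal (O k)) (hx : ox' k - algebraMap k (O k) p1 ∈ I)
    (hy : oy' k - algebraMap k (O k) p2 ∈ I) (f : O k) :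
    f - algebraMap k (O k) (evO t (t ^ 2 - p1) (pt_eqn t p1 p2 h1 h2) f) ∈ I := by
  -- `lam - t ∈ I`
  have e1 : (lam k - algebraMap k (O k) t) * algebraMap k (O k) p1 ∈ I := by
    have h3 : (lam k - algebraMap k (O k) t) * algebraMap k (O k) p1 =
        -(oy' k - algebraMap k (O k) p2) - lam k * (ox' k - algebraMap k (O k) p1) := by
      have h4 := lam_mul_ox' k
      have h5 : algebraMap k (O k) t * algebraMap k (O k) p1 = -(algebraMap k (O k) p2 + 1) := by
        rw [← map_mul, h1, map_neg, map_add, map_one]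
      linear_combination h4 - h5
    rw [h3]
    exact sub_mem (neg_mem hy) (I.mul_mem_left _ hx)
  have e2 : (lam k - algebraMap k (O k) t) * algebraMap k (O k) (p2 - 1) ∈ I := by
    have h3 : (lam k - algebraMap k (O k) t) * algebraMap k (O k) (p2 - 1) =
        -(ox' k + algebraMap k (O k) p1) * (ox' k - algebraMap k (O k) p1) -
          lam k * (oy' k - algebraMap k (O k) p2) := by
      have h4 := lam_mul_oy' k
      have h5 : algebraMap k (O k) t * algebraMap k (O k) (p2 - 1) =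
          -(algebraMap k (O k) p1 ^ 2 + 1) := by
        rw [← map_mul, h2, map_neg, map_add, map_one, map_pow]
      have h6 : algebraMap k (O k) (p2 - 1) = algebraMap k (O k) p2 - 1 := by
        rw [map_sub, map_one]
      rw [h6] at h5 ⊢
      linear_combination h4 - h5
    rw [h3]
    exact sub_mem (I.mul_mem_left _ hx) (I.mul_mem_left _ hy)
  have cancel : ∀ c : k, c ≠ 0 → ∀ g : O k, g * algebraMap k (O k) c ∈ I → g ∈ I := by
    intro c hc g hg
    have h3 := I.mul_mem_right (algebraMap k (O k) c⁻¹) hg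
    rw [mul_assoc, ← map_mul, mul_inv_cancel₀ hc, map_one, mul_one] at h3
    exact h3
  have e3 : lam k - algebraMap k (O k) t ∈ I := by
    rcases hne with h | h
    · exact cancel p1 h _ e1
    · exact cancel (p2 - 1) (sub_ne_zero.2 h) _ e2
  have e4 : ox k - algebraMap k (O k) (t ^ 2 - p1) ∈ I := by
    have h3 : ox k - algebraMap k (O k) (t ^ 2 - p1) =
        (lam k + algebraMap k (O k) t) * (lam k - algebraMap k (O k) t) -
          (ox' k - algebraMap k (O k) p1) := by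
      rw [map_sub, map_pow]
      linear_combination (ox'_eq k)
    rw [h3]
    exact sub_mem (I.mul_mem_left _ e3) hx
  -- polynomials in `lam`
  have e5 : ∀ a : k[X], O.mk a 0 - algebraMap k (O k) (a.eval t) ∈ I := by
    intro a
    obtain ⟨b, hb⟩ := Polynomial.X_sub_C_dvd_sub_C_eval (a := t) (p := a)
    have h3 : O.mk a 0 - algebraMap k (O k) (a.eval t) =
        O.mk b 0 * (lam k - algebraMap k (O k) t) := by
      apply O.ext
      · simp [lam]
        rw [hb]; ring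
      · simp [lam]
    rw [h3]
    exact I.mul_mem_left _ e3
  have e6 : f = O.mk f.re 0 + O.mk f.im 0 * ox k := by
    apply O.ext <;> simp [ox]
  have e7 : evO t (t ^ 2 - p1) (pt_eqn t p1 p2 h1 h2) f =
      f.re.eval t + f.im.eval t * (t ^ 2 - p1) := rfl
  rw [e7, map_add, map_mul]
  have e8 : f - (algebraMap k (O k) (f.re.eval t) +
      algebraMap k (O k) (f.im.eval t) * algebraMap k (O k) (t ^ 2 - p1)) =
      (O.mk f.re 0 - algebraMap k (O k) (f.re.eval t)) +
      ((O.mk f.im 0 - algebraMap k (O k) (f.im.eval t)) * ox k +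
        algebraMap k (O k) (f.im.eval t) * (ox k - algebraMap k (O k) (t ^ 2 - p1))) := by
    nth_rewrite 1 [e6]
    ring
  rw [e8]
  exact add_mem (e5 _) (add_mem (I.mul_mem_right _ (e5 _)) (I.mul_mem_left _ e4))

end point

/-! ### The annihilator of `f2` in `O / f1` -/

/-- the annihilator of `f2` in `O / f1` -/
noncomputable def Ann (f1 f2 : O k) : Submodule k (O k ⧸ Ideal.span {f1}) :=
  LinearMap.ker (LinearMap.mulLeft k (Ideal.Quotient.mk (Ideal.span {f1}) f2))

theorem mem_Ann {f1 f2 : O k} {z : O k ⧸ Ideal.span {f1}} :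
    z ∈ Ann f1 f2 ↔ Ideal.Quotient.mk (Ideal.span {f1}) f2 * z = 0 := Iff.rfl

theorem mk_mem_Ann {f1 f2 z : O k} :
    Ideal.Quotient.mk (Ideal.span {f1}) z ∈ Ann f1 f2 ↔ f1 ∣ f2 * z := by
  rw [mem_Ann, ← map_mul, Ideal.Quotient.eq_zero_iff_mem, Ideal.mem_span_singleton]

/-- for two functions generating the kernel of a character, the annihilator is one-dimensional -/
theorem exists_theta {f1 f2 : O k} (ev : O k →ₐ[k] k) (hf1 : f1 ≠ 0) (h1 : ev f1 = 0)
    (h2 : ev f2 = 0)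
    (hI : ∀ f : O k, f - algebraMap k (O k) (ev f) ∈ Ideal.span {f1, f2}) :
    ∃ e : Ann f1 f2 ≃ₗ[k] k, ∀ (a : O k) (z w : Ann f1 f2),
      (w : O k ⧸ Ideal.span {f1}) = Ideal.Quotient.mk (Ideal.span {f1}) a * z →
        e w = ev a * e z := by
  have hfin : Module.Finite k (O k ⧸ Ideal.span {f1}) := finite_quot hf1
  -- the character on the quotient
  let ε : (O k ⧸ Ideal.span {f1}) →ₐ[k] k := Ideal.Quotient.liftₐ (Ideal.span {f1}) ev (by
    intro a ha
    rw [Ideal.mem_span_singleton] at ha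
    obtain ⟨b, rfl⟩ := ha
    rw [map_mul, h1, zero_mul])
  have hε : ∀ f : O k, ε (Ideal.Quotient.mk _ f) = ev f := fun f => rfl
  let φ : (O k ⧸ Ideal.span {f1}) →ₗ[k] (O k ⧸ Ideal.span {f1}) :=
    LinearMap.mulLeft k (Ideal.Quotient.mk (Ideal.span {f1}) f2)
  have hφ : LinearMap.ker ε.toLinearMap = LinearMap.range φ := by
    ext z
    obtain ⟨f, rfl⟩ := Ideal.Quotient.mk_surjective z
    rw [LinearMap.mem_ker, LinearMap.mem_range]
    constructor
    · intro h
      have h3 : ev f = 0 := h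
      have h4 := hI f
      rw [h3, map_zero, sub_zero, Ideal.mem_span_pair] at h4
      obtain ⟨a, b, hab⟩ := h4
      refine ⟨Ideal.Quotient.mk _ b, ?_⟩
      show Ideal.Quotient.mk _ f2 * Ideal.Quotient.mk _ b = Ideal.Quotient.mk _ f
      rw [← map_mul, Ideal.Quotient.eq, Ideal.mem_span_singleton]
      exact ⟨-a, by rw [← hab]; ring⟩
    · rintro ⟨y, hy⟩
      obtain ⟨g, rfl⟩ := Ideal.Quotient.mk_surjective y
      rw [← hy]
      show ε (Ideal.Quotient.mk _ f2 * Ideal.Quotient.mk _ g) = 0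
      rw [map_mul, hε, h2, zero_mul]
  have hεs : LinearMap.range ε.toLinearMap = ⊤ := by
    rw [LinearMap.range_eq_top]
    intro c
    refine ⟨algebraMap k _ c, ?_⟩
    exact ε.commutes c
  have hd1 := LinearMap.finrank_range_add_finrank_ker ε.toLinearMap
  have hd2 := LinearMap.finrank_range_add_finrank_ker φ
  rw [hεs, finrank_top, Module.finrank_self, hφ] at hd1
  have hd3 : Module.finrank k (Ann f1 f2) = 1 := by
    have : Module.finrank k (LinearMap.ker φ) = 1 := by omega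
    exact this
  let e : Ann f1 f2 ≃ₗ[k] k := LinearEquiv.ofFinrankEq _ _ (by rw [hd3, Module.finrank_self])
  refine ⟨e, fun a z w hw => ?_⟩
  have h5 : w = ev a • z := by
    apply Subtype.ext
    rw [hw]
    show Ideal.Quotient.mk _ a * (z : O k ⧸ Ideal.span {f1}) =
      ev a • (z : O k ⧸ Ideal.span {f1})
    have h6 := hI a
    rw [Ideal.mem_span_pair] at h6
    obtain ⟨b, c, hbc⟩ := h6
    have h7 : a = algebraMap k (O k) (ev a) + (b * f1 + c * f2) := by rw [hbc]; ring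
    have h8 : Ideal.Quotient.mk (Ideal.span {f1}) f1 = 0 := by
      rw [Ideal.Quotient.eq_zero_iff_mem]
      exact Ideal.mem_span_singleton_self f1
    have h9 : Ideal.Quotient.mk (Ideal.span {f1}) f2 * (z : O k ⧸ Ideal.span {f1}) = 0 := z.2
    have h10 : Ideal.Quotient.mk (Ideal.span {f1}) (algebraMap k (O k) (ev a)) =
        algebraMap k (O k ⧸ Ideal.span {f1}) (ev a) := rfl
    rw [Algebra.smul_def]
    nth_rewrite 1 [h7]
    rw [map_add, map_add, map_mul, map_mul, h8, h10]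
    linear_combination (Ideal.Quotient.mk (Ideal.span {f1}) c) * h9
  rw [h5, map_smul, smul_eq_mul]

/-! ### The data of the piece -/

/-- abstract form: two lines whose functions generate the kernel of a character -/
theorem mkF1D {p u : Fin 3 → k} (l1 l2 : Fin 3 → k) (l1_p : le k l1 p = 0) (l2_p : le k l2 p = 0)
    (indep : ∀ a b : k, a • l1 + b • l2 = 0 → a = 0 ∧ b = 0)
    (h0 : lcI 0 (le k l1 (vx' k)) ≠ 0) (h3 : lc k 3 (le k l1 (vx' k)) ≠ 0)
    (ev : O k →ₐ[k] k) (hu : ∀ s : Fin 3 → k, ev (le k s (vx k)) = le k s u)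
    (e1 : ev (le k l1 (vx' k)) = 0) (e2 : ev (le k l2 (vx' k)) = 0)
    (hI : ∀ f : O k, f - algebraMap k (O k) (ev f) ∈
      Ideal.span {le k l1 (vx' k), le k l2 (vx' k)}) :
    Nonempty (F1D k p u) := by
  set f1 := le k l1 (vx' k) with hf1
  set f2 := le k l2 (vx' k) with hf2
  have hf1L : f1 ∈ L k 0 3 := le_vx'_mem_L l1
  have hf2L : f2 ∈ L k 0 3 := le_vx'_mem_L l2
  have hne : f1 ≠ 0 := by
    intro h
    apply h3
    rw [h]
    have := lc_smul (k := k) (n := 3) (0 : k) (zero_mem (Lp k 3))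
    rw [zero_mul, smul_zero] at this
    exact this
  obtain ⟨e, he⟩ := exists_theta ev hne e1 e2 hI
  -- elements of `Z1`
  have hZ : ∀ (i : Fin 3) (f : O k), f ∈ Z1 k l1 l2 i 1 →
      Ideal.Quotient.mk (Ideal.span {f1}) f ∈ Ann f1 f2 := by
    intro i f hf
    rw [mem_Z1_iff] at hf
    obtain ⟨_, b, _, hb⟩ := hf
    rw [mk_mem_Ann]
    exact ⟨b, hb.symm⟩
  have hM : ∀ i j : Fin 3, 1 ≤ (3 * (2 - (i : ℕ)) + 1) + (3 * (j : ℕ) + 1) := by
    intro i j; omega
  refine ⟨{
    l1 := l1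
    l2 := l2
    l1_p := l1_p
    l2_p := l2_p
    indep := indep
    th := fun i => ev.toLinearMap ∘ₗ (Ms k i 2).subtype
    th_surj := ?_
    th_ker := ?_
    th_act := ?_
    ze := fun i => e.toLinearMap ∘ₗ
      (((Ideal.Quotient.mkₐ k (Ideal.span {f1})).toLinearMap ∘ₗ
        (Z1 k l1 l2 i 1).subtype).codRestrict (Ann f1 f2) fun f => hZ i f f.2)
    ze_surj := ?_
    ze_ker := ?_
    ze_act := ?_ }⟩
  · intro i c
    refine ⟨⟨algebraMap k (O k) c, ?_⟩, ?_⟩
    · rw [Algebra.algebraMap_eq_smul_one]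
      exact Submodule.smul_mem _ _ (L_mono (Nat.zero_le _) (Nat.zero_le _) one_mem_L)
    · exact ev.commutes c
  · intro i f
    constructor
    · intro h
      have h' : ev (f : O k) = 0 := h
      have h4 := hI (f : O k)
      rw [h', map_zero, sub_zero, Ideal.mem_span_pair] at h4
      obtain ⟨a, b, hab⟩ := h4
      obtain ⟨c, hc⟩ := reduce hf1L h0 h3 (m := 3 * (2 - (i : ℕ)) + 1) (n := 1) (by omega) b
      have hb' : b - f1 * c ∈ Ms k i 1 := hc
      have ha' : f1 * (a + f2 * c) ∈ L k (3 * (2 - (i : ℕ)) + 1) (4 + 3) := by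
        have e3 : f1 * (a + f2 * c) = (f : O k) - f2 * (b - f1 * c) := by
          rw [← hab]; ring
        rw [e3]
        exact sub_mem f.2 (mul_mem_L' hf2L hb')
      exact ⟨a + f2 * c, mem_L_of_mul hf1L h0 h3 ha', b - f1 * c, hb', by rw [← hab]; ring⟩
    · rintro ⟨a, _, b, _, hab⟩
      show ev (f : O k) = 0
      rw [hab, map_add, map_mul, map_mul, e1, e2, zero_mul, zero_mul, add_zero]
  · intro i i' _ s f hf h
    show ev (le k s (vx k) * f) = le k s u * ev f
    rw [map_mul, hu]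
  · intro i c
    obtain ⟨z, hz⟩ := e.surjective c
    obtain ⟨g, hg⟩ := Ideal.Quotient.mk_surjective (z : O k ⧸ Ideal.span {f1})
    obtain ⟨c', hc'⟩ := reduce hf1L h0 h3 (m := 3 * (2 - (i : ℕ)) + 1) (n := 1) (by omega) g
    have hg' : Ideal.Quotient.mk (Ideal.span {f1}) (g - f1 * c') = z := by
      rw [← hg, Ideal.Quotient.eq, Ideal.mem_span_singleton]
      exact ⟨-c', by ring⟩
    have hgA : Ideal.Quotient.mk (Ideal.span {f1}) (g - f1 * c') ∈ Ann f1 f2 := by
      rw [hg']; exact z.2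
    rw [mk_mem_Ann] at hgA
    obtain ⟨b, hb⟩ := hgA
    have hbM : b ∈ L k (3 * (2 - (i : ℕ)) + 1) 4 := by
      apply mem_L_of_mul hf1L h0 h3
      rw [← hb]
      exact mul_mem_L' hf2L hc'
    refine ⟨⟨g - f1 * c', (mem_Z1_iff _ _ _ _ _ _).2 ⟨hc', b, hbM, hb.symm⟩⟩, ?_⟩
    rw [← hz]
    show e _ = e z
    congr 1
    exact Subtype.ext hg'
  · intro i f
    constructor
    · intro h
      have h' : (⟨Ideal.Quotient.mk (Ideal.span {f1}) (f : O k), hZ i f f.2⟩ : Ann f1 f2) = 0 := by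
        apply e.injective
        rw [map_zero]
        exact h
      have h4 : Ideal.Quotient.mk (Ideal.span {f1}) (f : O k) = 0 := congrArg Subtype.val h'
      rw [Ideal.Quotient.eq_zero_iff_mem, Ideal.mem_span_singleton] at h4
      obtain ⟨a, ha⟩ := h4
      refine ⟨a, ?_, ha⟩
      have hfM : (f : O k) ∈ L k (3 * (2 - (i : ℕ)) + 1) (1 + 3) :=
        ((mem_Z1_iff _ _ _ _ _ _).1 f.2).1
      rw [ha] at hfM
      exact mem_L_of_mul hf1L h0 h3 hfM
    · rintro ⟨a, _, ha⟩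
      show e _ = 0
      rw [← map_zero e]
      congr 1
      apply Subtype.ext
      show Ideal.Quotient.mk (Ideal.span {f1}) (f : O k) = 0
      rw [Ideal.Quotient.eq_zero_iff_mem, Ideal.mem_span_singleton]
      exact ⟨a, ha⟩
  · intro i i' _ s f hf h
    have := he (le k s (vx k)) ⟨_, hZ i' f hf⟩ ⟨_, hZ i _ h⟩ (map_mul _ _ _)
    rw [hu] at this
    exact this

/-- piece F1a in coordinates -/
theorem F1a (p1 p2 t : k) (h : p2 ^ 2 = p1 ^ 3 + p1 + 1) (h1 : t * p1 = -(p2 + 1))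
    (h2 : t * (p2 - 1) = -(p1 ^ 2 + 1)) :
    Nonempty (F1D k ![1, p1, p2] ![1, t ^ 2 - p1, 1 + t * (t ^ 2 - p1)]) := by
  have hne : p1 ≠ 0 ∨ p2 ≠ 1 := by
    by_contra hc
    push Not at hc
    obtain ⟨rfl, rfl⟩ := hc
    have : (2 : k) = 0 := by linear_combination h1
    exact two_ne_zero this
  obtain ⟨α, hα⟩ : ∃ α : k, 1 - p2 - α * p1 ≠ 0 := by
    by_cases hp : p2 = 1
    · refine ⟨1, ?_⟩
      have h3 : p1 ≠ 0 := by
        rcases hne with h4 | h4
        · exact h4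
        · exact absurd hp h4
      rw [hp, sub_self, zero_sub, one_mul]
      exact neg_ne_zero.2 h3
    · refine ⟨0, ?_⟩
      rw [zero_mul, sub_zero]
      exact sub_ne_zero.2 (Ne.symm hp)
  have hl1 : le k ![-p2 - α * p1, α, 1] (vx' k) =
      (oy' k - algebraMap k (O k) p2) + algebraMap k (O k) α * (ox' k - algebraMap k (O k) p1) := by
    simp only [le, vx', Algebra.smul_def]
    simp
    ring
  have hl2 : le k ![-p1, 1, 0] (vx' k) = ox' k - algebraMap k (O k) p1 := by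
    simp only [le, vx', Algebra.smul_def]
    simp
    ring
  refine mkF1D ![-p2 - α * p1, α, 1] ![-p1, 1, 0] ?_ ?_ ?_ ?_ ?_
    (evO t (t ^ 2 - p1) (pt_eqn t p1 p2 h1 h2)) ?_ ?_ ?_ ?_
  · simp [le]
  · simp [le]
  · intro a b hab
    have h3 := congrFun hab 2
    have h4 := congrFun hab 1
    simp at h3 h4
    rw [h3] at h4
    simp at h4
    exact ⟨h3, h4⟩
  · rw [lcI_le_vx']
    simp
    intro h3
    apply hα
    linear_combination h3
  · rw [lc_le_vx']
    simp
  · intro s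
    simp only [le, vx, map_add, map_smul]
    simp [Algebra.smul_def]
  · rw [hl1]
    simp only [map_add, map_sub, map_mul, evO_oy', evO_ox', AlgHom.commutes,
      Algebra.algebraMap_self, RingHom.id_apply]
    linear_combination -h1
  · rw [hl2]
    simp only [map_sub, evO_ox', AlgHom.commutes, Algebra.algebraMap_self, RingHom.id_apply]
    try ring
  · intro f
    have hx : ox' k - algebraMap k (O k) p1 ∈
        Ideal.span {le k ![-p2 - α * p1, α, 1] (vx' k), le k ![-p1, 1, 0] (vx' k)} := by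
      rw [← hl2]
      exact Ideal.subset_span (by simp)
    refine mem_ideal t p1 p2 h1 h2 hne _ hx ?_ f
    have h3 : oy' k - algebraMap k (O k) p2 = le k ![-p2 - α * p1, α, 1] (vx' k) -
        algebraMap k (O k) α * (ox' k - algebraMap k (O k) p1) := by
      rw [hl1]; ring
    rw [h3]
    exact sub_mem (Ideal.subset_span (by simp)) (Ideal.mul_mem_left _ _ hx)

/-- the point `(0, 1)` of the curve `E k` of the interface -/
noncomputable def Pz (k : Type) [Field k] [CharZero k] : (E k).Point := (P0 : (E0 k).Point)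

/-- piece F1a for a point `p ≠ 0, P0` of the curve -/
theorem F1a_point [DecidableEq k] (p : (E k).Point) (hp : p ≠ 0) (hpP : p ≠ Pz k) :
    Nonempty (F1D k (Run7.h258.Han.vec k p) (Run7.h258.Han.vec k (p - Pz k))) := by
  rcases cases_pt (F := k) p with h | ⟨p1, p2, h, hpt⟩
  · exact absurd h hp
  · obtain ⟨t, h1, h2⟩ := exists_t (F := k) (p1 := p1) (p2 := p2) (h := h) (by
      rw [← hpt]; exact hpP)
    obtain ⟨h', he⟩ := sub_P0' (F := k) (h := h) t h1 h2
    have e1 : Run7.h258.Han.vec k p = ![1, p1, p2] := by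
      rw [hpt]; rfl
    have e2 : Run7.h258.Han.vec k (p - Pz k) = ![1, t ^ 2 - p1, 1 + t * (t ^ 2 - p1)] := by
      have e3 : p - Pz k = (pt (t ^ 2 - p1) (1 + t * (t ^ 2 - p1)) h' : (E0 k).Point) := by
        rw [← he, ← hpt]; rfl
      rw [e3]; rfl
    rw [e1, e2]
    exact F1a p1 p2 t h h1 h2

end Run7.h921.Han.F1
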