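import Pool.Agent.Run7.h921.Han.F1a

/-!
# Piece F1c of the project MP_92f1cb_al: the point `p = P0`
-/

set_option autoImplicit false
set_option linter.all false

namespace Run7.h921.Han.F1

open Polynomial Run7.h258.Han

variable {k : Type} [Field k] [CharZero k]

theorem L_sub_one {m n : ℕ} {f : O k} (hf : f ∈ L k (m + 1) n) (h : lcI (m + 1) f = 0) :
    f ∈ L k m n := ⟨(lcI_eq_zero_iff hf.1).1 h, hf.2⟩

theorem L_sub_one' {m n : ℕ} {f : O k} (hf : f ∈ L k m (n + 1)) (h : lc k (n + 1) f = 0) :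
    f ∈ L k m n := ⟨hf.1, (lc_eq_zero_iff hf.2).1 h⟩

/-- one step of reduction of the pole at `-P` by multiples of `f0` -/
theorem red_step {f0 : O k} {a m n : ℕ} (h : f0 ∈ Lp k a) (h3 : lc k a f0 ≠ 0) {m' : ℕ}
    (hb : ∀ g ∈ L k m' n, f0 * g ∈ L k m (n + a)) (hn : 1 ≤ n) (hmn : 2 ≤ m' + n) {f : O k}
    {r : ℕ} (hr : n + a = r + 1) (hf : f ∈ L k m (r + 1)) :
    ∃ g ∈ L k m' n, f - f0 * g ∈ L k m r := by
  obtain ⟨g, hg, hlc⟩ := exists_lc (k := k) (m := m') (n := n) hn hmn (lc k (r + 1) f / lc k a f0)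
  have h1 := hb g hg
  rw [hr] at h1
  refine ⟨g, hg, L_sub_one' (sub_mem hf h1) ?_⟩
  have h4 : lc k (r + 1) (f0 * g) = lc k a f0 * lc k n g := by
    have := lc_mul h hg.2
    rw [← this]
    congr 1
    omega
  rw [lc_sub hf.2 h1.2, h4, hlc]
  field_simp
  ring

/-- `y' - 1` -/
noncomputable def fy (k : Type) [Field k] : O k := oy' k - 1

theorem fy_mem : fy k ∈ L k 0 3 :=
  sub_mem oy'_mem_L (L_mono (Nat.zero_le _) (Nat.zero_le _) one_mem_L)

theorem lcI_fy : lcI 0 (fy k) = 0 := by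
  have h1 : tau k (1 : O k) ∈ Lp k 0 := by rw [map_one]; exact one_mem_Lp
  unfold fy
  rw [lcI_sub oy'_mem_L.1 h1, lcI_oy', lcI_one, sub_self]

theorem lc_fy : lc k 3 (fy k) = 8 := by
  unfold fy
  rw [lc_sub oy'_mem_Lp (Lp_mono (by omega) one_mem_Lp), lc_oy',
    lc_eq_zero (m := 0) (by omega) one_mem_Lp, sub_zero]

theorem lam_ox' : lam k * ox' k = -(fy k + 2) := by
  rw [lam_mul_ox']
  unfold fy
  ring

/-- multiplication by a function vanishing at infinity lowers the pole -/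
theorem mul_vanish {f0 g : O k} {m n a : ℕ} (h : f0 ∈ L k 0 a) (h0 : lcI 0 f0 = 0)
    (hg : g ∈ L k (m + 1) n) : f0 * g ∈ L k m (n + a) := by
  have h1 : f0 * g ∈ L k (m + 1) (n + a) := L_mono (by omega) (by omega) (L_mul h hg)
  refine L_sub_one h1 ?_
  have h2 := lcI_mul h.1 hg.1
  rw [zero_add, h0, zero_mul] at h2
  exact h2

/-- `L (α - 1) 7 = x' L α 4 + (y' - 1) L α 4`, with `α = m + 1` -/
theorem span7 {m : ℕ} {f : O k} (hf : f ∈ L k m 7) :
    ∃ a ∈ L k (m + 1) 4, ∃ b ∈ L k (m + 1) 4, f = ox' k * a + fy k * b := by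
  have hfy : fy k ∈ Lp k 3 := fy_mem.2
  have hfy0 : lc k 3 (fy k) ≠ 0 := by rw [lc_fy]; norm_num
  have hox0 : lc k 2 (ox' k) ≠ 0 := by rw [lc_ox']; norm_num
  obtain ⟨b1, hb1, h1⟩ := red_step (m' := m) (n := 4) hfy hfy0
    (fun g hg => L_mono (by omega) (by omega) (L_mul fy_mem hg)) (by omega) (by omega)
    (r := 6) (by omega) hf
  obtain ⟨b2, hb2, h2⟩ := red_step (m' := m) (n := 3) hfy hfy0
    (fun g hg => L_mono (by omega) (by omega) (L_mul fy_mem hg)) (by omega) (by omega)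
    (r := 5) (by omega) h1
  obtain ⟨b3, hb3, h3⟩ := red_step (m' := m) (n := 2) hfy hfy0
    (fun g hg => L_mono (by omega) (by omega) (L_mul fy_mem hg)) (by omega) (by omega)
    (r := 4) (by omega) h2
  obtain ⟨a1, ha1, h4⟩ := red_step (m' := m) (n := 2) ox'_mem_Lp hox0
    (fun g hg => L_mono (by omega) (by omega) (L_mul ox'_mem_L hg)) (by omega) (by omega)
    (r := 3) (by omega) h3
  set g := f - fy k * b1 - fy k * b2 - fy k * b3 - ox' k * a1 with hg
  have hlg : lam k * g ∈ L k (m + 1) 4 := L_mono (by omega) (by omega) (L_mul lam_mem_L h4)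
  have h2k : (2 : k) ≠ 0 := two_ne_zero
  have h2g : g = ox' k * (algebraMap k (O k) (-(2⁻¹)) * (lam k * g)) +
      fy k * (algebraMap k (O k) (-(2⁻¹)) * g) := by
    have e1 := lam_ox' (k := k)
    have e2 : algebraMap k (O k) (-(2⁻¹)) * 2 = -1 := by
      have : (2 : O k) = algebraMap k (O k) 2 := by rw [map_ofNat]
      rw [this, ← map_mul]
      have : -(2⁻¹ : k) * 2 = -1 := by field_simp
      rw [this, map_neg, map_one]
    linear_combination -(algebraMap k (O k) (-(2⁻¹))) * g * e1 + g * e2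
  refine ⟨a1 + algebraMap k (O k) (-(2⁻¹)) * (lam k * g), ?_, b1 + b2 + b3 +
    algebraMap k (O k) (-(2⁻¹)) * g, ?_, ?_⟩
  · refine add_mem (L_mono (by omega) (by omega) ha1) ?_
    rw [← Algebra.smul_def]
    exact Submodule.smul_mem _ _ hlg
  · refine add_mem (add_mem (add_mem (L_mono (by omega) (by omega) hb1)
      (L_mono (by omega) (by omega) hb2)) (L_mono (by omega) (by omega) hb3)) ?_
    rw [← Algebra.smul_def]
    exact Submodule.smul_mem _ _ (L_mono (by omega) (by omega) h4)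
  · linear_combination h2g

/-- the solutions of `x' b = (y' - 1) a` -/
theorem exists_g {m : ℕ} {a b : O k} (ha : a ∈ L k (m + 1) 4) (hb : b ∈ L k (m + 1) 4)
    (hab : ox' k * b = fy k * a) :
    ∃ g ∈ L k (m + 2) 1, a = ox' k * g ∧ b = fy k * g := by
  have hox0 : lc k 2 (ox' k) ≠ 0 := by rw [lc_ox']; norm_num
  have hfy0 : lc k 3 (fy k) ≠ 0 := by rw [lc_fy]; norm_num
  have hne : ox' k ≠ 0 := by
    intro h
    apply hox0
    rw [h]
    have := lc_smul (k := k) (n := 2) (0 : k) (zero_mem (Lp k 2))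
    rw [zero_mul, smul_zero] at this
    exact this
  have h2k : (2 : k) ≠ 0 := two_ne_zero
  have e2 : algebraMap k (O k) (-(2⁻¹)) * 2 = -1 := by
    have : (2 : O k) = algebraMap k (O k) 2 := by rw [map_ofNat]
    rw [this, ← map_mul]
    have : -(2⁻¹ : k) * 2 = -1 := by field_simp
    rw [this, map_neg, map_one]
  have e1 := lam_ox' (k := k)
  set g := algebraMap k (O k) (-(2⁻¹)) * (lam k * a + b) with hg
  have h1 : a = ox' k * g := by
    rw [hg]
    linear_combination -(algebraMap k (O k) (-(2⁻¹))) * a * e1 -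
      (algebraMap k (O k) (-(2⁻¹))) * hab + a * e2
  have h2 : b = fy k * g := by
    apply mul_left_cancel₀ hne
    rw [hab]
    nth_rewrite 1 [h1]
    ring
  refine ⟨g, ?_, h1, h2⟩
  have h3 : g ∈ L k (m + 2) 5 := by
    rw [hg, ← Algebra.smul_def]
    exact Submodule.smul_mem _ _ (add_mem (L_mono (by omega) (by omega) (L_mul lam_mem_L ha))
      (L_mono (by omega) (by omega) hb))
  refine ⟨h3.1, ?_⟩
  refine mem_Lp_of_mul (f1 := fy k) (a := 3) fy_mem.2 hfy0 ?_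
  rw [← h2]
  exact hb.2

/-- the line through a point: values -/
theorem le_l1 : le k ![0, 1, 0] (vx' k) = ox' k := by
  simp only [le, vx', Algebra.smul_def]
  simp

theorem le_l2 : le k ![-1, 0, 1] (vx' k) = fy k := by
  simp only [le, vx', Algebra.smul_def, fy]
  simp
  ring

/-- `L (α + 1) 1 → O`, `g ↦ x' g` -/
noncomputable def psi (k : Type) [Field k] (m : ℕ) : L k m 1 →ₗ[k] O k :=
  LinearMap.mulLeft k (ox' k) ∘ₗ (L k m 1).subtype

theorem ox'_ne_zero : ox' k ≠ 0 := by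
  intro h
  have hox0 : lc k 2 (ox' k) ≠ 0 := by rw [lc_ox']; norm_num
  apply hox0
  rw [h]
  have := lc_smul (k := k) (n := 2) (0 : k) (zero_mem (Lp k 2))
  rw [zero_mul, smul_zero] at this
  exact this

theorem psi_inj (m : ℕ) : Function.Injective (psi k m) := by
  intro g g' h
  apply Subtype.ext
  exact mul_left_cancel₀ ox'_ne_zero h

/-- leading coefficient at infinity as a linear map -/
noncomputable def lcIL (k : Type) [Field k] [CharZero k] (m n : ℕ) : L k m n →ₗ[k] k where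
  toFun f := lcI m (f : O k)
  map_add' f g := lcI_add f.2.1 g.2.1
  map_smul' c f := lcI_smul c f.2.1

/-- leading coefficient at `-P` as a linear map -/
noncomputable def lcL (k : Type) [Field k] [CharZero k] (m n : ℕ) : L k m n →ₗ[k] k where
  toFun f := lc k n (f : O k)
  map_add' f g := lc_add f.2.2 g.2.2
  map_smul' c f := lc_smul c f.2.2

theorem Z1_range (i : Fin 3) (f : Z1 k ![0, 1, 0] ![-1, 0, 1] i 1) :
    (f : O k) ∈ LinearMap.range (psi k (3 * (2 - (i : ℕ)) + 2)) := by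
  obtain ⟨ha, b, hb, hab⟩ := (mem_Z1_iff _ _ _ _ _ _).1 f.2
  rw [le_l1, le_l2] at hab
  obtain ⟨g, hg, h1, _⟩ := exists_g (m := 3 * (2 - (i : ℕ))) ha hb hab
  exact ⟨⟨g, hg⟩, h1.symm⟩

/-- `a ↦ g`, where `a = x' g` -/
noncomputable def gof (k : Type) [Field k] [CharZero k] (i : Fin 3) :
    Z1 k ![0, 1, 0] ![-1, 0, 1] i 1 →ₗ[k] L k (3 * (2 - (i : ℕ)) + 2) 1 :=
  (LinearEquiv.ofInjective (psi k (3 * (2 - (i : ℕ)) + 2)) (psi_inj _)).symm.toLinearMap ∘ₗ
    ((Z1 k ![0, 1, 0] ![-1, 0, 1] i 1).subtype.codRestrict _ (Z1_range i))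

theorem gof_spec (i : Fin 3) (f : Z1 k ![0, 1, 0] ![-1, 0, 1] i 1) :
    (f : O k) = ox' k * (gof k i f : O k) := by
  have h := LinearEquiv.apply_symm_apply
    (LinearEquiv.ofInjective (psi k (3 * (2 - (i : ℕ)) + 2)) (psi_inj _))
    (⟨(f : O k), Z1_range i f⟩ : LinearMap.range (psi k (3 * (2 - (i : ℕ)) + 2)))
  exact (congrArg Subtype.val h).symm

theorem gof_eq (i : Fin 3) (f : Z1 k ![0, 1, 0] ![-1, 0, 1] i 1) {g : O k}
    (h : (f : O k) = ox' k * g) : (gof k i f : O k) = g := by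
  apply mul_left_cancel₀ (ox'_ne_zero (k := k))
  rw [← gof_spec, h]

/-- the functional on `M_i2` -/
noncomputable def thc (k : Type) [Field k] [CharZero k] (i : Fin 3) : Ms k i 2 →ₗ[k] k where
  toFun f := (-8 : k) ^ (i : ℕ) * lcI (3 * (2 - (i : ℕ)) + 1) (f : O k)
  map_add' f g := by
    have h := lcI_add (n := 3 * (2 - (i : ℕ)) + 1) f.2.1 g.2.1
    rw [Submodule.coe_add, h, mul_add]
  map_smul' c f := by
    have h := lcI_smul (n := 3 * (2 - (i : ℕ)) + 1) c f.2.1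
    rw [Submodule.coe_smul, h, RingHom.id_apply, smul_eq_mul]
    ring

theorem thc_apply (i : Fin 3) (f : Ms k i 2) :
    thc k i f = (-8 : k) ^ (i : ℕ) * lcI (3 * (2 - (i : ℕ)) + 1) (f : O k) := rfl

/-- piece F1c -/
theorem F1c : Nonempty (F1D k ![1, 0, 1] ![0, 0, 1]) := by
  have h8 : ∀ i : ℕ, (-8 : k) ^ i ≠ 0 := fun i => pow_ne_zero _ (by norm_num)
  refine ⟨{
    l1 := ![0, 1, 0]
    l2 := ![-1, 0, 1]
    l1_p := by simp [le]
    l2_p := by simp [le]
    indep := ?_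
    th := fun i => thc k i
    th_surj := ?_
    th_ker := ?_
    th_act := ?_
    ze := fun i => ((-8 : k) ^ (i : ℕ)) • (lcIL k (3 * (2 - (i : ℕ)) + 2) 1 ∘ₗ gof k i)
    ze_surj := ?_
    ze_ker := ?_
    ze_act := ?_ }⟩
  · intro a b hab
    have h3 := congrFun hab 2
    have h4 := congrFun hab 1
    simp at h3 h4
    exact ⟨h4, h3⟩
  · intro i c
    obtain ⟨f, hf, hlc⟩ := exists_lcI (k := k) (m := 3 * (2 - (i : ℕ)) + 1) (n := 7) (by omega)
      (by omega) (c / (-8) ^ (i : ℕ))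
    refine ⟨⟨f, hf⟩, ?_⟩
    rw [thc_apply, hlc]
    have := h8 i
    field_simp
  · intro i f
    rw [le_l1, le_l2]
    rw [thc_apply]
    constructor
    · intro h
      have h1 := (mul_eq_zero.1 h).resolve_left (h8 i)
      have h2 : (f : O k) ∈ L k (3 * (2 - (i : ℕ))) 7 := L_sub_one f.2 h1
      obtain ⟨a, ha, b, hb, hab⟩ := span7 h2
      exact ⟨a, ha, b, hb, hab⟩
    · rintro ⟨a, ha, b, hb, hab⟩
      have ha' : a ∈ L k (3 * (2 - (i : ℕ)) + 1) 4 := ha
      have hb' : b ∈ L k (3 * (2 - (i : ℕ)) + 1) 4 := hb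
      have h1 := mul_vanish ox'_mem_L lcI_ox' ha'
      have h2 := mul_vanish fy_mem lcI_fy hb'
      have h3 : (f : O k) ∈ L k (3 * (2 - (i : ℕ))) 7 := by
        rw [hab]
        exact add_mem (L_mono le_rfl (by omega) h1) (L_mono le_rfl (by omega) h2)
      rw [lcI_eq_zero (m := 3 * (2 - (i : ℕ))) (by omega) h3.1, mul_zero]
  · intro i i' hi s f hf h
    rw [thc_apply, thc_apply]
    have hf' : f ∈ L k (3 * (2 - (i' : ℕ)) + 1) 7 := hf
    have h1 := lcI_mul (le_vx_mem_L s).1 hf'.1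
    rw [lcI_le_vx] at h1
    have hi' := i'.2
    have e2 : 3 * (2 - (i : ℕ)) + 1 = 3 + (3 * (2 - (i' : ℕ)) + 1) := by omega
    have e3 : le k s ![0, 0, 1] = s 2 := by simp [le]
    have e4 : (-8 : k) ^ (i' : ℕ) = (-8) ^ (i : ℕ) * (-8) := by rw [hi, pow_succ]
    rw [e2, e3, e4, h1]
    ring
  · intro i c
    obtain ⟨g, hg, hlc⟩ := exists_lcI (k := k) (m := 3 * (2 - (i : ℕ)) + 2) (n := 1) (by omega)
      (by omega) (c / (-8) ^ (i : ℕ))
    have ha : ox' k * g ∈ L k (3 * (2 - (i : ℕ)) + 1) 4 :=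
      L_mono le_rfl (by omega) (mul_vanish ox'_mem_L lcI_ox' hg)
    have hb : fy k * g ∈ L k (3 * (2 - (i : ℕ)) + 1) 4 :=
      L_mono le_rfl (by omega) (mul_vanish fy_mem lcI_fy hg)
    refine ⟨⟨ox' k * g, (mem_Z1_iff _ _ _ _ _ _).2 ⟨ha, fy k * g, hb, ?_⟩⟩, ?_⟩
    · rw [le_l1, le_l2]; ring
    · have e : ∀ x : Z1 k ![0, 1, 0] ![-1, 0, 1] i 1,
        (((-8 : k) ^ (i : ℕ)) • (lcIL k (3 * (2 - (i : ℕ)) + 2) 1 ∘ₗ gof k i)) x =
        (-8 : k) ^ (i : ℕ) * lcI (3 * (2 - (i : ℕ)) + 2) (gof k i x : O k) := fun x => rfl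
      rw [e, gof_eq i _ rfl, hlc]
      have := h8 i
      field_simp
  · intro i f
    have e : ∀ x : Z1 k ![0, 1, 0] ![-1, 0, 1] i 1,
        (((-8 : k) ^ (i : ℕ)) • (lcIL k (3 * (2 - (i : ℕ)) + 2) 1 ∘ₗ gof k i)) x =
        (-8 : k) ^ (i : ℕ) * lcI (3 * (2 - (i : ℕ)) + 2) (gof k i x : O k) := fun x => rfl
    rw [e, le_l1]
    constructor
    · intro h
      have h1 := (mul_eq_zero.1 h).resolve_left (h8 i)
      exact ⟨_, L_sub_one (gof k i f).2 h1, gof_spec i f⟩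
    · rintro ⟨a, ha, hfa⟩
      have ha' : a ∈ L k (3 * (2 - (i : ℕ)) + 1) 1 := ha
      rw [gof_eq i f hfa, lcI_eq_zero (m := 3 * (2 - (i : ℕ)) + 1) (by omega) ha'.1, mul_zero]
  · intro i i' hi s f hf h
    have e : ∀ (i : Fin 3) (x : Z1 k ![0, 1, 0] ![-1, 0, 1] i 1),
        (((-8 : k) ^ (i : ℕ)) • (lcIL k (3 * (2 - (i : ℕ)) + 2) 1 ∘ₗ gof k i)) x =
        (-8 : k) ^ (i : ℕ) * lcI (3 * (2 - (i : ℕ)) + 2) (gof k i x : O k) := fun i x => rfl
    rw [e, e]
    set g := (gof k i' ⟨f, hf⟩ : O k) with hg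
    have hgL : g ∈ L k (3 * (2 - (i' : ℕ)) + 2) 1 := (gof k i' ⟨f, hf⟩).2
    have hfg : f = ox' k * g := gof_spec i' ⟨f, hf⟩
    have h2 : (gof k i ⟨le k s (vx k) * f, h⟩ : O k) = le k s (vx k) * g :=
      gof_eq i _ (by
        show le k s (vx k) * f = ox' k * (le k s (vx k) * g)
        rw [hfg]; ring)
    have h1 := lcI_mul (le_vx_mem_L s).1 hgL.1
    rw [lcI_le_vx] at h1
    have hi' := i'.2
    have e2 : 3 * (2 - (i : ℕ)) + 2 = 3 + (3 * (2 - (i' : ℕ)) + 2) := by omega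
    have e3 : le k s ![0, 0, 1] = s 2 := by simp [le]
    have e4 : (-8 : k) ^ (i' : ℕ) = (-8) ^ (i : ℕ) * (-8) := by rw [hi, pow_succ]
    rw [h2, e2, e3, e4, h1]
    ring

/-- piece F1c for the curve -/
theorem F1c_point [DecidableEq k] :
    Nonempty (F1D k (Run7.h258.Han.vec k (Pz k)) (Run7.h258.Han.vec k (Pz k - Pz k))) := by
  have e1 : Run7.h258.Han.vec k (Pz k) = ![1, 0, 1] := rfl
  have e2 : Run7.h258.Han.vec k (Pz k - Pz k) = ![0, 0, 1] := by
    rw [sub_self]; rfl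
  rw [e1, e2]
  exact F1c

end Run7.h921.Han.F1
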