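import Mathlib

/-!
# Function theory on the elliptic curve `y ^ 2 = x ^ 3 + x + 1`, project MP_92f1cb_al

`O k = k[λ][x] / (x ^ 2 - λ ^ 2 x + 1 - 2 λ)` = functions regular outside `∞` and `-P0`,
`x1 = λ ^ 2 - x`, `y = 1 + λ x`, `y1 = -1 - λ x1`; `σ = star` exchanges `x` and `x1`.
`Θ : O k → k((t))` = expansion at `∞`, `λ ↦ t⁻¹`.
`L m n` = functions with pole order `≤ m` at `∞` and `≤ n` at `-P0`.
-/

set_option autoImplicit false
set_option linter.all false

namespace Run7.h921.Han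

open Polynomial

section laurent

variable {k : Type} [Field k]

/-- Laurent series with pole order at most `m` -/
def F (k : Type) [Field k] (m : ℤ) : Submodule k (LaurentSeries k) where
  carrier := {z | ∀ i < -m, z.coeff i = 0}
  add_mem' := by
    intro a b ha hb i hi
    rw [HahnSeries.coeff_add, ha i hi, hb i hi, add_zero]
  zero_mem' := fun i _ => HahnSeries.coeff_zero
  smul_mem' := by
    intro c a ha i hi
    rw [HahnSeries.coeff_smul, ha i hi, smul_zero]

theorem mem_F {m : ℤ} {z : LaurentSeries k} : z ∈ F k m ↔ ∀ i < -m, z.coeff i = 0 := Iff.rfl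

theorem F_mono {m n : ℤ} (h : m ≤ n) : F k m ≤ F k n := fun z hz i hi => hz i (by omega)

theorem coeff_mul_lead {m n : ℤ} {z w : LaurentSeries k} (hz : z ∈ F k m) (hw : w ∈ F k n) :
    (z * w).coeff (-(m + n)) = z.coeff (-m) * w.coeff (-n) := by
  rw [HahnSeries.coeff_mul]
  by_cases h : z.coeff (-m) * w.coeff (-n) = 0
  · rw [h]
    refine Finset.sum_eq_zero fun ij hij => ?_
    rw [Finset.mem_addAntidiagonal] at hij
    obtain ⟨h1, h2, h3⟩ := hij
    have h4 : -m ≤ ij.1 := by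
      by_contra h5
      exact h1 (hz _ (not_le.1 h5))
    have h5 : -n ≤ ij.2 := by
      by_contra h5
      exact h2 (hw _ (not_le.1 h5))
    have h6 : ij.1 = -m := by omega
    have h7 : ij.2 = -n := by omega
    rw [h6, h7, h]
  · rw [Finset.sum_eq_single (-m, -n)]
    · intro ij hij hne
      rw [Finset.mem_addAntidiagonal] at hij
      obtain ⟨h1, h2, h3⟩ := hij
      have h4 : -m ≤ ij.1 := by
        by_contra h5
        exact h1 (hz _ (not_le.1 h5))
      have h5 : -n ≤ ij.2 := by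
        by_contra h5
        exact h2 (hw _ (not_le.1 h5))
      exact absurd (Prod.ext (by simp; omega) (by simp; omega)) hne
    · intro hn
      exfalso
      apply hn
      rw [Finset.mem_addAntidiagonal]
      refine ⟨?_, ?_, by ring⟩
      · intro h0
        exact h (by rw [h0, zero_mul])
      · intro h0
        exact h (by rw [h0, mul_zero])

theorem mul_mem_F {m n : ℤ} {z w : LaurentSeries k} (hz : z ∈ F k m) (hw : w ∈ F k n) :
    z * w ∈ F k (m + n) := by
  intro i hi
  rw [HahnSeries.coeff_mul]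
  refine Finset.sum_eq_zero fun ij hij => ?_
  rw [Finset.mem_addAntidiagonal] at hij
  obtain ⟨h1, h2, h3⟩ := hij
  have h4 : -m ≤ ij.1 := by
    by_contra h5
    exact h1 (hz _ (not_le.1 h5))
  have h5 : -n ≤ ij.2 := by
    by_contra h5
    exact h2 (hw _ (not_le.1 h5))
  omega

theorem mem_F_of_coeff {m : ℤ} {z : LaurentSeries k} (h : z ∈ F k (m + 1))
    (h0 : z.coeff (-(m + 1)) = 0) : z ∈ F k m := by
  intro i hi
  by_cases h1 : i < -(m + 1)
  · exact h i h1
  · have : i = -(m + 1) := by omega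
    rw [this, h0]

theorem mem_F_of_mul {m n : ℤ} {z w : LaurentSeries k} (hz : z ∈ F k m) (hz0 : z.coeff (-m) ≠ 0)
    (h : z * w ∈ F k (m + n)) : w ∈ F k n := by
  by_contra hw
  have hw0 : w ≠ 0 := by rintro rfl; exact hw (Submodule.zero_mem _)
  have h1 : w ∈ F k (-w.order) := by
    intro i hi
    exact HahnSeries.coeff_eq_zero_of_lt_order (by omega)
  have h2 : w.coeff (-(-w.order)) ≠ 0 := by
    rw [neg_neg]
    exact fun h => hw0 (HahnSeries.coeff_order_eq_zero.1 h)
  have h3 : n < -w.order := by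
    by_contra h4
    exact hw (F_mono (not_lt.1 h4) h1)
  have h4 := coeff_mul_lead hz h1
  have h5 : (z * w).coeff (-(m + -w.order)) = 0 := h _ (by omega)
  rw [h5] at h4
  exact mul_ne_zero hz0 h2 h4.symm

/-- `t⁻¹` -/
noncomputable def lamL (k : Type) [Field k] : LaurentSeries k := HahnSeries.single (-1) 1

/-- evaluation of polynomials at `t⁻¹` -/
noncomputable def ev (k : Type) [Field k] : k[X] →+* LaurentSeries k :=
  Polynomial.eval₂RingHom (HahnSeries.C) (lamL k)

theorem lamL_pow (n : ℕ) : lamL k ^ n = HahnSeries.single (-(n : ℤ)) 1 := by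
  unfold lamL
  rw [HahnSeries.single_pow]
  simp

theorem ev_X : ev k X = lamL k := by simp [ev]

theorem ev_C (c : k) : ev k (C c) = HahnSeries.C c := by simp [ev]

theorem ev_coeff (p : k[X]) (n : ℕ) : (ev k p).coeff (-(n : ℤ)) = p.coeff n := by
  induction p using Polynomial.induction_on' with
  | add p q hp hq => rw [map_add, HahnSeries.coeff_add, hp, hq, Polynomial.coeff_add]
  | monomial m c =>
    have : ev k (monomial m c) = HahnSeries.C c * HahnSeries.single (-(m : ℤ)) 1 := by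
      rw [← Polynomial.C_mul_X_pow_eq_monomial, map_mul, map_pow, ev_X, ev_C, lamL_pow]
    rw [this, HahnSeries.C_apply, HahnSeries.coeff_single_zero_mul,
      Polynomial.coeff_monomial]
    by_cases h : m = n
    · subst h; simp
    · rw [if_neg h, HahnSeries.coeff_single_of_ne (by omega), mul_zero]

theorem ev_coeff_pos (p : k[X]) (i : ℤ) (hi : 0 < i) : (ev k p).coeff i = 0 := by
  induction p using Polynomial.induction_on' with
  | add p q hp hq => rw [map_add, HahnSeries.coeff_add, hp, hq, add_zero]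
  | monomial m c =>
    have : ev k (monomial m c) = HahnSeries.C c * HahnSeries.single (-(m : ℤ)) 1 := by
      rw [← Polynomial.C_mul_X_pow_eq_monomial, map_mul, map_pow, ev_X, ev_C, lamL_pow]
    rw [this, HahnSeries.C_apply, HahnSeries.coeff_single_zero_mul,
      HahnSeries.coeff_single_of_ne (by omega), mul_zero]

theorem ev_mem_F (p : k[X]) (n : ℕ) : ev k p ∈ F k n ↔ p.natDegree ≤ n := by
  rw [Polynomial.natDegree_le_iff_coeff_eq_zero]
  constructor
  · intro h m hm
    rw [← ev_coeff]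
    exact h _ (by omega)
  · intro h i hi
    obtain ⟨m, hm⟩ : ∃ m : ℕ, i = -(m : ℤ) := ⟨(-i).toNat, by omega⟩
    rw [hm, ev_coeff]
    exact h m (by omega)

theorem ev_injective : Function.Injective (ev k) := by
  rw [injective_iff_map_eq_zero]
  intro p hp
  ext n
  rw [← ev_coeff, hp]
  simp

/-- the coefficients of the power series `s = -2t + t² + t² s²` -/
noncomputable def sc (k : Type) [Field k] : ℕ → k
  | 0 => 0
  | 1 => -2
  | n + 2 => (if n = 0 then 1 else 0) +
      ∑ p ∈ (Finset.HasAntidiagonal.antidiagonal n).attach, sc k p.1.1 * sc k p.1.2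
termination_by n => n
decreasing_by
  · have := Finset.HasAntidiagonal.mem_antidiagonal.1 p.2
    omega
  · have := Finset.HasAntidiagonal.mem_antidiagonal.1 p.2
    omega

theorem sc_zero : sc k 0 = 0 := by rw [sc]
theorem sc_one : sc k 1 = -2 := by rw [sc]
theorem sc_succ (n : ℕ) : sc k (n + 2) = (if n = 0 then 1 else 0) +
    ∑ p ∈ Finset.HasAntidiagonal.antidiagonal n, sc k p.1 * sc k p.2 := by
  rw [sc, Finset.sum_attach (Finset.HasAntidiagonal.antidiagonal n) fun p => sc k p.1 * sc k p.2]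

noncomputable def sS (k : Type) [Field k] : PowerSeries k := PowerSeries.mk (sc k)

theorem sS_eq : sS k = PowerSeries.C (-2 : k) * PowerSeries.X + PowerSeries.X ^ 2 +
    PowerSeries.X ^ 2 * (sS k * sS k) := by
  ext n
  rw [map_add, map_add, PowerSeries.coeff_C_mul, PowerSeries.coeff_X, PowerSeries.coeff_X_pow,
    PowerSeries.coeff_X_pow_mul']
  unfold sS
  rw [PowerSeries.coeff_mk]
  match n with
  | 0 => simp [sc_zero]
  | 1 => simp [sc_one]
  | n + 2 =>
    have e1 : ¬ (n + 2 = 1) := by omega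
    have e2 : (n + 2 = 2) ↔ n = 0 := by omega
    have e3 : 2 ≤ n + 2 := by omega
    rw [sc_succ, if_neg e1, if_pos e3, PowerSeries.coeff_mul]
    simp only [PowerSeries.coeff_mk, Nat.add_sub_cancel, mul_zero, zero_add, e2]

/-- the Laurent series of `x1` -/
noncomputable def sL (k : Type) [Field k] : LaurentSeries k := HahnSeries.ofPowerSeries ℤ k (sS k)

theorem sL_coeff (n : ℕ) : (sL k).coeff (n : ℤ) = sc k n := by
  unfold sL
  have : (HahnSeries.ofPowerSeries ℤ k (sS k)).coeff ((n : ℕ) : ℤ) = PowerSeries.coeff n (sS k) :=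
    HahnSeries.ofPowerSeries_apply_coeff _ _
  rw [this]
  simp [sS]

theorem sL_mem : sL k ∈ F k 0 := by
  intro i hi
  unfold sL
  rw [HahnSeries.ofPowerSeries_apply]
  apply HahnSeries.embDomain_notin_range
  rintro ⟨n, hn⟩
  simp at hn
  omega

theorem sL_eq : lamL k ^ 2 * sL k = sL k * sL k + 1 - 2 * lamL k := by
  have h1 : sL k = (-2) * HahnSeries.single (1 : ℤ) (1 : k) +
      HahnSeries.single (2 : ℤ) (1 : k) + HahnSeries.single (2 : ℤ) (1 : k) * (sL k * sL k) := by
    have h := congrArg (HahnSeries.ofPowerSeries ℤ k) (sS_eq (k := k))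
    simp only [map_add, map_mul, HahnSeries.ofPowerSeries_C, HahnSeries.ofPowerSeries_X,
      HahnSeries.ofPowerSeries_X_pow] at h
    have h2 : (HahnSeries.C (-2 : k) : LaurentSeries k) = -2 := by rw [map_neg, map_ofNat]
    rw [h2] at h
    simp only [Nat.cast_ofNat] at h
    exact h
  have h3 : lamL k ^ 2 * HahnSeries.single (1 : ℤ) (1 : k) = lamL k := by
    rw [lamL_pow, HahnSeries.single_mul_single]
    unfold lamL
    norm_num
  have h4 : lamL k ^ 2 * HahnSeries.single (2 : ℤ) (1 : k) = 1 := by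
    rw [lamL_pow, HahnSeries.single_mul_single]
    norm_num
  calc lamL k ^ 2 * sL k = lamL k ^ 2 * ((-2) * HahnSeries.single (1 : ℤ) (1 : k) +
      HahnSeries.single (2 : ℤ) (1 : k) + HahnSeries.single (2 : ℤ) (1 : k) * (sL k * sL k)) := by
        rw [← h1]
    _ = _ := by linear_combination (-2) * h3 + h4 + (sL k * sL k) * h4

end laurent

section curve

variable (k : Type) [Field k]

/-- functions regular outside `∞` and `-P0` -/
abbrev O : Type := QuadraticAlgebra k[X] (2 * X - 1) (X ^ 2)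

variable {k}

namespace O

/-- `λ` -/
noncomputable def lam : O k := ⟨X, 0⟩
/-- `x` -/
noncomputable def x0 : O k := ⟨0, 1⟩
/-- `y` -/
noncomputable def y0 : O k := ⟨1, X⟩
/-- `x'`, the function `x (u + P0)` -/
noncomputable def x1 : O k := ⟨X ^ 2, -1⟩
/-- `y'`, the function `y (u + P0)` -/
noncomputable def y1 : O k := ⟨-1 - X ^ 3, X⟩

theorem ext' {f g : O k} (h1 : f.re = g.re) (h2 : f.im = g.im) : f = g :=
  QuadraticAlgebra.ext h1 h2

theorem y0_eq : (y0 : O k) = 1 + lam * x0 := by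
  apply ext' <;> simp [y0, lam, x0, QuadraticAlgebra.re_one, QuadraticAlgebra.im_one]

theorem x1_eq : (x1 : O k) = lam ^ 2 - x0 := by
  have : (lam ^ 2 : O k) = lam * lam := pow_two _
  rw [this]
  apply ext' <;> simp [x1, lam, x0, pow_two]

theorem y1_eq : (y1 : O k) = -1 - lam * x1 := by
  apply ext' <;> simp [y1, x1, lam, QuadraticAlgebra.re_one, QuadraticAlgebra.im_one]
  ring

theorem x0_mul_x1 : (x0 * x1 : O k) = 1 - 2 * lam := by
  have : (1 - 2 * lam : O k) = 1 - lam - lam := by ring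
  rw [this]
  apply ext' <;> simp [x1, lam, x0, QuadraticAlgebra.re_one, QuadraticAlgebra.im_one]
  ring

theorem x0_sq : (x0 ^ 2 : O k) = lam ^ 2 * x0 - 1 + 2 * lam := by
  have h1 := x0_mul_x1 (k := k)
  rw [x1_eq] at h1
  linear_combination -h1

theorem x1_sq : (x1 ^ 2 : O k) = lam ^ 2 * x1 - 1 + 2 * lam := by
  have h1 := x0_mul_x1 (k := k)
  have h2 := x1_eq (k := k)
  linear_combination -h1 + x1 * h2

theorem y0_sq : (y0 ^ 2 : O k) = x0 ^ 3 + x0 + 1 := by
  rw [y0_eq]
  linear_combination -x0 * x0_sq (k := k)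

theorem y1_sq : (y1 ^ 2 : O k) = x1 ^ 3 + x1 + 1 := by
  rw [y1_eq]
  linear_combination -x1 * x1_sq (k := k)

/-- the `k`-structure: `c • f` -/
theorem smul_eq (c : k) (f : O k) : c • f = (⟨C c, 0⟩ : O k) * f := by
  apply ext' <;> simp [Polynomial.smul_eq_C_mul]

theorem C_eq (c : k) : (⟨C c, 0⟩ : O k) = c • (1 : O k) := by
  apply ext' <;> simp [Polynomial.smul_eq_C_mul, QuadraticAlgebra.re_one, QuadraticAlgebra.im_one]

theorem algebraMap_eq' (c : k) : algebraMap k (O k) c = ⟨C c, 0⟩ := by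
  rw [Algebra.algebraMap_eq_smul_one, C_eq]

/-- the involution `u ↦ -P0 - u` -/
noncomputable def sig : O k →+* O k := starRingEnd (O k)

theorem sig_mk (a b : k[X]) : sig (⟨a, b⟩ : O k) = ⟨a + X ^ 2 * b, -b⟩ := rfl

theorem sig_sig (f : O k) : sig (sig f) = f := star_star f

theorem sig_lam : sig (lam : O k) = lam := by
  unfold lam; rw [sig_mk]; simp

theorem sig_x0 : sig (x0 : O k) = x1 := by
  unfold x0 x1; rw [sig_mk]; simp

theorem sig_x1 : sig (x1 : O k) = x0 := by
  rw [← sig_x0, sig_sig]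

theorem sig_y0 : sig (y0 : O k) = -y1 := by
  unfold y0 y1; rw [sig_mk]
  apply ext' <;> simp
  ring

theorem sig_y1 : sig (y1 : O k) = -y0 := by
  have := congrArg sig (sig_y0 (k := k))
  rw [sig_sig, map_neg] at this
  rw [this, neg_neg]

theorem sig_smul (c : k) (f : O k) : sig (c • f) = c • sig f := by
  rw [smul_eq, smul_eq, map_mul, sig_mk]
  simp

/-- `σ` as a `k`-linear map -/
noncomputable def sigL : O k →ₗ[k] O k where
  toFun := sig
  map_add' := map_add sig
  map_smul' := sig_smul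

end O

open O

/-- the Laurent series of `x` -/
noncomputable def xL (k : Type) [Field k] : LaurentSeries k := lamL k ^ 2 - sL k

theorem xL_sq : xL k * xL k = (2 * lamL k - 1) + lamL k ^ 2 * xL k := by
  unfold xL
  linear_combination -(sL_eq (k := k))

/-- the expansion at `∞` -/
noncomputable def Th (k : Type) [Field k] : O k →+* LaurentSeries k where
  toFun f := ev k f.re + ev k f.im * xL k
  map_zero' := by simp
  map_one' := by simp [QuadraticAlgebra.re_one, QuadraticAlgebra.im_one]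
  map_add' f g := by
    rw [QuadraticAlgebra.re_add, QuadraticAlgebra.im_add, map_add, map_add]
    ring
  map_mul' f g := by
    rw [QuadraticAlgebra.re_mul, QuadraticAlgebra.im_mul]
    simp only [map_add, map_mul, map_sub, map_pow, map_one, ev_X, map_ofNat]
    linear_combination -(ev k f.im * ev k g.im) * xL_sq (k := k)

theorem Th_mk (a b : k[X]) : Th k ⟨a, b⟩ = ev k a + ev k b * xL k := rfl

theorem Th_lam : Th k lam = lamL k := by
  unfold lam; rw [Th_mk, ev_X, map_zero, zero_mul, add_zero]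

theorem Th_x0 : Th k x0 = xL k := by
  unfold x0; rw [Th_mk, map_zero, map_one, one_mul, zero_add]

theorem Th_x1 : Th k x1 = sL k := by
  rw [x1_eq, map_sub, map_pow, Th_lam, Th_x0]
  unfold xL; ring

theorem Th_smul (c : k) (f : O k) : Th k (c • f) = c • Th k f := by
  rw [smul_eq, map_mul, Th_mk, ev_C, map_zero, zero_mul, add_zero, HahnSeries.C_apply,
    HahnSeries.single_zero_mul_eq_smul]

theorem lamL_mem : lamL k ∈ F k 1 := by
  intro i hi
  exact HahnSeries.coeff_single_of_ne (by omega)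

theorem lamL_coeff : (lamL k).coeff (-1) = 1 := HahnSeries.coeff_single_same _ _

theorem lamL_pow_mem (n : ℕ) : lamL k ^ n ∈ F k n := by
  intro i hi
  rw [lamL_pow]
  exact HahnSeries.coeff_single_of_ne (by omega)

theorem lamL_pow_coeff (n : ℕ) : (lamL k ^ n).coeff (-(n : ℤ)) = 1 := by
  rw [lamL_pow]
  exact HahnSeries.coeff_single_same _ _

theorem one_mem_F : (1 : LaurentSeries k) ∈ F k 0 := by
  have := lamL_pow_mem (k := k) 0
  simpa using this

theorem one_coeff : (1 : LaurentSeries k).coeff 0 = 1 := by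
  have := lamL_pow_coeff (k := k) 0
  simpa using this

theorem sL_coeff_zero : (sL k).coeff 0 = 0 := by
  have := sL_coeff (k := k) 0
  rw [sc_zero] at this
  exact_mod_cast this

theorem sL_coeff_one : (sL k).coeff 1 = -2 := by
  have := sL_coeff (k := k) 1
  rw [sc_one] at this
  exact_mod_cast this

theorem xL_mem : xL k ∈ F k 2 := by
  unfold xL
  exact Submodule.sub_mem _ (lamL_pow_mem 2) (F_mono (by norm_num) sL_mem)

theorem xL_coeff : (xL k).coeff (-2) = 1 := by
  unfold xL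
  have h1 := lamL_pow_coeff (k := k) 2
  have h2 : (sL k).coeff (-2) = 0 := sL_mem _ (by norm_num)
  rw [HahnSeries.coeff_sub, h2, sub_zero]
  exact_mod_cast h1

/-- the product `λ x1` at infinity -/
theorem lamsL_coeff : (lamL k * sL k).coeff 0 = -2 := by
  unfold lamL
  rw [HahnSeries.coeff_single_mul, one_mul]
  norm_num [sL_coeff_one]

theorem lamsL_mem : lamL k * sL k ∈ F k 0 := by
  intro i hi
  unfold lamL
  rw [HahnSeries.coeff_single_mul, one_mul]
  by_cases h : i = -1
  · rw [h]; norm_num [sL_coeff_zero]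
  · exact sL_mem _ (by omega)

theorem Th_y1 : Th k y1 = -1 - lamL k * sL k := by
  rw [y1_eq, map_sub, map_neg, map_one, map_mul, Th_lam, Th_x1]

theorem Th_y0 : Th k y0 = 1 + lamL k * xL k := by
  rw [y0_eq, map_add, map_one, map_mul, Th_lam, Th_x0]

theorem Th_y0_mem : Th k y0 ∈ F k 3 := by
  rw [Th_y0]
  exact Submodule.add_mem _ (F_mono (by norm_num) one_mem_F)
    (mul_mem_F (m := 1) (n := 2) lamL_mem xL_mem)

theorem Th_y0_coeff : (Th k y0).coeff (-3) = 1 := by
  rw [Th_y0, HahnSeries.coeff_add]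
  have h1 : (1 : LaurentSeries k).coeff (-3) = 0 := one_mem_F _ (by norm_num)
  have h2 := coeff_mul_lead (m := 1) (n := 2) (lamL_mem (k := k)) xL_mem
  rw [lamL_coeff, xL_coeff, mul_one] at h2
  rw [h1, zero_add]
  exact h2

theorem Th_y1_mem : Th k y1 ∈ F k 0 := by
  rw [Th_y1]
  exact Submodule.sub_mem _ (Submodule.neg_mem _ one_mem_F) lamsL_mem

theorem Th_y1_coeff : (Th k y1).coeff 0 = 1 := by
  rw [Th_y1, HahnSeries.coeff_sub, HahnSeries.coeff_neg, one_coeff, lamsL_coeff]
  norm_num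

/-- pole order at most `m` at `∞` and at most `n` at `-P0` -/
noncomputable def L (k : Type) [Field k] (m n : ℕ) : Submodule k (O k) where
  carrier := {f | Th k f ∈ F k m ∧ Th k (sig f) ∈ F k n}
  add_mem' := by
    rintro a b ⟨ha, ha'⟩ ⟨hb, hb'⟩
    refine ⟨?_, ?_⟩
    · rw [map_add]; exact Submodule.add_mem _ ha hb
    · rw [map_add, map_add]; exact Submodule.add_mem _ ha' hb'
  zero_mem' := by
    refine ⟨?_, ?_⟩
    · rw [map_zero]; exact Submodule.zero_mem _
    · rw [map_zero, map_zero]; exact Submodule.zero_mem _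
  smul_mem' := by
    rintro c a ⟨ha, ha'⟩
    refine ⟨?_, ?_⟩
    · rw [Th_smul]; exact Submodule.smul_mem _ _ ha
    · rw [sig_smul, Th_smul]; exact Submodule.smul_mem _ _ ha'

theorem mem_L {m n : ℕ} {f : O k} : f ∈ L k m n ↔ Th k f ∈ F k m ∧ Th k (sig f) ∈ F k n := Iff.rfl

theorem sig_mem_L {m n : ℕ} {f : O k} : sig f ∈ L k n m ↔ f ∈ L k m n := by
  rw [mem_L, mem_L, sig_sig, and_comm]

theorem L_mono {m n m' n' : ℕ} (hm : m ≤ m') (hn : n ≤ n') : L k m n ≤ L k m' n' := fun f hf =>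
  ⟨F_mono (by exact_mod_cast hm) hf.1, F_mono (by exact_mod_cast hn) hf.2⟩

theorem L_mul {m n m' n' : ℕ} {f g : O k} (hf : f ∈ L k m n) (hg : g ∈ L k m' n') :
    f * g ∈ L k (m + m') (n + n') := by
  refine ⟨?_, ?_⟩
  · rw [map_mul]; push_cast; exact mul_mem_F hf.1 hg.1
  · rw [map_mul, map_mul]; push_cast; exact mul_mem_F hf.2 hg.2

theorem one_mem_L : (1 : O k) ∈ L k 0 0 := by
  refine ⟨?_, ?_⟩
  · rw [map_one]; exact_mod_cast one_mem_F
  · rw [map_one, map_one]; exact_mod_cast one_mem_F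

theorem lam_mem_L : (lam : O k) ∈ L k 1 1 := by
  refine ⟨?_, ?_⟩
  · rw [Th_lam]; exact_mod_cast lamL_mem
  · rw [sig_lam, Th_lam]; exact_mod_cast lamL_mem

theorem x0_mem_L : (x0 : O k) ∈ L k 2 0 := by
  refine ⟨?_, ?_⟩
  · rw [Th_x0]; exact_mod_cast xL_mem
  · rw [sig_x0, Th_x1]; exact_mod_cast sL_mem

theorem y0_mem_L : (y0 : O k) ∈ L k 3 0 := by
  refine ⟨?_, ?_⟩
  · exact_mod_cast Th_y0_mem
  · rw [sig_y0, map_neg]; exact_mod_cast Submodule.neg_mem _ Th_y1_mem

theorem x1_mem_L : (x1 : O k) ∈ L k 0 2 := by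
  rw [← sig_x0, sig_mem_L]; exact x0_mem_L

theorem y1_mem_L : (y1 : O k) ∈ L k 0 3 := by
  have : (y1 : O k) = -sig y0 := by rw [sig_y0, neg_neg]
  rw [this]
  exact Submodule.neg_mem _ (sig_mem_L.2 y0_mem_L)

/-- leading coefficient at `∞` for pole order `m` -/
noncomputable def lc (m : ℕ) : O k →ₗ[k] k where
  toFun f := (Th k f).coeff (-(m : ℤ))
  map_add' f g := by rw [map_add, HahnSeries.coeff_add]
  map_smul' c f := by rw [Th_smul, HahnSeries.coeff_smul, RingHom.id_apply]

/-- leading coefficient at `-P0` for pole order `n` -/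
noncomputable def lc' (n : ℕ) : O k →ₗ[k] k := lc n ∘ₗ sigL

theorem lc_apply (m : ℕ) (f : O k) : lc m f = (Th k f).coeff (-(m : ℤ)) := rfl

theorem lc'_apply (m : ℕ) (f : O k) : lc' m f = lc m (sig f) := rfl

theorem lc_mul {m n m' n' : ℕ} {f g : O k} (hf : f ∈ L k m n) (hg : g ∈ L k m' n') :
    lc (m + m') (f * g) = lc m f * lc m' g := by
  rw [lc_apply, lc_apply, lc_apply, map_mul]
  push_cast
  exact coeff_mul_lead hf.1 hg.1

theorem lc'_mul {m n m' n' : ℕ} {f g : O k} (hf : f ∈ L k m n) (hg : g ∈ L k m' n') :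
    lc' (n + n') (f * g) = lc' n f * lc' n' g := by
  rw [lc'_apply, lc'_apply, lc'_apply, map_mul]
  exact lc_mul (sig_mem_L.2 hf) (sig_mem_L.2 hg)

theorem lc_one : lc 0 (1 : O k) = 1 := by
  rw [lc_apply, map_one]; exact_mod_cast one_coeff

theorem lc_lam : lc 1 (lam : O k) = 1 := by
  rw [lc_apply, Th_lam]; exact_mod_cast lamL_coeff

theorem lc_x0 : lc 2 (x0 : O k) = 1 := by
  rw [lc_apply, Th_x0]; exact_mod_cast xL_coeff

theorem lc_y0 : lc 3 (y0 : O k) = 1 := by
  rw [lc_apply]; exact_mod_cast Th_y0_coeff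

theorem lc_x1 : lc 0 (x1 : O k) = 0 := by
  rw [lc_apply, Th_x1]; exact_mod_cast sL_coeff_zero

theorem lc_y1 : lc 0 (y1 : O k) = 1 := by
  rw [lc_apply]; exact_mod_cast Th_y1_coeff

theorem lc'_one : lc' 0 (1 : O k) = 1 := by rw [lc'_apply, map_one, lc_one]
theorem lc'_lam : lc' 1 (lam : O k) = 1 := by rw [lc'_apply, sig_lam, lc_lam]
theorem lc'_x1 : lc' 2 (x1 : O k) = 1 := by rw [lc'_apply, sig_x1, lc_x0]
theorem lc'_y1 : lc' 3 (y1 : O k) = -1 := by rw [lc'_apply, sig_y1, map_neg, lc_y0]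
theorem lc'_x0 : lc' 0 (x0 : O k) = 0 := by rw [lc'_apply, sig_x0, lc_x1]
theorem lc'_y0 : lc' 0 (y0 : O k) = -1 := by rw [lc'_apply, sig_y0, map_neg, lc_y1]

/-- the kernel of the leading coefficient -/
theorem mem_L_of_lc {m n : ℕ} {f : O k} (hf : f ∈ L k (m + 1) n) (h : lc (m + 1) f = 0) :
    f ∈ L k m n := by
  refine ⟨mem_F_of_coeff ?_ ?_, hf.2⟩
  · exact_mod_cast hf.1
  · rw [lc_apply] at h; exact_mod_cast h

theorem lc_eq_zero {m n : ℕ} {f : O k} (hf : f ∈ L k m n) : lc (m + 1) f = 0 := by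
  rw [lc_apply]
  exact hf.1 _ (by push_cast; omega)

theorem mem_L_iff_lc {m n : ℕ} {f : O k} (hf : f ∈ L k (m + 1) n) :
    f ∈ L k m n ↔ lc (m + 1) f = 0 := ⟨lc_eq_zero, mem_L_of_lc hf⟩

theorem mem_L_of_lc' {m n : ℕ} {f : O k} (hf : f ∈ L k m (n + 1)) (h : lc' (n + 1) f = 0) :
    f ∈ L k m n := sig_mem_L.1 (mem_L_of_lc (sig_mem_L.2 hf) h)

theorem lc'_eq_zero {m n : ℕ} {f : O k} (hf : f ∈ L k m n) : lc' (n + 1) f = 0 :=
  lc_eq_zero (sig_mem_L.2 hf)

theorem mem_L_iff_lc' {m n : ℕ} {f : O k} (hf : f ∈ L k m (n + 1)) :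
    f ∈ L k m n ↔ lc' (n + 1) f = 0 := ⟨lc'_eq_zero, mem_L_of_lc' hf⟩

/-- a function with pole order exactly `m + 1` at `∞` -/
theorem exists_lc {m n : ℕ} (h : 1 ≤ m + n) : ∃ f ∈ L k (m + 1) n, lc (m + 1) f = 1 := by
  -- powers of `x`
  have hx : ∀ i : ℕ, (x0 ^ i : O k) ∈ L k (2 * i) 0 ∧ lc (2 * i) (x0 ^ i : O k) = 1 := by
    intro i
    induction i with
    | zero => simpa using ⟨one_mem_L, lc_one⟩
    | succ i ih =>
      have h1 := L_mul ih.1 x0_mem_L
      have h2 := lc_mul ih.1 x0_mem_L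
      rw [ih.2, lc_x0, mul_one] at h2
      rw [← pow_succ] at h1 h2
      exact ⟨h1, h2⟩
  rcases Nat.even_or_odd' m with ⟨i, hi | hi⟩
  · by_cases h0 : i = 0
    · subst h0
      simp only [mul_zero] at hi
      subst hi
      exact ⟨lam, L_mono le_rfl (by omega) lam_mem_L, lc_lam⟩
    · obtain ⟨j, rfl⟩ : ∃ j, i = j + 1 := ⟨i - 1, by omega⟩
      have h1 := L_mul (hx j).1 y0_mem_L
      have h2 := lc_mul (hx j).1 y0_mem_L
      rw [(hx j).2, lc_y0, mul_one] at h2
      have e : m + 1 = 2 * j + 3 := by omega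
      rw [e]
      exact ⟨_, L_mono le_rfl (Nat.zero_le _) h1, h2⟩
  · have e : m + 1 = 2 * (i + 1) := by omega
    rw [e]
    exact ⟨_, L_mono le_rfl (Nat.zero_le _) (hx (i + 1)).1, (hx (i + 1)).2⟩

theorem exists_lc' {m n : ℕ} (h : 1 ≤ m + n) : ∃ f ∈ L k m (n + 1), lc' (n + 1) f = 1 := by
  obtain ⟨f, hf, h1⟩ := exists_lc (k := k) (m := n) (n := m) (by omega)
  refine ⟨sig f, sig_mem_L.2 hf, ?_⟩
  rw [lc'_apply, sig_sig, h1]

theorem Th_algebraMap (a : k[X]) : Th k ⟨a, 0⟩ = ev k a := by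
  rw [Th_mk, map_zero, zero_mul, add_zero]

/-- the functions with at most one simple pole are constant -/
theorem L_one_zero {f : O k} (hf : f ∈ L k 1 0) : ∃ c : k, f = ⟨C c, 0⟩ := by
  obtain ⟨a, b⟩ := f
  -- trace and norm
  have htr : (⟨a, b⟩ + sig ⟨a, b⟩ : O k) = ⟨2 * a + X ^ 2 * b, 0⟩ := by
    rw [sig_mk]
    apply ext' <;> simp
    ring
  have hnm : (⟨a, b⟩ * sig ⟨a, b⟩ : O k) = ⟨a ^ 2 + X ^ 2 * a * b - (2 * X - 1) * b ^ 2, 0⟩ := by
    rw [sig_mk]
    apply ext' <;> simp <;> ring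
  have h1 : (2 * a + X ^ 2 * b).natDegree ≤ 1 := by
    rw [← ev_mem_F, ← Th_algebraMap, ← htr, map_add]
    exact Submodule.add_mem _ hf.1 (F_mono (by norm_num) hf.2)
  have h2 : (a ^ 2 + X ^ 2 * a * b - (2 * X - 1) * b ^ 2).natDegree ≤ 1 := by
    rw [← ev_mem_F, ← Th_algebraMap, ← hnm, map_mul]
    have := mul_mem_F hf.1 hf.2
    exact_mod_cast this
  have h3 : (2 * a + X ^ 2 * b) ^ 2 - 4 * (a ^ 2 + X ^ 2 * a * b - (2 * X - 1) * b ^ 2) =
      b ^ 2 * (X ^ 4 + 8 * X - 4) := by ring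
  have h4 : (b ^ 2 * (X ^ 4 + 8 * X - 4)).natDegree ≤ 2 := by
    rw [← h3]
    refine (natDegree_sub_le _ _).trans (max_le ?_ ?_)
    · exact (natDegree_pow_le).trans (by omega)
    · refine natDegree_mul_le.trans ?_
      have : (4 : k[X]).natDegree = 0 := natDegree_ofNat 4
      omega
  have h5 : b = 0 := by
    by_contra hb
    have hq : (X ^ 4 + 8 * X - 4 : k[X]).natDegree = 4 := by
      have : (X ^ 4 + 8 * X - 4 : k[X]) = X ^ 4 + (C 8 * X + C (-4)) := by
        simp only [map_ofNat, map_neg]; ring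
      rw [this]
      exact natDegree_add_eq_left_of_natDegree_lt (by
        rw [natDegree_X_pow]
        exact lt_of_le_of_lt natDegree_linear_le (by norm_num)) |>.trans (natDegree_X_pow 4)
    have hq0 : (X ^ 4 + 8 * X - 4 : k[X]) ≠ 0 := by
      intro h; rw [h] at hq; simp at hq
    rw [natDegree_mul (pow_ne_zero 2 hb) hq0, hq] at h4
    omega
  subst h5
  have h6 : a.natDegree ≤ 0 := by
    rw [← ev_mem_F, ← Th_algebraMap]
    have h7 := hf.2
    rw [sig_mk] at h7
    simpa using h7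
  refine ⟨a.coeff 0, ?_⟩
  rw [← eq_C_of_natDegree_le_zero h6]

end curve

end Run7.h921.Han
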