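import Mathlib
import Pool.Agent.Run7.h258.Han.Iface

/-! Linear algebra of the Koszul complex of two linear forms on the plane. -/

set_option autoImplicit false

namespace Run7.h921.Han.Kos

open Run7.h258.Han

variable {k : Type} [Field k]

lemma le_eq_dot (s p : Fin 3 → k) : le k s p = s ⬝ᵥ p := by
  simp [le, dotProduct, Fin.sum_univ_three]

lemma le_add_right (s p q : Fin 3 → k) : le k s (p + q) = le k s p + le k s q := by
  rw [le_eq_dot, le_eq_dot, le_eq_dot, dotProduct_add]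

lemma le_smul_right (c : k) (s p : Fin 3 → k) : le k s (c • p) = c * le k s p := by
  rw [le_eq_dot, le_eq_dot, dotProduct_smul, smul_eq_mul]

/-- a dual pair of bases, the first two forms being given. -/
lemma exists_basis (l1 l2 : Fin 3 → k)
    (indep : ∀ a b : k, a • l1 + b • l2 = 0 → a = 0 ∧ b = 0) :
    ∃ l3 q1 q2 q3 : Fin 3 → k, le k l1 q1 = 1 ∧ le k l1 q2 = 0 ∧ le k l1 q3 = 0 ∧
      le k l2 q1 = 0 ∧ le k l2 q2 = 1 ∧ le k l2 q3 = 0 ∧
      le k l3 q1 = 0 ∧ le k l3 q2 = 0 ∧ le k l3 q3 = 1 ∧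
      (∀ v : Fin 3 → k, v = le k v q1 • l1 + le k v q2 • l2 + le k v q3 • l3) ∧
      (∀ p : Fin 3 → k, p = le k l1 p • q1 + le k l2 p • q2 + le k l3 p • q3) := by
  have hli : LinearIndependent k ![l1, l2] := LinearIndependent.pair_iff.mpr indep
  obtain ⟨l3, hl3⟩ := exists_linearIndependent_snoc_of_lt_finrank hli (by simp)
  let T : Matrix (Fin 3) (Fin 3) k := Matrix.of ![l1, l2, l3]
  have hT : IsUnit T := by
    rw [← Matrix.linearIndependent_rows_iff_isUnit]
    have e : T.row = (Fin.snoc ![l1, l2] l3 : Fin 3 → Fin 3 → k) := by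
      ext i j
      fin_cases i <;> rfl
    rw [e]
    exact hl3
  have hTd : IsUnit T.det := (Matrix.isUnit_iff_isUnit_det T).mp hT
  have h1 : T * T⁻¹ = 1 := Matrix.mul_nonsing_inv T hTd
  have h2 : T⁻¹ * T = 1 := Matrix.nonsing_inv_mul T hTd
  refine ⟨l3, fun i => T⁻¹ i 0, fun i => T⁻¹ i 1, fun i => T⁻¹ i 2, ?_, ?_, ?_, ?_, ?_, ?_, ?_, ?_,
    ?_, ?_, ?_⟩
  · have := congrFun (congrFun h1 0) 0
    rw [Matrix.mul_apply] at this
    rw [le_eq_dot]; simpa [T, dotProduct] using this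
  · have := congrFun (congrFun h1 0) 1
    rw [Matrix.mul_apply] at this
    rw [le_eq_dot]; simpa [T, dotProduct] using this
  · have := congrFun (congrFun h1 0) 2
    rw [Matrix.mul_apply] at this
    rw [le_eq_dot]; simpa [T, dotProduct] using this
  · have := congrFun (congrFun h1 1) 0
    rw [Matrix.mul_apply] at this
    rw [le_eq_dot]; simpa [T, dotProduct] using this
  · have := congrFun (congrFun h1 1) 1
    rw [Matrix.mul_apply] at this
    rw [le_eq_dot]; simpa [T, dotProduct] using this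
  · have := congrFun (congrFun h1 1) 2
    rw [Matrix.mul_apply] at this
    rw [le_eq_dot]; simpa [T, dotProduct] using this
  · have := congrFun (congrFun h1 2) 0
    rw [Matrix.mul_apply] at this
    rw [le_eq_dot]; simpa [T, dotProduct] using this
  · have := congrFun (congrFun h1 2) 1
    rw [Matrix.mul_apply] at this
    rw [le_eq_dot]; simpa [T, dotProduct] using this
  · have := congrFun (congrFun h1 2) 2
    rw [Matrix.mul_apply] at this
    rw [le_eq_dot]; simpa [T, dotProduct] using this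
  · intro v
    have h3 : Matrix.vecMul (Matrix.vecMul v T⁻¹) T = v := by
      rw [Matrix.vecMul_vecMul, h2, Matrix.vecMul_one]
    conv_lhs => rw [← h3]
    ext j
    rw [Matrix.vecMul, dotProduct, Fin.sum_univ_three]
    simp only [le_eq_dot]
    rfl
  · intro p
    have h3 : Matrix.mulVec T⁻¹ (Matrix.mulVec T p) = p := by
      rw [Matrix.mulVec_mulVec, h2, Matrix.one_mulVec]
    conv_lhs => rw [← h3]
    ext j
    rw [Matrix.mulVec, dotProduct, Fin.sum_univ_three]
    simp only [le_eq_dot, Pi.add_apply, Pi.smul_apply, smul_eq_mul]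
    rw [mul_comm (T⁻¹ j 0), mul_comm (T⁻¹ j 1), mul_comm (T⁻¹ j 2)]
    rfl

lemma sm_comm (s t : Fin 3 → k) : sm s t = sm t s := by
  ext i; fin_cases i <;> simp [sm] <;> ring

/-- first syzygies: `s l1 + t l2 = 0`. -/
lemma syz (l1 l2 : Fin 3 → k)
    (indep : ∀ a b : k, a • l1 + b • l2 = 0 → a = 0 ∧ b = 0) (s t : Fin 3 → k)
    (h : sm s l1 + sm t l2 = 0) : ∃ c : k, s = c • l2 ∧ t = -(c • l1) := by
  obtain ⟨l3, q1, q2, q3, h11, h12, h13, h21, h22, h23, h31, h32, h33, hb, -⟩ :=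
    exists_basis l1 l2 indep
  have hx : ∀ x : Fin 3 → k, le k s x * le k l1 x + le k t x * le k l2 x = 0 := by
    intro x
    rw [← qe_sm, ← qe_sm, ← qe_add, h, qe_zero]
  have e1 := hx q1
  have e2 := hx q2
  have e3 := hx (q1 + q2)
  have e4 := hx (q1 + q3)
  have e5 := hx (q2 + q3)
  simp only [le_add_right, h11, h12, h13, h21, h22, h23] at e1 e2 e3 e4 e5
  refine ⟨le k s q2, ?_, ?_⟩
  · have a1 : le k s q1 = 0 := by linear_combination e1
    have a3 : le k s q3 = 0 := by linear_combination e4 - e1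
    conv_lhs => rw [hb s, a1, a3]
    simp
  · have a1 : le k t q1 = - le k s q2 := by linear_combination e3 - e1 - e2
    have a2 : le k t q2 = 0 := by linear_combination e2
    have a3 : le k t q3 = 0 := by linear_combination e5 - e2
    conv_lhs => rw [hb t, a1, a2, a3]
    simp

/-- linear forms vanishing at `p`. -/
lemma lin (l1 l2 : Fin 3 → k)
    (indep : ∀ a b : k, a • l1 + b • l2 = 0 → a = 0 ∧ b = 0) (p : Fin 3 → k) (hp : p ≠ 0)
    (hp1 : le k l1 p = 0) (hp2 : le k l2 p = 0) (v : Fin 3 → k) (h : le k v p = 0) :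
    ∃ a b : k, v = a • l1 + b • l2 := by
  obtain ⟨l3, q1, q2, q3, h11, h12, h13, h21, h22, h23, h31, h32, h33, hb, hc⟩ :=
    exists_basis l1 l2 indep
  have h1 : p = le k l3 p • q3 := by
    conv_lhs => rw [hc p, hp1, hp2]
    simp
  have h2 : le k l3 p ≠ 0 := by
    intro h2
    rw [h2, zero_smul] at h1
    exact hp h1
  have h3 : le k v q3 = 0 := by
    rw [h1, le_smul_right] at h
    exact (mul_eq_zero.mp h).resolve_left h2
  refine ⟨le k v q1, le k v q2, ?_⟩
  conv_lhs => rw [hb v, h3]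
  simp

/-- every quadratic form is a combination of products of two coordinates. -/
lemma quad_expand (w : Fin 6 → k) : w =
    w 0 • sm (Pi.single 0 1) (Pi.single 0 1) + w 1 • sm (Pi.single 0 1) (Pi.single 1 1) +
    w 2 • sm (Pi.single 0 1) (Pi.single 2 1) + w 3 • sm (Pi.single 1 1) (Pi.single 1 1) +
    w 4 • sm (Pi.single 1 1) (Pi.single 2 1) + w 5 • sm (Pi.single 2 1) (Pi.single 2 1) := by
  ext i
  fin_cases i <;> simp [sm]

/-- quadratic forms vanishing at `p`. -/
lemma quad (l1 l2 : Fin 3 → k)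
    (indep : ∀ a b : k, a • l1 + b • l2 = 0 → a = 0 ∧ b = 0) (p : Fin 3 → k) (hp : p ≠ 0)
    (hp1 : le k l1 p = 0) (hp2 : le k l2 p = 0) (w : Fin 6 → k) (h : qe k w p = 0) :
    ∃ s t : Fin 3 → k, w = sm s l1 + sm t l2 := by
  obtain ⟨l3, q1, q2, q3, h11, h12, h13, h21, h22, h23, h31, h32, h33, hb, hc⟩ :=
    exists_basis l1 l2 indep
  have h1 : p = le k l3 p • q3 := by
    conv_lhs => rw [hc p, hp1, hp2]
    simp
  have h2 : le k l3 p ≠ 0 := by
    intro h2
    rw [h2, zero_smul] at h1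
    exact hp h1
  have h3 : qe k w q3 = 0 := by
    have h4 : qe k w p = le k l3 p ^ 2 * qe k w q3 := by
      conv_lhs => rw [h1]
      simp only [qe, Pi.smul_apply, smul_eq_mul]
      ring
    rw [h4] at h
    exact (mul_eq_zero.mp h).resolve_left (pow_ne_zero 2 h2)
  have key : ∀ a b : Fin 3 → k, ∃ s t : Fin 3 → k,
      sm a b = sm s l1 + sm t l2 + (le k a q3 * le k b q3) • sm l3 l3 := by
    intro a b
    refine ⟨le k a q1 • b + (le k a q3 * le k b q1) • l3,
      le k a q2 • b + (le k a q3 * le k b q2) • l3, ?_⟩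
    have e : sm a b = le k a q1 • sm l1 b + le k a q2 • sm l2 b + le k a q3 • sm l3 b := by
      conv_lhs => rw [hb a]
      rw [B.sm_add_left, B.sm_add_left, B.sm_smul_left, B.sm_smul_left, B.sm_smul_left]
    have e' : sm l3 b = le k b q1 • sm l3 l1 + le k b q2 • sm l3 l2 + le k b q3 • sm l3 l3 := by
      conv_lhs => rw [hb b]
      rw [B.sm_add_right, B.sm_add_right, B.sm_smul_right, B.sm_smul_right, B.sm_smul_right]
    rw [e, e', B.sm_add_left, B.sm_add_left, B.sm_smul_left, B.sm_smul_left, B.sm_smul_left,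
      B.sm_smul_left, sm_comm b l1, sm_comm b l2]
    simp only [smul_add, smul_smul]
    abel
  obtain ⟨s0, t0, k0⟩ := key (Pi.single 0 1) (Pi.single 0 1)
  obtain ⟨s1, t1, k1⟩ := key (Pi.single 0 1) (Pi.single 1 1)
  obtain ⟨s2, t2, k2⟩ := key (Pi.single 0 1) (Pi.single 2 1)
  obtain ⟨s3, t3, k3⟩ := key (Pi.single 1 1) (Pi.single 1 1)
  obtain ⟨s4, t4, k4⟩ := key (Pi.single 1 1) (Pi.single 2 1)
  obtain ⟨s5, t5, k5⟩ := key (Pi.single 2 1) (Pi.single 2 1)
  have hs : ∀ i : Fin 3, le k (Pi.single i 1) q3 = q3 i := by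
    intro i; rw [le_eq_dot]; simp
  refine ⟨w 0 • s0 + w 1 • s1 + w 2 • s2 + w 3 • s3 + w 4 • s4 + w 5 • s5,
    w 0 • t0 + w 1 • t1 + w 2 • t2 + w 3 • t3 + w 4 • t4 + w 5 • t5, ?_⟩
  conv_lhs => rw [quad_expand w, k0, k1, k2, k3, k4, k5]
  simp only [hs]
  have h4 : w 0 * (q3 0 * q3 0) + w 1 * (q3 0 * q3 1) + w 2 * (q3 0 * q3 2) +
      w 3 * (q3 1 * q3 1) + w 4 * (q3 1 * q3 2) + w 5 * (q3 2 * q3 2) = 0 := by
    simpa [qe] using h3
  have h5 : (w 0 * (q3 0 * q3 0)) • sm l3 l3 + (w 1 * (q3 0 * q3 1)) • sm l3 l3 +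
      (w 2 * (q3 0 * q3 2)) • sm l3 l3 +
      (w 3 * (q3 1 * q3 1)) • sm l3 l3 + (w 4 * (q3 1 * q3 2)) • sm l3 l3 +
      (w 5 * (q3 2 * q3 2)) • sm l3 l3 = 0 := by
    rw [← add_smul, ← add_smul, ← add_smul, ← add_smul, ← add_smul, h4, zero_smul]
  simp only [B.sm_add_left, B.sm_smul_left, smul_add, smul_smul]
  ext i
  have h6 := congrFun h5 i
  simp only [Pi.add_apply, Pi.smul_apply, smul_eq_mul, Pi.zero_apply] at h6 ⊢
  linear_combination h6

/-- forms with prescribed value. -/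
lemma exists_le (p : Fin 3 → k) (hp : p ≠ 0) (c : k) : ∃ v : Fin 3 → k, le k v p = c := by
  obtain ⟨i, hi⟩ : ∃ i, p i ≠ 0 := by
    by_contra hcon
    push Not at hcon
    exact hp (funext hcon)
  refine ⟨Pi.single i (c / p i), ?_⟩
  rw [le_eq_dot]
  simp [hi]

lemma exists_qe (p : Fin 3 → k) (hp : p ≠ 0) (c : k) : ∃ w : Fin 6 → k, qe k w p = c := by
  obtain ⟨v, hv⟩ := exists_le p hp c
  obtain ⟨v', hv'⟩ := exists_le p hp 1
  exact ⟨sm v v', by rw [qe_sm, hv, hv', mul_one]⟩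

end Run7.h921.Han.Kos
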