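import Mathlib
import Pool.Agent.Run7.h921.Han.Kos
import Pool.Agent.Run7.h258.Han.KDat
import Pool.Agent.Run7.h258.Han.OL

/-! The one-sided Koszul data of a point (piece KD). -/

set_option autoImplicit false

namespace Run7.h921.Han.KD

open Run7.h258.Han Run7.h921.Han.Kos Polynomial

variable {k : Type} [Field k]

/-! ### Entries of elements of `A e_j` -/

lemma rho_ee {R : Type} [CommRing R] [Algebra k R] (p : Fin 3 → R) (j : Fin 3) :
    rho k p (A.bb (ee k j)) = Matrix.diagonal (Pi.single j 1) := by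
  ext a b
  fin_cases j <;> fin_cases a <;> fin_cases b <;>
    simp [ee, A.ofB, rho_apply, le, qe]

lemma mm_ee (j : Fin 3) : A.mm (ee k j) = 0 := rfl

lemma PP_a {j i : Fin 3} (hij : i ≠ j) (x : PP k j) : B.a (A.bb x.1) i = 0 := by
  have h := congrArg (fun y => B.a (A.bb y) i) (mem_PP_iff.mp x.2)
  simpa [ee, A.ofB, hij] using h.symm

lemma PP_u {j : Fin 3} (hj : j ≠ 1) (x : PP k j) : B.u (A.bb x.1) = 0 := by
  have h := congrArg (fun y => B.u (A.bb y)) (mem_PP_iff.mp x.2)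
  simpa [ee, A.ofB, hj.symm] using h.symm

lemma PP_v {j : Fin 3} (hj : j ≠ 2) (x : PP k j) : B.v (A.bb x.1) = 0 := by
  have h := congrArg (fun y => B.v (A.bb y)) (mem_PP_iff.mp x.2)
  simpa [ee, A.ofB, hj.symm] using h.symm

lemma PP_w {j : Fin 3} (hj : j ≠ 2) (x : PP k j) : B.w (A.bb x.1) = 0 := by
  have h := congrArg (fun y => B.w (A.bb y)) (mem_PP_iff.mp x.2)
  simpa [ee, A.ofB, hj.symm, B.sm_zero_right] using h.symm

lemma PP_m {j j' : Fin 3} (hj : j' ≠ j) (x : PP k j) (i : Fin 3) : A.mm x.1 i j' = 0 := by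
  have h := congrArg (fun y => A.mm y i j') (mem_PP_iff.mp x.2)
  simp only [A.mm_mul, mm_ee, mul_zero, zero_add, rho_ee, Matrix.mul_diagonal] at h
  rw [Pi.single_eq_of_ne hj, mul_zero] at h
  exact h.symm

lemma PP_ext {j : Fin 3} {x y : PP k j} (ha : B.a (A.bb x.1) j = B.a (A.bb y.1) j)
    (hu : j = 1 → B.u (A.bb x.1) = B.u (A.bb y.1))
    (hv : j = 2 → B.v (A.bb x.1) = B.v (A.bb y.1))
    (hw : j = 2 → B.w (A.bb x.1) = B.w (A.bb y.1))
    (hm : ∀ i, A.mm x.1 i j = A.mm y.1 i j) : x = y := by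
  refine Subtype.ext (A.ext (B.ext ?_ ?_ ?_ ?_) ?_)
  · funext i
    by_cases hi : i = j
    · rw [hi]; exact ha
    · rw [PP_a hi, PP_a hi]
  · by_cases h : j = 1
    · exact hu h
    · rw [PP_u h, PP_u h]
  · by_cases h : j = 2
    · exact hv h
    · rw [PP_v h, PP_v h]
  · by_cases h : j = 2
    · exact hw h
    · rw [PP_w h, PP_w h]
  · ext1 i j'
    by_cases h : j' = j
    · rw [h]; exact hm i
    · rw [PP_m h, PP_m h]

/-- element of `A e_j` with given entries -/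
noncomputable def cc (j : Fin 3) (a : k) (u v : Fin 3 → k) (w : Fin 6 → k) (hu : j ≠ 1 → u = 0)
    (hv : j ≠ 2 → v = 0) (hw : j ≠ 2 → w = 0) (m : Fin 3 → O k) (hm : ∀ i, m i ∈ Ms k i j) :
    PP k j :=
  ⟨A.mk (B.mk (Pi.single j a) u v w) (Matrix.of fun i j' => if j' = j then m i else 0)
    (by
      intro i j'
      by_cases h : j' = j
      · subst h
        simp only [Matrix.of_apply, if_true]
        exact hm i
      · simp only [Matrix.of_apply, h, if_false]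
        exact zero_mem _),
    by
      rw [mem_PP_iff]
      apply A.ext
      · apply B.ext
        · funext i
          by_cases h : i = j
          · subst h; simp [ee, A.ofB]
          · simp [ee, A.ofB, h]
        · by_cases h : j = 1
          · subst h; simp [ee, A.ofB]
          · simp [ee, A.ofB, hu h]
        · by_cases h : j = 2
          · subst h; simp [ee, A.ofB]
          · simp [ee, A.ofB, hv h]
        · by_cases h : j = 2
          · subst h; simp [ee, A.ofB, B.sm_zero_right]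
          · simp [ee, A.ofB, hw h, B.sm_zero_right]
      · simp only [A.mm_mul, mm_ee, mul_zero, zero_add, rho_ee]
        ext1 i j'
        rw [Matrix.mul_diagonal]
        by_cases h : j' = j
        · subst h; simp
        · simp [h]⟩

section
variable (j : Fin 3) (a : k) (u v : Fin 3 → k) (w : Fin 6 → k) (hu : j ≠ 1 → u = 0)
    (hv : j ≠ 2 → v = 0) (hw : j ≠ 2 → w = 0) (m : Fin 3 → O k) (hm : ∀ i, m i ∈ Ms k i j)

@[simp] lemma cc_a : B.a (A.bb (cc j a u v w hu hv hw m hm).1) j = a := by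
  simp [cc]
@[simp] lemma cc_u : B.u (A.bb (cc j a u v w hu hv hw m hm).1) = u := rfl
@[simp] lemma cc_v : B.v (A.bb (cc j a u v w hu hv hw m hm).1) = v := rfl
@[simp] lemma cc_w : B.w (A.bb (cc j a u v w hu hv hw m hm).1) = w := rfl
@[simp] lemma cc_m (i : Fin 3) : A.mm (cc j a u v w hu hv hw m hm).1 i j = m i := by
  simp [cc]

end

/-! ### Products with linear forms -/

section
variable (x : A k) (s : Fin 3 → k)

lemma mul_h01_a (j : Fin 3) : B.a (A.bb (x * h01 s)) j = 0 := by simp [h01, A.ofB]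
lemma mul_h01_u : B.u (A.bb (x * h01 s)) = B.a (A.bb x) 0 • s := by simp [h01, A.ofB]
lemma mul_h01_m (i : Fin 3) : A.mm (x * h01 s) i 1 = A.mm x i 0 * le k s (vx' k) := by
  have e : A.mm (h01 s : A k) = 0 := rfl
  rw [A.mm_mul, e, mul_zero, zero_add, Matrix.mul_apply, Fin.sum_univ_three, rho_apply]
  simp [h01, A.ofB]

lemma mul_h12_a (j : Fin 3) : B.a (A.bb (x * h12 s)) j = 0 := by simp [h12, A.ofB]
lemma mul_h12_v : B.v (A.bb (x * h12 s)) = B.a (A.bb x) 1 • s := by simp [h12, A.ofB]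
lemma mul_h12_w : B.w (A.bb (x * h12 s)) = sm (B.u (A.bb x)) s := by simp [h12, A.ofB]
lemma mul_h12_m (i : Fin 3) : A.mm (x * h12 s) i 2 = A.mm x i 1 * le k s (vx' k) := by
  have e : A.mm (h12 s : A k) = 0 := rfl
  rw [A.mm_mul, e, mul_zero, zero_add, Matrix.mul_apply, Fin.sum_univ_three, rho_apply]
  simp [h12, A.ofB, qe]

end

lemma mm_mem' (x : A k) (i j : Fin 3) : A.mm x i j ∈ Ms k i j := A.mm_mem x i j

lemma mul_le_mem {i j j' : Fin 3} (hj : (j' : ℕ) = j + 1) (s : Fin 3 → k) {f : O k}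
    (hf : f ∈ Ms k i j) : f * le k s (vx' k) ∈ Ms k i j' := by
  rw [mem_Ms_iff] at hf ⊢
  exact L_mono (by omega) (by omega) (L_mul hf (le_vx'_mem_L s))

lemma le_mul_mem {i i' j : Fin 3} (hi : (i' : ℕ) = i + 1) (s : Fin 3 → k) {f : O k}
    (hf : f ∈ Ms k i' j) : le k s (vx k) * f ∈ Ms k i j := by
  rw [mem_Ms_iff] at hf ⊢
  exact L_mono (by omega) (by omega) (L_mul (le_vx_mem_L s) hf)

lemma le_vx'_ne_zero {l : Fin 3 → k} (hl : l ≠ 0) : le k l (vx' k) ≠ 0 := by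
  intro h
  apply hl
  have h1 : (le k l (vx' k)).im = 0 := by rw [h]; rfl
  have h2 : (le k l (vx' k)).re = 0 := by rw [h]; rfl
  have e1 : (le k l (vx' k)).im = l 2 • X - C (l 1) := by
    simp [le, vx', ox', oy', smul_eq_C_mul]
    ring
  have e2 : (le k l (vx' k)).re = C (l 0) + l 1 • X ^ 2 + l 2 • (-1 - X ^ 3) := by
    simp [le, vx', ox', oy', smul_eq_C_mul]
  rw [e1] at h1
  rw [e2] at h2
  have a1 := congrArg (fun p => coeff p 0) h1
  have a2 := congrArg (fun p => coeff p 1) h1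
  have a3 := congrArg (fun p => coeff p 0) h2
  simp [coeff_X, coeff_one, coeff_C] at a1 a2 a3
  funext i
  fin_cases i
  · simp only [Fin.zero_eta, Pi.zero_apply]
    rw [a2] at a3
    simpa using a3
  · simpa using a1
  · simpa using a2

/-! ### Semilinearity of functionals -/

lemma le_single {R : Type} [CommRing R] [Algebra k R] (a : Fin 3) (p : Fin 3 → R) :
    le k (Pi.single a 1) p = p a := by
  fin_cases a <;> simp [le]

lemma act (S : Fin 3 → Submodule k (O k)) (φ : Fin 3 → O k →ₗ[k] k) (u : Fin 3 → k)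
    (hS : ∀ i i' : Fin 3, (i' : ℕ) = i + 1 → ∀ (s : Fin 3 → k) (f : O k), f ∈ S i' →
      le k s (vx k) * f ∈ S i)
    (hφ : ∀ i i' : Fin 3, (i' : ℕ) = i + 1 → ∀ (s : Fin 3 → k) (f : O k), f ∈ S i' →
      φ i (le k s (vx k) * f) = le k s u * φ i' f)
    (b : B k) (f : Fin 3 → O k) (hf : ∀ l, f l ∈ S l) (i : Fin 3) :
    φ i (∑ l, rho k (vx k) b i l * f l) = ∑ l, rho k u b i l * φ l (f l) := by
  have q1 : ∀ a : Fin 3, φ 0 (vx k a * f 1) = u a * φ 1 (f 1) := by
    intro a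
    have := hφ 0 1 rfl (Pi.single a 1) (f 1) (hf 1)
    rwa [le_single, le_single] at this
  have q2 : ∀ a : Fin 3, φ 1 (vx k a * f 2) = u a * φ 2 (f 2) := by
    intro a
    have := hφ 1 2 rfl (Pi.single a 1) (f 2) (hf 2)
    rwa [le_single, le_single] at this
  have q3 : ∀ a b : Fin 3, φ 0 (vx k a * (vx k b * f 2)) = u a * (u b * φ 2 (f 2)) := by
    intro a b
    have h1 := hS 1 2 rfl (Pi.single b 1) (f 2) (hf 2)
    rw [le_single] at h1
    have := hφ 0 1 rfl (Pi.single a 1) (vx k b * f 2) h1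
    rwa [le_single, le_single, q2] at this
  rw [Fin.sum_univ_three, Fin.sum_univ_three]
  fin_cases i
  · simp only [rho_apply, Fin.zero_eta, Fin.isValue, Matrix.cons_val', Matrix.cons_val_zero,
      Matrix.cons_val_fin_one, Matrix.of_apply, Matrix.cons_val_one, Matrix.cons_val, map_add]
    have e1 : φ 0 (B.a b 0 • (1 : O k) * f 0) = B.a b 0 • (1 : k) * φ 0 (f 0) := by
      rw [smul_one_mul, map_smul, smul_one_mul]
    have e2 : φ 0 (le k (B.u b) (vx k) * f 1) = le k (B.u b) u * φ 1 (f 1) := hφ 0 1 rfl _ _ (hf 1)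
    have e3 : φ 0 (qe k (B.w b) (vx k) * f 2) = qe k (B.w b) u * φ 2 (f 2) := by
      simp only [qe, add_mul, smul_mul_assoc, mul_assoc, map_add, map_smul, q3]
    rw [e1, e2, e3]
  · simp only [rho_apply, Fin.mk_one, Fin.isValue, Matrix.cons_val', Matrix.cons_val_zero,
      Matrix.cons_val, Matrix.cons_val_fin_one, Matrix.of_apply, Matrix.cons_val_one, zero_mul,
      zero_add, map_add]
    rw [smul_one_mul, map_smul, smul_one_mul, hφ 1 2 rfl _ _ (hf 2)]
  · simp only [rho_apply, Fin.reduceFinMk, Fin.isValue, Matrix.cons_val', Matrix.cons_val_zero,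
      Matrix.cons_val, Matrix.cons_val_fin_one, Matrix.of_apply, Matrix.cons_val_one, zero_mul,
      zero_add]
    rw [smul_one_mul, map_smul, smul_one_mul]

lemma extend {S : Submodule k (O k)} (t : S →ₗ[k] k) :
    ∃ t' : O k →ₗ[k] k, ∀ (f : O k) (hf : f ∈ S), t' f = t ⟨f, hf⟩ := by
  obtain ⟨t', ht'⟩ := t.exists_extend
  exact ⟨t', fun f hf => LinearMap.congr_fun ht' ⟨f, hf⟩⟩

/-! ### The evaluation at `p` -/

/-- the generator of `Z_p`. -/
noncomputable def z2 (p : Fin 3 → k) : Zp p := Zp.mk p (Pi.single 2 1)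

/-- the evaluation at `p`. -/
noncomputable def ev (p : Fin 3 → k) : PP k 2 →ₗ[A k] Zp p :=
  (LinearMap.toSpanSingleton (A k) (Zp p) (z2 p)).comp (PP k 2).subtype

lemma co_ev (p : Fin 3 → k) (x : PP k 2) (i : Fin 3) :
    Zp.co p (ev p x) i = rho k p (A.bb x.1) i 2 := by
  change Zp.co p (x.1 • z2 p) i = _
  rw [Zp.co_smul]
  simp [z2]

lemma ev_eq_zero_iff (p : Fin 3 → k) (x : PP k 2) : ev p x = 0 ↔
    B.a (A.bb x.1) 2 = 0 ∧ le k (B.v (A.bb x.1)) p = 0 ∧ qe k (B.w (A.bb x.1)) p = 0 := by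
  have h : ev p x = 0 ↔ ∀ i, rho k p (A.bb x.1) i 2 = 0 := by
    constructor
    · intro h i
      rw [← co_ev, h, map_zero]; rfl
    · intro h
      apply Zp.ext
      funext i
      rw [co_ev, h i, map_zero]; rfl
  rw [h]
  constructor
  · intro h
    have h0 := h 0
    have h1 := h 1
    have h2 := h 2
    simp [rho_apply] at h0 h1 h2
    exact ⟨h2, h1, h0⟩
  · rintro ⟨h2, h1, h0⟩ i
    fin_cases i
    · simpa [rho_apply] using h0
    · simpa [rho_apply] using h1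
    · simpa [rho_apply] using h2

lemma ev_surj {p : Fin 3 → k} (hp : p ≠ 0) : Function.Surjective (ev p) := by
  intro z
  obtain ⟨w, hw⟩ := exists_qe p hp (Zp.co p z 0)
  obtain ⟨v, hv⟩ := exists_le p hp (Zp.co p z 1)
  refine ⟨cc 2 (Zp.co p z 2) 0 v w (fun _ => rfl) (fun h => absurd rfl h) (fun h => absurd rfl h)
    (fun _ => 0) (fun _ => zero_mem _), ?_⟩
  apply Zp.ext
  funext i
  rw [co_ev]
  fin_cases i
  · simp [rho_apply, hw]
  · simp [rho_apply, hv]
  · simp [rho_apply]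

variable {p u : Fin 3 → k}

lemma l1_ne (F : F1D k p u) : F.l1 ≠ 0 := by
  intro h
  have := F.indep 1 0 (by rw [h]; simp)
  exact one_ne_zero this.1

section gamma

variable (F : F1D k p u)

/-- the extended functionals -/
lemma exists_th : ∃ φ : Fin 3 → O k →ₗ[k] k, ∀ (i : Fin 3) (f : O k) (hf : f ∈ Ms k i 2),
    φ i f = F.th i ⟨f, hf⟩ := by
  choose φ hφ using fun i => extend (F.th i)
  exact ⟨φ, hφ⟩

noncomputable def TH : Fin 3 → O k →ₗ[k] k := (exists_th F).choose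

lemma TH_eq (i : Fin 3) (f : O k) (hf : f ∈ Ms k i 2) : TH F i f = F.th i ⟨f, hf⟩ :=
  (exists_th F).choose_spec i f hf

lemma TH_ker (i : Fin 3) {f : O k} (hf : f ∈ Ms k i 2) : TH F i f = 0 ↔
    ∃ a ∈ Ms k i 1, ∃ b ∈ Ms k i 1, f = le k F.l1 (vx' k) * a + le k F.l2 (vx' k) * b := by
  rw [TH_eq F i f hf]
  exact F.th_ker i ⟨f, hf⟩

lemma TH_act (b : B k) (f : Fin 3 → O k) (hf : ∀ l, f l ∈ Ms k l 2) (i : Fin 3) :
    TH F i (∑ l, rho k (vx k) b i l * f l) = ∑ l, rho k u b i l * TH F l (f l) := by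
  refine act (fun i => Ms k i 2) (TH F) u (fun i i' h s f hf => le_mul_mem h s hf) ?_ b f hf i
  intro i i' h s f hf
  rw [TH_eq F i _ (le_mul_mem h s hf), TH_eq F i' f hf]
  exact F.th_act i i' h s f hf _

lemma TH_right (hp : p ≠ 0) (a : A k) (x : PP k 2) (hx : ev p x = 0) (i : Fin 3) :
    TH F i (∑ l, A.mm a i l * rho k (vx' k) (A.bb x.1) l 2) = 0 := by
  obtain ⟨ha, hv, hw⟩ := (ev_eq_zero_iff p x).mp hx
  obtain ⟨c1, c2, hc⟩ := lin F.l1 F.l2 F.indep p hp F.l1_p F.l2_p _ hv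
  obtain ⟨s, t, hst⟩ := quad F.l1 F.l2 F.indep p hp F.l1_p F.l2_p _ hw
  have m0 := mm_mem' a i 0
  have m1 := mm_mem' a i 1
  have hs : A.mm a i 0 * le k s (vx' k) ∈ Ms k i 1 := mul_le_mem rfl s m0
  have ht : A.mm a i 0 * le k t (vx' k) ∈ Ms k i 1 := mul_le_mem rfl t m0
  have e : (∑ l, A.mm a i l * rho k (vx' k) (A.bb x.1) l 2) =
      le k F.l1 (vx' k) * (A.mm a i 0 * le k s (vx' k) + c1 • A.mm a i 1) +
      le k F.l2 (vx' k) * (A.mm a i 0 * le k t (vx' k) + c2 • A.mm a i 1) := by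
    rw [Fin.sum_univ_three]
    simp only [rho_apply, Fin.isValue, Matrix.cons_val', Matrix.cons_val_zero,
      Matrix.cons_val_fin_one, Matrix.of_apply, Matrix.cons_val_one, Matrix.cons_val]
    rw [ha, hc, hst, qe_add, qe_sm, qe_sm, le_add, le_smul, le_smul]
    simp only [Algebra.smul_def]
    simp only [map_zero]
    ring
  have hmem : (∑ l, A.mm a i l * rho k (vx' k) (A.bb x.1) l 2) ∈ Ms k i 2 := by
    rw [e]
    refine add_mem ?_ ?_
    · rw [mul_comm]
      exact mul_le_mem rfl _ (add_mem hs (Submodule.smul_mem _ _ m1))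
    · rw [mul_comm]
      exact mul_le_mem rfl _ (add_mem ht (Submodule.smul_mem _ _ m1))
  rw [TH_ker F i hmem]
  exact ⟨_, add_mem hs (Submodule.smul_mem _ _ m1), _, add_mem ht (Submodule.smul_mem _ _ m1), e⟩

/-- the map `γ`. -/
noncomputable def gam (hp : p ≠ 0) : LinearMap.ker (ev p) →ₗ[A k] Zp u where
  toFun x := Zp.mk u (fun i => TH F i (A.mm x.1.1 i 2))
  map_add' x y := by
    apply Zp.ext
    funext i
    have e : A.mm ((x + y).1.1) i 2 = A.mm x.1.1 i 2 + A.mm y.1.1 i 2 := rfl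
    simp only [Zp.co_mk, map_add, Pi.add_apply]
    rw [e, map_add]
  map_smul' a x := by
    apply Zp.ext
    funext i
    have e : A.mm ((a • x).1.1) i 2 = (∑ l, rho k (vx k) (A.bb a) i l * A.mm x.1.1 l 2) +
        ∑ l, A.mm a i l * rho k (vx' k) (A.bb x.1.1) l 2 := by
      change A.mm (a * x.1.1) i 2 = _
      rw [A.mm_mul, Matrix.add_apply, Matrix.mul_apply, Matrix.mul_apply]
    simp only [Zp.co_mk, RingHom.id_apply, Zp.co_smul]
    rw [e, map_add, TH_right F hp a x.1 x.2 i, add_zero,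
      TH_act F _ _ (fun l => mm_mem' _ _ _), Matrix.mulVec, dotProduct]

@[simp] lemma co_gam (hp : p ≠ 0) (x : LinearMap.ker (ev p)) (i : Fin 3) :
    Zp.co u (gam F hp x) i = TH F i (A.mm x.1.1 i 2) := rfl

lemma gam_surj (hp : p ≠ 0) : Function.Surjective (gam F hp) := by
  intro z
  choose f hf using fun i => F.th_surj i (Zp.co u z i)
  refine ⟨⟨cc 2 0 0 0 0 (fun _ => rfl) (fun _ => rfl) (fun _ => rfl) (fun i => (f i).1)
    (fun i => (f i).2), ?_⟩, ?_⟩
  · rw [LinearMap.mem_ker, ev_eq_zero_iff]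
    simp [le, qe]
  · apply Zp.ext
    funext i
    rw [co_gam, cc_m, TH_eq F i _ (f i).2, hf]

lemma gam_ker (hp : p ≠ 0) (x : LinearMap.ker (ev p)) : gam F hp x = 0 ↔
    ∃ y, kd1 F.l1 F.l2 y = x.1 := by
  constructor
  · intro h
    have h1 : ∀ i, TH F i (A.mm x.1.1 i 2) = 0 := by
      intro i
      rw [← co_gam F hp, h, map_zero]; rfl
    have h2 := fun i => (TH_ker F i (mm_mem' x.1.1 i 2)).mp (h1 i)
    choose a ha b hb hab using h2
    obtain ⟨ha2, hv, hw⟩ := (ev_eq_zero_iff p x.1).mp x.2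
    obtain ⟨c1, c2, hc⟩ := lin F.l1 F.l2 F.indep p hp F.l1_p F.l2_p _ hv
    obtain ⟨s, t, hst⟩ := quad F.l1 F.l2 F.indep p hp F.l1_p F.l2_p _ hw
    refine ⟨(cc 1 c1 s 0 0 (fun h => absurd rfl h) (fun _ => rfl) (fun _ => rfl) a ha,
      cc 1 c2 t 0 0 (fun h => absurd rfl h) (fun _ => rfl) (fun _ => rfl) b hb), ?_⟩
    apply PP_ext
    · rw [kd1_coe, map_add, map_add, Pi.add_apply, mul_h12_a, mul_h12_a, ha2, add_zero]
    · intro h; exact absurd h (by decide)
    · intro _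
      rw [kd1_coe, map_add, map_add, mul_h12_v, mul_h12_v, hc, cc_a, cc_a]
    · intro _
      rw [kd1_coe, map_add, map_add, mul_h12_w, mul_h12_w, hst, cc_u, cc_u]
    · intro i
      rw [kd1_coe, map_add, Matrix.add_apply, mul_h12_m, mul_h12_m, hab, cc_m, cc_m,
        mul_comm (a i), mul_comm (b i)]
  · rintro ⟨y, hy⟩
    apply Zp.ext
    funext i
    have e : A.mm x.1.1 i 2 = le k F.l1 (vx' k) * A.mm y.1.1 i 1 +
        le k F.l2 (vx' k) * A.mm y.2.1 i 1 := by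
      rw [← hy, kd1_coe, map_add, Matrix.add_apply, mul_h12_m, mul_h12_m,
        mul_comm (le k F.l1 (vx' k)), mul_comm (le k F.l2 (vx' k))]
    rw [co_gam, map_zero, Pi.zero_apply]
    exact (TH_ker F i (mm_mem' _ _ _)).mpr ⟨_, mm_mem' _ _ _, _, mm_mem' _ _ _, e⟩

end gamma

/-! ### The complex -/

lemma kd2_inj [CharZero k] (F : F1D k p u) : Function.Injective (kd2 F.l1 F.l2) := by
  rw [← LinearMap.ker_eq_bot, LinearMap.ker_eq_bot']
  intro t ht
  have h1 : -(t.1 * h01 F.l1) = 0 := by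
    rw [← kd2_snd F.l1 F.l2 t, ht]; rfl
  rw [neg_eq_zero] at h1
  apply PP_ext
  · have h2 := mul_h01_u t.1 F.l1
    rw [h1] at h2
    have h3 : B.a (A.bb t.1) 0 • F.l1 = 0 := by rw [← h2]; rfl
    exact (smul_eq_zero.mp h3).resolve_right (l1_ne F)
  · intro h; exact absurd h (by decide)
  · intro h; exact absurd h (by decide)
  · intro h; exact absurd h (by decide)
  · intro i
    have h2 := mul_h01_m t.1 F.l1 i
    rw [h1] at h2
    have h3 : A.mm t.1 i 0 * le k F.l1 (vx' k) = 0 := by rw [← h2]; rfl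
    exact (mul_eq_zero.mp h3).resolve_right (le_vx'_ne_zero (l1_ne F))

lemma h01_h12 (s t : Fin 3 → k) : (h01 s : A k) * h12 t = h01 t * h12 s := by
  apply A.ext
  · apply B.ext
    · simp [h01, h12, A.ofB]
    · simp [h01, h12, A.ofB]
    · simp [h01, h12, A.ofB]
    · simp [h01, h12, A.ofB, sm_comm s t]
  · simp [h01, h12, A.ofB]

lemma kd1_kd2 (l1 l2 : Fin 3 → k) (x : PP k 0) : kd1 l1 l2 (kd2 l1 l2 x) = 0 := by
  apply Subtype.ext
  rw [kd1_coe, kd2_fst, kd2_snd, neg_mul, mul_assoc, mul_assoc, h01_h12 l2 l1, add_neg_cancel]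
  rfl

lemma ev_kd1 (F : F1D k p u) (x : PP k 1 × PP k 1) : ev p (kd1 F.l1 F.l2 x) = 0 := by
  rw [ev_eq_zero_iff, kd1_coe]
  refine ⟨?_, ?_, ?_⟩
  · rw [map_add, map_add, Pi.add_apply, mul_h12_a, mul_h12_a, add_zero]
  · rw [map_add, map_add, mul_h12_v, mul_h12_v, le_add, le_smul, le_smul, F.l1_p, F.l2_p]
    simp
  · rw [map_add, map_add, mul_h12_w, mul_h12_w, qe_add, qe_sm, qe_sm, F.l1_p, F.l2_p]
    simp

section delta

variable (F : F1D k p u)

lemma exists_ze : ∃ φ : Fin 3 → O k →ₗ[k] k, ∀ (i : Fin 3) (f : O k)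
    (hf : f ∈ Z1 k F.l1 F.l2 i 1), φ i f = F.ze i ⟨f, hf⟩ := by
  choose φ hφ using fun i => extend (F.ze i)
  exact ⟨φ, hφ⟩

noncomputable def ZE : Fin 3 → O k →ₗ[k] k := (exists_ze F).choose

lemma ZE_eq (i : Fin 3) (f : O k) (hf : f ∈ Z1 k F.l1 F.l2 i 1) : ZE F i f = F.ze i ⟨f, hf⟩ :=
  (exists_ze F).choose_spec i f hf

lemma ZE_ker (i : Fin 3) {f : O k} (hf : f ∈ Z1 k F.l1 F.l2 i 1) : ZE F i f = 0 ↔
    ∃ a ∈ Ms k i 0, f = le k F.l1 (vx' k) * a := by
  rw [ZE_eq F i f hf]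
  exact F.ze_ker i ⟨f, hf⟩

lemma le_mul_mem_Z1 {l1 l2 : Fin 3 → k} {i i' j : Fin 3} (hi : (i' : ℕ) = i + 1) (s : Fin 3 → k)
    {f : O k} (hf : f ∈ Z1 k l1 l2 i' j) : le k s (vx k) * f ∈ Z1 k l1 l2 i j := by
  rw [mem_Z1_iff] at hf ⊢
  obtain ⟨h1, b, hb, h2⟩ := hf
  refine ⟨le_mul_mem hi s h1, le k s (vx k) * b, le_mul_mem hi s hb, ?_⟩
  linear_combination (le k s (vx k)) * h2

lemma ZE_act (b : B k) (f : Fin 3 → O k) (hf : ∀ l, f l ∈ Z1 k F.l1 F.l2 l 1) (i : Fin 3) :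
    ZE F i (∑ l, rho k (vx k) b i l * f l) = ∑ l, rho k u b i l * ZE F l (f l) := by
  refine act (fun i => Z1 k F.l1 F.l2 i 1) (ZE F) u (fun i i' h s f hf => le_mul_mem_Z1 h s hf)
    ?_ b f hf i
  intro i i' h s f hf
  rw [ZE_eq F i _ (le_mul_mem_Z1 h s hf), ZE_eq F i' f hf]
  exact F.ze_act i i' h s f hf _

/-- the equations of the kernel of `kd1` -/
lemma ker_eqs {x : PP k 1 × PP k 1} (hx : kd1 F.l1 F.l2 x = 0) :
    B.a (A.bb x.1.1) 1 = 0 ∧ B.a (A.bb x.2.1) 1 = 0 ∧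
    (∃ c : k, B.u (A.bb x.1.1) = c • F.l2 ∧ B.u (A.bb x.2.1) = -(c • F.l1)) ∧
    (∀ i, A.mm x.1.1 i 1 * le k F.l1 (vx' k) + A.mm x.2.1 i 1 * le k F.l2 (vx' k) = 0) := by
  have h : x.1.1 * h12 F.l1 + x.2.1 * h12 F.l2 = 0 := by
    rw [← kd1_coe, hx]; rfl
  have h1 := congrArg (fun y => B.v (A.bb y)) h
  have h2 := congrArg (fun y => B.w (A.bb y)) h
  simp only [map_add, mul_h12_v, mul_h12_w, map_zero] at h1 h2
  obtain ⟨ha, hb⟩ := F.indep _ _ h1
  refine ⟨ha, hb, syz _ _ F.indep _ _ h2, fun i => ?_⟩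
  have h3 := congrArg (fun y => A.mm y i 2) h
  simp only [map_add, Matrix.add_apply, mul_h12_m, map_zero, Matrix.zero_apply] at h3
  exact h3

lemma ker_mem {x : PP k 1 × PP k 1} (hx : kd1 F.l1 F.l2 x = 0) (i : Fin 3) :
    A.mm x.2.1 i 1 ∈ Z1 k F.l1 F.l2 i 1 := by
  obtain ⟨-, -, -, h⟩ := ker_eqs F hx
  rw [mem_Z1_iff]
  refine ⟨mm_mem' _ _ _, -(A.mm x.1.1 i 1), neg_mem (mm_mem' _ _ _), ?_⟩
  linear_combination -(h i)

lemma ZE_right (a : A k) {x : PP k 1 × PP k 1} (hx : kd1 F.l1 F.l2 x = 0) (i : Fin 3) :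
    ZE F i (∑ l, A.mm a i l * rho k (vx' k) (A.bb x.2.1) l 1) = 0 := by
  obtain ⟨-, hb, ⟨c, -, hc⟩, -⟩ := ker_eqs F hx
  have m0 := mm_mem' a i 0
  have e : (∑ l, A.mm a i l * rho k (vx' k) (A.bb x.2.1) l 1) =
      le k F.l1 (vx' k) * ((-c) • A.mm a i 0) := by
    rw [Fin.sum_univ_three]
    simp only [rho_apply, Fin.isValue, Matrix.cons_val', Matrix.cons_val_zero,
      Matrix.cons_val_fin_one, Matrix.of_apply, Matrix.cons_val_one, Matrix.cons_val]
    rw [hb, hc, ← neg_smul, le_smul]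
    simp only [Algebra.smul_def]
    simp only [map_zero]
    ring
  have hmem : (∑ l, A.mm a i l * rho k (vx' k) (A.bb x.2.1) l 1) ∈ Z1 k F.l1 F.l2 i 1 := by
    rw [e, mem_Z1_iff]
    refine ⟨?_, le k F.l2 (vx' k) * ((-c) • A.mm a i 0), ?_, ?_⟩
    · rw [mul_comm]
      exact mul_le_mem rfl _ (Submodule.smul_mem _ _ m0)
    · rw [mul_comm]
      exact mul_le_mem rfl _ (Submodule.smul_mem _ _ m0)
    · ring
  rw [ZE_ker F i hmem]
  exact ⟨_, Submodule.smul_mem _ _ m0, e⟩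

/-- the map `δ`. -/
noncomputable def del : LinearMap.ker (kd1 F.l1 F.l2) →ₗ[A k] Zp u where
  toFun x := Zp.mk u (fun i => ZE F i (A.mm x.1.2.1 i 1))
  map_add' x y := by
    apply Zp.ext
    funext i
    have e : A.mm ((x + y).1.2.1) i 1 = A.mm x.1.2.1 i 1 + A.mm y.1.2.1 i 1 := rfl
    simp only [Zp.co_mk, map_add, Pi.add_apply]
    rw [e, map_add]
  map_smul' a x := by
    apply Zp.ext
    funext i
    have e : A.mm ((a • x).1.2.1) i 1 = (∑ l, rho k (vx k) (A.bb a) i l * A.mm x.1.2.1 l 1) +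
        ∑ l, A.mm a i l * rho k (vx' k) (A.bb x.1.2.1) l 1 := by
      change A.mm (a * x.1.2.1) i 1 = _
      rw [A.mm_mul, Matrix.add_apply, Matrix.mul_apply, Matrix.mul_apply]
    simp only [Zp.co_mk, RingHom.id_apply, Zp.co_smul]
    rw [e, map_add, ZE_right F a x.2 i, add_zero,
      ZE_act F _ _ (fun l => ker_mem F x.2 l), Matrix.mulVec, dotProduct]

@[simp] lemma co_del (x : LinearMap.ker (kd1 F.l1 F.l2)) (i : Fin 3) :
    Zp.co u (del F x) i = ZE F i (A.mm x.1.2.1 i 1) := rfl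

lemma del_surj : Function.Surjective (del F) := by
  intro z
  choose f hf using fun i => F.ze_surj i (Zp.co u z i)
  have h1 := fun i => (mem_Z1_iff k F.l1 F.l2 i 1 (f i).1).mp (f i).2
  choose g hg hfg using fun i => (h1 i).2
  refine ⟨⟨(cc 1 0 0 0 0 (fun _ => rfl) (fun _ => rfl) (fun _ => rfl) (fun i => -(g i))
    (fun i => neg_mem (hg i)), cc 1 0 0 0 0 (fun _ => rfl) (fun _ => rfl) (fun _ => rfl)
    (fun i => (f i).1) (fun i => (h1 i).1)), ?_⟩, ?_⟩
  · rw [LinearMap.mem_ker]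
    apply PP_ext
    · rw [kd1_coe, map_add, map_add, Pi.add_apply, mul_h12_a, mul_h12_a, add_zero]
      rfl
    · intro h; exact absurd h (by decide)
    · intro _
      rw [kd1_coe, map_add, map_add, mul_h12_v, mul_h12_v, cc_a, cc_a, zero_smul, zero_smul,
        add_zero]
      rfl
    · intro _
      rw [kd1_coe, map_add, map_add, mul_h12_w, mul_h12_w, cc_u, cc_u, B.sm_zero_left,
        B.sm_zero_left, add_zero]
      rfl
    · intro i
      rw [kd1_coe, map_add, Matrix.add_apply, mul_h12_m, mul_h12_m, cc_m, cc_m]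
      change _ = (0 : O k)
      linear_combination -(hfg i)
  · apply Zp.ext
    funext i
    rw [co_del, cc_m, ZE_eq F i _ (f i).2, hf]

lemma del_ker [CharZero k] (x : LinearMap.ker (kd1 F.l1 F.l2)) : del F x = 0 ↔
    ∃ y, kd2 F.l1 F.l2 y = x.1 := by
  constructor
  · intro h
    have h1 : ∀ i, ZE F i (A.mm x.1.2.1 i 1) = 0 := by
      intro i
      rw [← co_del F, h, map_zero]; rfl
    have h2 := fun i => (ZE_ker F i (ker_mem F x.2 i)).mp (h1 i)
    choose a ha hab using h2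
    obtain ⟨ha1, hb1, ⟨c, hc1, hc2⟩, hm⟩ := ker_eqs F x.2
    refine ⟨cc 0 c 0 0 0 (fun _ => rfl) (fun _ => rfl) (fun _ => rfl) (fun i => -(a i))
      (fun i => neg_mem (ha i)), ?_⟩
    apply Prod.ext
    · apply PP_ext
      · rw [kd2_fst, mul_h01_a, ha1]
      · intro _
        rw [kd2_fst, mul_h01_u, cc_a, hc1]
      · intro h; exact absurd h (by decide)
      · intro h; exact absurd h (by decide)
      · intro i
        rw [kd2_fst, mul_h01_m, cc_m]
        have h3 := hm i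
        rw [hab i] at h3
        apply mul_right_cancel₀ (le_vx'_ne_zero (l1_ne F))
        linear_combination -h3
    · apply PP_ext
      · rw [kd2_snd, map_neg, map_neg, Pi.neg_apply, mul_h01_a, hb1, neg_zero]
      · intro _
        rw [kd2_snd, map_neg, map_neg, mul_h01_u, cc_a, hc2]
      · intro h; exact absurd h (by decide)
      · intro h; exact absurd h (by decide)
      · intro i
        rw [kd2_snd, map_neg, Matrix.neg_apply, mul_h01_m, cc_m, hab i]
        ring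
  · rintro ⟨y, hy⟩
    apply Zp.ext
    funext i
    have e : A.mm x.1.2.1 i 1 = le k F.l1 (vx' k) * (-(A.mm y.1 i 0)) := by
      rw [← hy, kd2_snd, map_neg, Matrix.neg_apply, mul_h01_m]
      ring
    rw [co_del, map_zero, Pi.zero_apply]
    exact (ZE_ker F i (ker_mem F x.2 i)).mpr ⟨_, neg_mem (mm_mem' _ _ _), e⟩

end delta

/-- Piece KD. -/
noncomputable def kdat [CharZero k] (hp : p ≠ 0) (F : F1D k p u) : KDat p u F.l1 F.l2 where
  inj := kd2_inj F
  d12 := kd1_kd2 _ _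
  e := ev p
  es := ev_surj hp
  ed := ev_kd1 F
  δ := del F
  δs := del_surj F
  δk := del_ker F
  γ := gam F hp
  γs := gam_surj F hp
  γk := gam_ker F hp

theorem exists_kdat [CharZero k] (hp : p ≠ 0) (F : F1D k p u) : Nonempty (KDat p u F.l1 F.l2) := ⟨kdat hp F⟩

end Run7.h921.Han.KD
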