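import Mathlib
import Pool.Agent.Run7.h921.Han.KD
import Pool.Agent.Run7.h921.Han.F1b
import Pool.Agent.Run7.h258.Han.StepA

/-! The Koszul data of every point of the curve. -/

set_option autoImplicit false

namespace Run7.h921.Han

theorem hkd (k : Type) [Field k] [CharZero k] [DecidableEq k] : Run7.h258.Han.HKD k := by
  intro p
  obtain ⟨F⟩ := Run7.h921.Han.F1.F1_point (k := k) p
  exact ⟨F.l1, F.l2, F.l1_p, F.l2_p, F.indep,
    Run7.h921.Han.KD.exists_kdat (Run7.h258.Han.vec_ne_zero p) F⟩

end Run7.h921.Han
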