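import Mathlib

/-!
# The elliptic curve `y ^ 2 = x ^ 3 + x + 1` and its point `(0, 1)` of infinite order

Pieces ORD and GRP of the project MP_92f1cb_al. `F` is any field of characteristic zero.
-/

set_option autoImplicit false
set_option linter.all false

namespace Run7.h921.Han

open WeierstrassCurve WeierstrassCurve.Affine

/-- the curve `y ^ 2 = x ^ 3 + x + 1` -/
def E0 (F : Type*) [Field F] : WeierstrassCurve.Affine F := ⟨0, 0, 0, 1, 1⟩

section
variable {F : Type*} [Field F]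

theorem negY_eq (x y : F) : (E0 F).negY x y = -y := by
  simp [WeierstrassCurve.Affine.negY, E0]

theorem equation_iff' {x y : F} : (E0 F).Equation x y ↔ y ^ 2 = x ^ 3 + x + 1 := by
  rw [WeierstrassCurve.Affine.equation_iff]
  simp [E0]

theorem nonsingular_iff' [CharZero F] {x y : F} :
    (E0 F).Nonsingular x y ↔ y ^ 2 = x ^ 3 + x + 1 := by
  rw [WeierstrassCurve.Affine.nonsingular_iff, equation_iff']
  constructor
  · exact fun h => h.1
  · intro h
    refine ⟨h, ?_⟩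
    by_contra hc
    push Not at hc
    obtain ⟨h1, h2⟩ := hc
    simp [E0] at h1 h2
    have hy : y = 0 := by
      have : (2 : F) * y = 0 := by linear_combination h2
      rcases mul_eq_zero.1 this with h3 | h3
      · exact absurd h3 two_ne_zero
      · exact h3
    subst hy
    -- x^3 + x + 1 = 0 and 3 x^2 + 1 = 0
    have e1 : x ^ 3 + x + 1 = 0 := by rw [← h]; ring
    have e2 : 3 * x ^ 2 + 1 = 0 := by linear_combination -h1
    have e3 : 2 * x + 3 = 0 := by linear_combination 3 * e1 - x * e2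
    have e4 : (31 : F) = 0 := by linear_combination 4 * e2 - (6 * x - 9) * e3
    have e5 : ((31 : ℕ) : F) = ((0 : ℕ) : F) := by exact_mod_cast e4
    exact absurd (Nat.cast_injective e5) (by norm_num)

variable [CharZero F]

/-- a point from its coordinates -/
def pt (x y : F) (h : y ^ 2 = x ^ 3 + x + 1) : (E0 F).Point := .some x y (nonsingular_iff'.2 h)

/-- the point `(0, 1)` -/
def P0 : (E0 F).Point := pt 0 1 (by norm_num)

theorem pt_inj {x y x' y' : F} {h : y ^ 2 = x ^ 3 + x + 1} {h' : y' ^ 2 = x' ^ 3 + x' + 1} :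
    pt x y h = pt x' y' h' ↔ x = x' ∧ y = y' := by
  unfold pt
  rw [WeierstrassCurve.Affine.Point.some.injEq]

theorem pt_ne_zero {x y : F} {h : y ^ 2 = x ^ 3 + x + 1} : pt x y h ≠ 0 := by
  rintro (_ | _)

/-- every point is `0` or has coordinates -/
theorem cases_pt (u : (E0 F).Point) :
    u = 0 ∨ ∃ (x y : F) (h : y ^ 2 = x ^ 3 + x + 1), u = pt x y h := by
  cases u with
  | zero => exact Or.inl rfl
  | some x y h => exact Or.inr ⟨x, y, nonsingular_iff'.1 h, rfl⟩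

theorem neg_pt {x y : F} {h : y ^ 2 = x ^ 3 + x + 1} :
    -pt x y h = pt x (-y) (by rw [neg_sq, h]) := by
  unfold pt
  rw [WeierstrassCurve.Affine.Point.neg_some]
  congr 1
  exact negY_eq x y

theorem neg_P0 : -(P0 : (E0 F).Point) = pt 0 (-1) (by norm_num) := by
  unfold P0
  rw [neg_pt]

variable [DecidableEq F]

theorem add_pt_of_ne {x y x' y' : F} {h : y ^ 2 = x ^ 3 + x + 1} {h' : y' ^ 2 = x' ^ 3 + x' + 1}
    (hx : x ≠ x') :
    ∃ h'', pt x y h + pt x' y' h' = pt (((y - y') / (x - x')) ^ 2 - x - x')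
      (-(y' + (y - y') / (x - x') * (((y - y') / (x - x')) ^ 2 - x - x' - x'))) h'' := by
  have e : pt x y h + pt x' y' h' = _ := WeierstrassCurve.Affine.Point.add_of_X_ne hx
  have hs : (E0 F).slope x x' y y' = (y - y') / (x - x') :=
    WeierstrassCurve.Affine.slope_of_X_ne hx
  have hX : (E0 F).addX x x' ((E0 F).slope x x' y y') = ((y - y') / (x - x')) ^ 2 - x - x' := by
    rw [hs]
    simp [WeierstrassCurve.Affine.addX, E0]
  have hY : (E0 F).addY x x' y ((E0 F).slope x x' y y') =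
      -(y' + (y - y') / (x - x') * (((y - y') / (x - x')) ^ 2 - x - x' - x')) := by
    rw [hs]
    simp only [WeierstrassCurve.Affine.addY, WeierstrassCurve.Affine.negAddY, negY_eq]
    simp only [WeierstrassCurve.Affine.addX, E0]
    have : x - x' ≠ 0 := sub_ne_zero.2 hx
    field_simp
    ring
  have hns : (-(y' + (y - y') / (x - x') * (((y - y') / (x - x')) ^ 2 - x - x' - x'))) ^ 2 =
      (((y - y') / (x - x')) ^ 2 - x - x') ^ 3 + (((y - y') / (x - x')) ^ 2 - x - x') + 1 := by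
    rw [← hY, ← hX]
    exact nonsingular_iff'.1 (WeierstrassCurve.Affine.nonsingular_add (nonsingular_iff'.2 h)
      (nonsingular_iff'.2 h') fun hxy => hx hxy.left)
  refine ⟨hns, ?_⟩
  rw [e]
  unfold pt
  rw [WeierstrassCurve.Affine.Point.some.injEq]
  exact ⟨hX, hY⟩

/-- GRP: `u + P0` for `x ≠ 0` -/
theorem add_P0 {x y : F} {h : y ^ 2 = x ^ 3 + x + 1} (hx : x ≠ 0) :
    ∃ h', pt x y h + P0 = pt (((y - 1) / x) ^ 2 - x)
      (-1 - (y - 1) / x * (((y - 1) / x) ^ 2 - x)) h' := by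
  have h0 : (1 : F) ^ 2 = 0 ^ 3 + 0 + 1 := by norm_num
  obtain ⟨h1, h2⟩ := add_pt_of_ne (h := h) (h' := h0) hx
  have e1 : ((y - 1) / (x - 0)) ^ 2 - x - 0 = ((y - 1) / x) ^ 2 - x := by rw [sub_zero, sub_zero]
  have e2 : -(1 + (y - 1) / (x - 0) * (((y - 1) / (x - 0)) ^ 2 - x - 0 - 0)) =
      -1 - (y - 1) / x * (((y - 1) / x) ^ 2 - x) := by rw [sub_zero, sub_zero, sub_zero]; ring
  refine ⟨by rw [← e2, ← e1]; exact h1, ?_⟩
  unfold P0
  rw [h2, pt_inj]
  exact ⟨e1, e2⟩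

/-- GRP: `u - P0` for `x ≠ 0` -/
theorem sub_P0 {x y : F} {h : y ^ 2 = x ^ 3 + x + 1} (hx : x ≠ 0) :
    ∃ h', pt x y h - P0 = pt (((y + 1) / x) ^ 2 - x)
      (1 - (y + 1) / x * (((y + 1) / x) ^ 2 - x)) h' := by
  have h0 : (-1 : F) ^ 2 = 0 ^ 3 + 0 + 1 := by norm_num
  obtain ⟨h1, h2⟩ := add_pt_of_ne (h := h) (h' := h0) hx
  have e1 : ((y - -1) / (x - 0)) ^ 2 - x - 0 = ((y + 1) / x) ^ 2 - x := by
    rw [sub_zero, sub_zero, sub_neg_eq_add]
  have e2 : -(-1 + (y - -1) / (x - 0) * (((y - -1) / (x - 0)) ^ 2 - x - 0 - 0)) =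
      1 - (y + 1) / x * (((y + 1) / x) ^ 2 - x) := by
    rw [sub_zero, sub_zero, sub_zero, sub_neg_eq_add]; ring
  refine ⟨by rw [← e2, ← e1]; exact h1, ?_⟩
  rw [sub_eq_add_neg, neg_P0, h2, pt_inj]
  exact ⟨e1, e2⟩

/-- the points with `x = 0` are `P0` and `-P0` -/
theorem x_eq_zero {x y : F} {h : y ^ 2 = x ^ 3 + x + 1} (hx : x = 0) :
    pt x y h = P0 ∨ pt x y h = -P0 := by
  subst hx
  have h1 : (y - 1) * (y + 1) = 0 := by linear_combination h
  rcases mul_eq_zero.1 h1 with h2 | h2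
  · left
    unfold P0
    rw [pt_inj]
    exact ⟨rfl, sub_eq_zero.1 h2⟩
  · right
    rw [neg_P0, pt_inj]
    exact ⟨rfl, by linear_combination h2⟩

/-- doubling -/
theorem two_pt {x y : F} {h : y ^ 2 = x ^ 3 + x + 1} (hy : y ≠ 0) :
    ∃ h', pt x y h + pt x y h = pt (((3 * x ^ 2 + 1) / (2 * y)) ^ 2 - 2 * x)
      (-(y + (3 * x ^ 2 + 1) / (2 * y) * (((3 * x ^ 2 + 1) / (2 * y)) ^ 2 - 2 * x - x))) h' := by
  have hn : y ≠ (E0 F).negY x y := by
    rw [negY_eq]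
    intro h1
    have : (2 : F) * y = 0 := by linear_combination h1
    rcases mul_eq_zero.1 this with h3 | h3
    · exact two_ne_zero h3
    · exact hy h3
  have e : pt x y h + pt x y h = _ := WeierstrassCurve.Affine.Point.add_self_of_Y_ne hn
  have hs : (E0 F).slope x x y y = (3 * x ^ 2 + 1) / (2 * y) := by
    rw [WeierstrassCurve.Affine.slope_of_Y_ne rfl hn, negY_eq]
    simp [E0]
    congr 1
    ring
  have hX : (E0 F).addX x x ((E0 F).slope x x y y) = ((3 * x ^ 2 + 1) / (2 * y)) ^ 2 - 2 * x := by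
    rw [hs]
    simp [WeierstrassCurve.Affine.addX, E0]
    ring
  have hY : (E0 F).addY x x y ((E0 F).slope x x y y) =
      -(y + (3 * x ^ 2 + 1) / (2 * y) * (((3 * x ^ 2 + 1) / (2 * y)) ^ 2 - 2 * x - x)) := by
    rw [hs]
    simp only [WeierstrassCurve.Affine.addY, WeierstrassCurve.Affine.negAddY, negY_eq]
    simp only [WeierstrassCurve.Affine.addX, E0]
    ring
  have hns : (-(y + (3 * x ^ 2 + 1) / (2 * y) *
      (((3 * x ^ 2 + 1) / (2 * y)) ^ 2 - 2 * x - x))) ^ 2 =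
      (((3 * x ^ 2 + 1) / (2 * y)) ^ 2 - 2 * x) ^ 3 +
        (((3 * x ^ 2 + 1) / (2 * y)) ^ 2 - 2 * x) + 1 := by
    rw [← hY, ← hX]
    exact nonsingular_iff'.1 (WeierstrassCurve.Affine.nonsingular_add (nonsingular_iff'.2 h)
      (nonsingular_iff'.2 h) fun hxy => hn hxy.right)
  refine ⟨hns, ?_⟩
  rw [e]
  unfold pt
  rw [WeierstrassCurve.Affine.Point.some.injEq]
  exact ⟨hX, hY⟩

/-- the `x`-coordinate of `Q` is `m / (4 ^ k * d)` with `m`, `d` odd -/
def Good (k : ℕ) (Q : (E0 F).Point) : Prop :=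
  ∃ (m d : ℤ) (x y : F) (h : y ^ 2 = x ^ 3 + x + 1), Odd m ∧ Odd d ∧ Q = pt x y h ∧
    x = (m : F) / ((4 ^ k * d : ℤ) : F)

theorem good_two {k : ℕ} {Q : (E0 F).Point} (hk : 1 ≤ k) (hQ : Good k Q) : Good (k + 1) (Q + Q) := by
  obtain ⟨m, d, x, y, h, hm, hd, rfl, hx⟩ := hQ
  set D : ℤ := 4 ^ k * d with hD
  have hDe : Even D := by
    rw [hD]
    refine Even.mul_right ?_ _
    obtain ⟨k, rfl⟩ : ∃ k', k = k' + 1 := ⟨k - 1, by omega⟩
    exact ⟨2 * 4 ^ k, by ring⟩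
  have hd0 : d ≠ 0 := by rintro rfl; exact absurd hd (by decide)
  have hD0 : D ≠ 0 := by rw [hD]; exact mul_ne_zero (pow_ne_zero _ (by norm_num)) hd0
  have hDF : (D : F) ≠ 0 := Int.cast_ne_zero.2 hD0
  -- the odd numbers
  set m' : ℤ := m ^ 4 - 2 * m ^ 2 * D ^ 2 - 8 * m * D ^ 3 + D ^ 4 with hm'
  set s : ℤ := m ^ 3 + m * D ^ 2 + D ^ 3 with hs
  have hm'o : Odd m' := by
    obtain ⟨c, hc⟩ := hDe
    obtain ⟨b, hb⟩ := hm.pow (n := 4)
    refine ⟨b - m ^ 2 * D ^ 2 - 4 * m * D ^ 3 + c * D ^ 3, ?_⟩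
    rw [hm']
    have : D ^ 4 = 2 * (c * D ^ 3) := by
      have : D = 2 * c := by rw [hc]; ring
      calc D ^ 4 = D * D ^ 3 := by ring
        _ = 2 * c * D ^ 3 := by nth_rewrite 1 [this]; ring
        _ = _ := by ring
    rw [this, hb]
    ring
  have hso : Odd s := by
    obtain ⟨c, hc⟩ := hDe
    obtain ⟨b, hb⟩ := hm.pow (n := 3)
    refine ⟨b + m * (c * D) + c * D ^ 2, ?_⟩
    rw [hs]
    have h2 : D ^ 2 = 2 * (c * D) := by
      have : D = 2 * c := by rw [hc]; ring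
      calc D ^ 2 = D * D := by ring
        _ = 2 * c * D := by nth_rewrite 1 [this]; ring
        _ = _ := by ring
    have h3 : D ^ 3 = 2 * (c * D ^ 2) := by
      calc D ^ 3 = D ^ 2 * D := by ring
        _ = 2 * (c * D) * D := by rw [h2]
        _ = _ := by ring
    rw [h3, hb]
    linear_combination m * h2
  have hs0 : (s : F) ≠ 0 := Int.cast_ne_zero.2 (by rintro h; rw [h] at hso; exact absurd hso (by decide))
  have hy2 : y ^ 2 = (s : F) / (D : F) ^ 3 := by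
    rw [h, hx, hs]
    push_cast
    field_simp
  have hy : y ≠ 0 := by
    intro hy
    rw [hy] at hy2
    have : (s : F) / (D : F) ^ 3 ≠ 0 := div_ne_zero hs0 (pow_ne_zero _ hDF)
    exact this (by rw [← hy2]; ring)
  obtain ⟨h', he⟩ := two_pt (h := h) hy
  refine ⟨m', d * s, _, _, h', hm'o, hd.mul hso, he, ?_⟩
  have e1 : ((3 * x ^ 2 + 1) / (2 * y)) ^ 2 = (3 * x ^ 2 + 1) ^ 2 / (4 * y ^ 2) := by
    rw [div_pow]; ring
  rw [e1, hy2, hx]
  have e2 : ((4 ^ (k + 1) * (d * s) : ℤ) : F) = 4 * D * s := by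
    rw [hD]; push_cast; ring
  rw [e2, hm']
  have hs' : (s : F) = (m : F) ^ 3 + m * D ^ 2 + D ^ 3 := by rw [hs]; push_cast; ring
  have h4 : (4 : F) ≠ 0 := by norm_num
  field_simp
  rw [hs']
  push_cast
  ring

theorem good_one : Good 1 ((2 : ℕ) • (P0 : (E0 F).Point)) := by
  rw [two_nsmul]
  unfold P0
  obtain ⟨h', he⟩ := two_pt (F := F) (x := 0) (y := 1) (h := by norm_num) one_ne_zero
  refine ⟨1, 1, _, _, h', by decide, by decide, he, ?_⟩
  norm_num

theorem good_pow (k : ℕ) : Good (k + 1) ((2 ^ (k + 1) : ℕ) • (P0 : (E0 F).Point)) := by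
  induction k with
  | zero => simpa using good_one
  | succ k ih =>
    have : (2 ^ (k + 1 + 1) : ℕ) • (P0 : (E0 F).Point) =
        (2 ^ (k + 1) : ℕ) • P0 + (2 ^ (k + 1) : ℕ) • P0 := by
      rw [← add_nsmul]; congr 1; ring
    rw [this]
    exact good_two (by omega) ih

theorem good_unique {i j : ℕ} {Q : (E0 F).Point} (hij : i < j) (hi : Good i Q) (hj : Good j Q) :
    False := by
  obtain ⟨m, d, x, y, h, hm, hd, rfl, hx⟩ := hi
  obtain ⟨m', d', x', y', h', hm', hd', he, hx'⟩ := hj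
  have hxx := (pt_inj.1 he).1
  rw [hx, hx'] at hxx
  have hd0 : d ≠ 0 := by rintro rfl; exact absurd hd (by decide)
  have hd0' : d' ≠ 0 := by rintro rfl; exact absurd hd' (by decide)
  have h1 : ((4 ^ i * d : ℤ) : F) ≠ 0 :=
    Int.cast_ne_zero.2 (mul_ne_zero (pow_ne_zero _ (by norm_num)) hd0)
  have h2 : ((4 ^ j * d' : ℤ) : F) ≠ 0 :=
    Int.cast_ne_zero.2 (mul_ne_zero (pow_ne_zero _ (by norm_num)) hd0')
  rw [div_eq_div_iff h1 h2] at hxx
  have h3 : m * (4 ^ j * d') = m' * (4 ^ i * d) := by exact_mod_cast hxx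
  obtain ⟨t, rfl⟩ : ∃ t, j = i + (t + 1) := ⟨j - i - 1, by omega⟩
  have h4 : m * (4 ^ (t + 1) * d') = m' * d := by
    have h5 : (4 : ℤ) ^ i ≠ 0 := pow_ne_zero _ (by norm_num)
    apply mul_left_cancel₀ h5
    rw [pow_add] at h3
    linear_combination h3
  have h6 : Odd (m' * d) := hm'.mul hd
  rw [← h4] at h6
  have h7 : Even (m * (4 ^ (t + 1) * d')) := ⟨m * (2 * 4 ^ t * d'), by ring⟩
  exact (Int.not_even_iff_odd.2 h6) h7

/-- ORD: the point `(0, 1)` has infinite order -/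
theorem ORD (n : ℕ) (hn : 0 < n) : n • (P0 : (E0 F).Point) ≠ 0 := by
  intro h0
  have : ∃ i j : ℕ, i ≠ j ∧ (⟨2 ^ (i + 1) % n, Nat.mod_lt _ hn⟩ : Fin n) =
      ⟨2 ^ (j + 1) % n, Nat.mod_lt _ hn⟩ :=
    Finite.exists_ne_map_eq_of_infinite
      (fun i : ℕ => (⟨2 ^ (i + 1) % n, Nat.mod_lt _ hn⟩ : Fin n))
  obtain ⟨i, j, hij, he⟩ := this
  have he' : 2 ^ (i + 1) % n = 2 ^ (j + 1) % n := congrArg Fin.val he
  have h1 : (2 ^ (i + 1)) • (P0 : (E0 F).Point) = (2 ^ (j + 1)) • P0 := by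
    rw [nsmul_eq_mod_nsmul (2 ^ (i + 1)) h0, nsmul_eq_mod_nsmul (2 ^ (j + 1)) h0, he']
  have hi := good_pow (F := F) i
  have hj := good_pow (F := F) j
  rcases lt_or_gt_of_ne hij with h | h
  · rw [← h1] at hj
    exact good_unique (by omega) hi hj
  · rw [h1] at hi
    exact good_unique (by omega) hj hi

theorem ORDz (n : ℤ) (hn : n ≠ 0) : n • (P0 : (E0 F).Point) ≠ 0 := by
  rcases Int.natAbs_eq n with h | h
  · rw [h, natCast_zsmul]
    exact ORD _ (Int.natAbs_pos.2 hn)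
  · rw [h, neg_zsmul, natCast_zsmul, neg_ne_zero]
    exact ORD _ (Int.natAbs_pos.2 hn)

theorem ORD_inj {i j : ℤ} (h : i • (P0 : (E0 F).Point) = j • P0) : i = j := by
  by_contra hne
  refine ORDz (F := F) (i - j) (sub_ne_zero.2 hne) ?_
  rw [sub_zsmul, h]; exact sub_self _

end

end Run7.h921.Han
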